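import Pool.Agent.Lib.MP_a63caf_co.Tables

set_option autoImplicit false

/-! The base poset on `Fin 49` (two variants, `m = false` and `m = true`) and its finite checks. -/

namespace Pool.Agent.Lib.MP_a63caf_co

abbrev B : Type := Fin 49

def dig (T w i : ℕ) : ℕ := (T >>> (w * i)) % 2 ^ w

def le (a b : B) : Bool := Nat.testBit LE (49 * b.val + a.val)
def lt (a b : B) : Bool := le a b && a != b
def rk (a : B) : ℕ := dig RK 3 a.val
def cl (a : B) : ℕ := dig CL 2 a.val
def ty (a : B) : ℕ := dig TY 2 a.val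
def ok (a : B) (m : Bool) : Bool := cl a == 0 || cl a == (if m then 2 else 1)
def lab (a b : B) : ℕ := if ty b = 3 ∧ ty a ≠ 3 then ty a else 0
def inI (m : Bool) (F G a : B) : Bool := ok a m && lt F a && lt a G
def cnt (m : Bool) (F G : B) : ℕ :=
  (Finset.univ.filter fun τ : B => ok τ m = true ∧ le F τ = true ∧ le τ G = true).card
def key (m : Bool) : ℕ := if m then 1 else 0
def dep (m : Bool) (F G : B) : ℕ := (DEP.lookup (key m * 2401 + F.val * 49 + G.val)).getD 0
def gl (m : Bool) : ℕ := if m then GL1 else GL0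

lemma le_refl' : ∀ a : B, le a a = true := by decide +kernel
lemma le_zero : ∀ a : B, le 0 a = true := by decide +kernel
lemma le_last : ∀ a : B, le a 48 = true := by decide +kernel
lemma rk_lt : ∀ a b : B, le a b = true → a ≠ b → rk a < rk b := by decide +kernel
lemma le_trans' : ∀ a b : B, le a b = true → ∀ c : B, le b c = true → le a c = true ∧
    (a ≠ 0 → c ≠ 48 →
      ((lab a b = 0 ∧ lab a c = lab b c) ∨ (lab b c = 0 ∧ lab a c = lab a b))) := by
  decide +kernel
lemma rk_zero : rk 0 = 0 := by decide +kernel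
lemma rk_last : rk 48 = 5 := by decide +kernel
lemma ok_zero : ∀ m, ok 0 m = true := by decide +kernel
lemma ok_last : ∀ m, ok 48 m = true := by decide +kernel
lemma lab_self : ∀ a : B, lab a a = 0 := by decide +kernel
lemma eq_zero_of_le : ∀ a : B, le a 0 = true → a = 0 := by decide +kernel
lemma eq_last_of_le : ∀ a : B, le 48 a = true → a = 48 := by decide +kernel
lemma ok_down : ∀ a b : B, le a b = true → b ≠ 48 →
    (∀ m, ok a m = true) ∨ (lab a b = 0 ∧ ∀ m, ok b m = true → ok a m = true) := by
  decide +kernel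
lemma ok_up : ∀ a b : B, le a b = true → (∀ m, ok b m = true) ∨ lab a b = 0 := by
  decide +kernel
lemma gap' : ∀ (m : Bool) (a b : B), ok a m = true → ok b m = true → le a b = true →
    rk a + 1 < rk b → ∃ h, inI m a b h = true := by
  decide +kernel
lemma dia' : ∀ (m : Bool) (a b : B), ok a m = true → ok b m = true → le a b = true →
    rk b = rk a + 2 → cnt m a b = 4 := by
  decide +kernel
lemma conn' : ∀ (m : Bool) (a b : B), ok a m = true → ok b m = true → le a b = true →
    rk a + 3 ≤ rk b → (a ≠ 0 ∨ b ≠ 48) → ∃ r, ∀ x, inI m a b x = true → x = r ∨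
      ∃ y, inI m a b y = true ∧ (le x y = true ∨ le y x = true) ∧
        dig (dep m a b) 4 y.val < dig (dep m a b) 4 x.val := by
  decide +kernel
lemma glob' : ∀ (m : Bool) (x : B), inI m 0 48 x = true → x = 1 ∨
      ∃ y, inI m 0 48 y = true ∧ ((le x y = true ∧ lab x y = 0) ∨ (le y x = true ∧ lab y x = 0)) ∧
        dig (gl m) 4 y.val < dig (gl m) 4 x.val := by
  decide +kernel
lemma pin45 : ∀ (m : Bool) (τ : B), ok τ m = true → cnt m 0 τ = cnt true 0 45 →
    τ = 45 ∧ m = true := by
  decide +kernel
lemma pin42 : ∀ τ : B, ok τ true = true → le τ 45 = true → cnt true 0 τ = cnt true 0 42 →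
    cnt true τ 48 = cnt true 42 48 → τ = 42 := by
  decide +kernel
lemma pin7 : ∀ τ : B, ok τ true = true → le τ 42 = true → cnt true 0 τ = cnt true 0 7 →
    cnt true τ 48 = cnt true 7 48 → τ = 7 := by
  decide +kernel
lemma pin1 : ∀ τ : B, ok τ true = true → le τ 7 = true → cnt true 0 τ = cnt true 0 1 →
    cnt true τ 48 = cnt true 1 48 → τ = 1 := by
  decide +kernel

end Pool.Agent.Lib.MP_a63caf_co
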