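import Pool.Agent.Lib.MP_a63caf_co.Base

set_option autoImplicit false

/-! Convexity certificates for the spherical and toroidal sections of the base poset. -/

namespace Pool.Agent.Lib.MP_a63caf_co

def sph (m : Bool) (s : B) : ℕ := (SPH.lookup (key m * 49 + s.val)).getD 0
def cv (T : ℕ) (a : B) (i : ℕ) : ℤ := (dig T 12 (3 * a.val + i) : ℤ) - 2048

def idet (T : ℕ) (x y z : B) : ℤ :=
  cv T x 0 * (cv T y 1 * cv T z 2 - cv T y 2 * cv T z 1) -
    cv T x 1 * (cv T y 0 * cv T z 2 - cv T y 2 * cv T z 0) +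
    cv T x 2 * (cv T y 0 * cv T z 1 - cv T y 1 * cv T z 0)

def SphOK (m : Bool) (F G : B) (T : ℕ) : Prop :=
  ∀ a, inI m F G a = true → ∀ b, inI m F G b = true → lt a b = true →
    ∀ c, inI m F G c = true → lt b c = true → idet T a b c ≠ 0 ∧
      ∀ d, inI m F G d = true → d ≠ a → d ≠ b → d ≠ c →
        idet T a b c * (idet T d b c + idet T a d c + idet T a b d) < idet T a b c * idet T a b c

instance (m : Bool) (F G : B) (T : ℕ) : Decidable (SphOK m F G T) := by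
  unfold SphOK; infer_instance

lemma sph_vertex : ∀ (m : Bool) (s : B), ok s m = true → rk s = 1 → SphOK m s 48 (sph m s) := by
  decide +kernel

lemma sph_facet : ∀ (m : Bool) (s : B), ok s m = true → rk s = 4 → s ≠ 45 → s ≠ 46 →
    SphOK m 0 s (sph m s) := by
  decide +kernel

namespace TorCert

variable (T : TorCert)

def px (a : B) : ℤ := (dig T.PX 12 a.val : ℤ) - 2048
def py (a : B) : ℤ := (dig T.PY 12 a.val : ℤ) - 2048
def h (a : B) : ℤ := (dig T.H 12 a.val : ℤ) - 2048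
def s1 (a b : B) : ℤ := (dig T.S1 3 (49 * a.val + b.val) : ℤ) - 4
def s2 (a b : B) : ℤ := (dig T.S2 3 (49 * a.val + b.val) : ℤ) - 4
def X (a c : B) : ℤ := T.px a + T.L * T.s1 a c
def Y (a c : B) : ℤ := T.py a + T.L * T.s2 a c
def q (s t : ℤ) : ℤ := T.α * s ^ 2 + T.β * s * t + T.γ * t ^ 2
def Ht (a c : B) : ℤ := T.q (T.X a c) (T.Y a c) + T.h a
def D (a b c : B) : ℤ :=
  (T.X b c - T.X a c) * (T.py c - T.Y a c) - (T.Y b c - T.Y a c) * (T.px c - T.X a c)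
def Hc (c : B) : ℤ := T.q (T.px c) (T.py c) + T.h c
def n1 (a b c : B) : ℤ := T.Ht a c * (T.Y b c - T.py c) + T.Ht b c * (T.py c - T.Y a c) +
  T.Hc c * (T.Y a c - T.Y b c)
def n2 (a b c : B) : ℤ := T.Ht a c * (T.px c - T.X b c) + T.Ht b c * (T.X a c - T.px c) +
  T.Hc c * (T.X b c - T.X a c)
def n0 (a b c : B) : ℤ := T.Ht a c * (T.X b c * T.py c - T.Y b c * T.px c) +
  T.Ht b c * (T.px c * T.Y a c - T.py c * T.X a c) +
  T.Hc c * (T.X a c * T.Y b c - T.Y a c * T.X b c)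
def E (a b c : B) : ℤ := T.D a b c * T.D a b c * T.L * T.L
def B1 (a b c d : B) : ℤ :=
  T.D a b c * T.L * (T.D a b c * (2 * T.α * T.px d + T.β * T.py d) - T.n1 a b c)
def B2 (a b c d : B) : ℤ :=
  T.D a b c * T.L * (T.D a b c * (T.β * T.px d + 2 * T.γ * T.py d) - T.n2 a b c)
def C0 (a b c d : B) : ℤ :=
  T.D a b c * (T.D a b c * T.Hc d - (T.n1 a b c * T.px d + T.n2 a b c * T.py d + T.n0 a b c))
def poly (E B1 B2 C0 m n : ℤ) : ℤ := E * T.q m n + B1 * m + B2 * n + C0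

def OK1 : Prop :=
  0 < T.L ∧ 0 < T.κ ∧ T.κ ≤ T.α ∧ T.κ ≤ T.γ ∧ T.β ^ 2 ≤ 4 * (T.α - T.κ) * (T.γ - T.κ)

def OK2 (G : B) : Prop :=
  ∀ a, inI true 0 G a = true → ∀ b, inI true 0 G b = true → le a b = true →
    ∀ c, inI true 0 G c = true → le b c = true →
      T.s1 a c = T.s1 a b + T.s1 b c ∧ T.s2 a c = T.s2 a b + T.s2 b c

def OK5 (a b c d : B) (m n : ℤ) : Prop :=
  (d = a ∨ d = b ∨ d = c → m ≠ T.s1 d c ∨ n ≠ T.s2 d c) →
    0 < T.poly (T.E a b c) (T.B1 a b c d) (T.B2 a b c d) (T.C0 a b c d) m n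

instance (a b c d : B) (m n : ℤ) : Decidable (T.OK5 a b c d m n) := by
  unfold OK5; infer_instance

def Far (E B1 B2 C0 : ℤ) : Prop :=
  |2 * E * (2 * T.γ * B1 - T.β * B2)| ≤ (4 * T.α * T.γ - T.β ^ 2) * E ^ 2 * T.K ∧
  |2 * E * (2 * T.α * B2 - T.β * B1)| ≤ (4 * T.α * T.γ - T.β ^ 2) * E ^ 2 * T.K ∧
  0 < T.K * ((4 * T.α * T.γ - T.β ^ 2) * E ^ 2 * T.K - |2 * E * (2 * T.γ * B1 - T.β * B2)|) +
    (4 * E * T.γ * C0 - B2 ^ 2) ∧
  0 < T.K * ((4 * T.α * T.γ - T.β ^ 2) * E ^ 2 * T.K - |2 * E * (2 * T.α * B2 - T.β * B1)|) +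
    (4 * E * T.α * C0 - B1 ^ 2)

instance (E B1 B2 C0 : ℤ) : Decidable (T.Far E B1 B2 C0) := by
  unfold Far; infer_instance

def OK4 (a b c d : B) : Prop :=
  T.Far (T.E a b c) (T.B1 a b c d) (T.B2 a b c d) (T.C0 a b c d) ∧
    ∀ i : ℕ, i < 2 * T.K → ∀ j : ℕ, j < 2 * T.K → T.OK5 a b c d ((i : ℤ) - T.K) ((j : ℤ) - T.K)

instance (a b c d : B) : Decidable (T.OK4 a b c d) := by
  unfold OK4; infer_instance

def OK3 (G : B) : Prop :=
  ∀ a, inI true 0 G a = true → ∀ b, inI true 0 G b = true → lt a b = true →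
    ∀ c, inI true 0 G c = true → lt b c = true → T.D a b c ≠ 0 ∧
      ∀ d, inI true 0 G d = true → T.OK4 a b c d

instance : Decidable T.OK1 := by unfold OK1; infer_instance
instance (G : B) : Decidable (T.OK2 G) := by unfold OK2; infer_instance
instance (G : B) : Decidable (T.OK3 G) := by unfold OK3; infer_instance

def OK (G : B) : Prop := T.OK1 ∧ T.OK2 G ∧ T.OK3 G

instance (G : B) : Decidable (T.OK G) := by
  unfold OK; infer_instance

end TorCert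

lemma tor1_ok : TOR1.OK 45 := by decide +kernel
lemma tor2_ok : TOR2.OK 46 := by decide +kernel

end Pool.Agent.Lib.MP_a63caf_co
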