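import Pool.Agent.Lib.MP_a63caf_co.Sphere

set_option autoImplicit false

/-! Barycentric subdivision does not change the geometric realisation. -/

namespace Pool.Agent.Lib.MP_a63caf_co

open Classical in
lemma realization_chains {C L : Type} [PartialOrder C] [PartialOrder L] [Finite C] [Finite L]
    (f : C → Set L) (h1 : ∀ s t, s ≤ t ↔ f s ⊆ f t) (h2 : ∀ s, (f s).Nonempty)
    (h3 : ∀ s, IsChain (· ≤ ·) (f s))
    (h4 : ∀ S : Set L, S.Nonempty → IsChain (· ≤ ·) S → ∃ s, f s = S) :
    Nonempty (realization C ≃ₜ realization L) := by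
  have : Fintype C := Fintype.ofFinite _
  have : Fintype L := Fintype.ofFinite _
  let c : C → ℝ := fun s => ((f s).ncard : ℝ)
  have hc : ∀ s, 0 < c s := fun s => by
    have := (Set.ncard_pos (Set.toFinite (f s))).mpr (h2 s)
    exact Nat.cast_pos.mpr this
  let Φ : (C → ℝ) → L → ℝ := fun w y => ∑ s, if y ∈ f s then w s / c s else 0
  have hsum : ∀ w, ∑ y, Φ w y = ∑ s, w s := by
    intro w
    simp only [Φ]
    rw [Finset.sum_comm]
    refine Finset.sum_congr rfl fun s _ => ?_
    rw [← Finset.sum_filter, Finset.sum_const, nsmul_eq_mul]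
    have : ((Finset.univ.filter fun y => y ∈ f s).card : ℝ) = c s := by
      simp only [c]
      rw [Set.ncard_eq_toFinset_card' (f s)]
      congr 2
      ext y
      simp
    rw [this]
    field_simp [(hc s).ne']
  have hmem : ∀ w ∈ realization C, Φ w ∈ realization L := by
    intro w hw
    rw [mem_realization] at hw ⊢
    refine ⟨fun y => Finset.sum_nonneg fun s _ => ?_, by rw [hsum, hw.2.1], fun y z hy hz => ?_⟩
    · split_ifs
      · exact div_nonneg (hw.1 s) (hc s).le
      · exact le_rfl
    · have ex : ∀ u, Φ w u ≠ 0 → ∃ s, u ∈ f s ∧ w s ≠ 0 := by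
        intro u hu
        obtain ⟨s, -, hs⟩ := Finset.exists_ne_zero_of_sum_ne_zero hu
        by_cases h : u ∈ f s
        · refine ⟨s, h, fun h0 => hs ?_⟩
          rw [if_pos h, h0, zero_div]
        · exact absurd (if_neg h) hs
      obtain ⟨s, hs, ws⟩ := ex y hy
      obtain ⟨t, ht, wt⟩ := ex z hz
      rcases hw.2.2 s t ws wt with h | h
      · exact (h3 t).total ((h1 s t).mp h hs) ht
      · exact (h3 s).total hs ((h1 t s).mp h ht)
  let φ : realization C → realization L := fun w => ⟨Φ w.1, hmem _ w.2⟩
  have hφc : Continuous φ := by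
    apply Continuous.subtype_mk
    apply continuous_pi
    intro y
    apply continuous_finsetSum
    intro s _
    split_ifs
    · exact ((continuous_apply s).comp continuous_subtype_val).div_const _
    · exact continuous_const
  let G : (C → ℝ) → C → ℝ := fun w A => ∑ s, if A ≤ s then w s / c s else 0
  have g1 : ∀ w ∈ realization C, ∀ A, ∀ y ∈ f A, G w A ≤ Φ w y := by
    intro w hw A y hy
    rw [mem_realization] at hw
    refine Finset.sum_le_sum fun s _ => ?_
    by_cases h : A ≤ s
    · rw [if_pos h, if_pos ((h1 A s).mp h hy)]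
    · rw [if_neg h]
      split_ifs
      · exact div_nonneg (hw.1 s) (hc s).le
      · exact le_rfl
  have g2 : ∀ w ∈ realization C, ∀ A, ∃ y ∈ f A, Φ w y = G w A := by
    intro w hw A
    rw [mem_realization] at hw
    by_cases hT : {s | w s ≠ 0 ∧ ¬ A ≤ s}.Nonempty
    · obtain ⟨s0, hs0⟩ := (Set.toFinite _).exists_maximal hT
      have hn : ¬ f A ⊆ f s0 := fun h => hs0.1.2 ((h1 _ _).mpr h)
      obtain ⟨y, hy, hy0⟩ := Set.not_subset.mp hn
      refine ⟨y, hy, Finset.sum_congr rfl fun s _ => ?_⟩
      by_cases h0 : w s = 0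
      · simp [h0]
      by_cases h : A ≤ s
      · rw [if_pos h, if_pos ((h1 A s).mp h hy)]
      · have hle : s ≤ s0 := by
          rcases hw.2.2 s s0 h0 hs0.1.1 with h5 | h5
          · exact h5
          · exact hs0.2 ⟨h0, h⟩ h5
        rw [if_neg h, if_neg fun h5 => hy0 ((h1 _ _).mp hle h5)]
    · obtain ⟨y, hy⟩ := h2 A
      refine ⟨y, hy, Finset.sum_congr rfl fun s _ => ?_⟩
      by_cases h0 : w s = 0
      · simp [h0]
      have h : A ≤ s := by
        by_contra h
        exact hT ⟨s, h0, h⟩
      rw [if_pos h, if_pos ((h1 A s).mp h hy)]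
  have hinj : Function.Injective φ := by
    rintro ⟨w, hw⟩ ⟨w', hw'⟩ h
    have e : Φ w = Φ w' := congrArg Subtype.val h
    have eG : ∀ A, G w A = G w' A := by
      intro A
      obtain ⟨y, hy, e1⟩ := g2 w hw A
      obtain ⟨y', hy', e2⟩ := g2 w' hw' A
      have a1 := g1 w hw A y' hy'
      have a2 := g1 w' hw' A y hy
      rw [e] at a1 e1
      linarith
    apply Subtype.ext
    funext A
    induction A using WellFoundedGT.induction with
    | ind A ih =>
      have e1 : ∑ s, ((if A ≤ s then w s / c s else 0) - if A ≤ s then w' s / c s else 0) = 0 := by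
        rw [Finset.sum_sub_distrib]
        exact sub_eq_zero.mpr (eG A)
      rw [Finset.sum_eq_single A] at e1
      · rw [if_pos le_rfl, if_pos le_rfl, sub_eq_zero, div_left_inj' (hc A).ne'] at e1
        exact e1
      · intro s _ hs
        by_cases h5 : A ≤ s
        · have h6 : w s = w' s := ih s (lt_of_le_of_ne h5 (Ne.symm hs))
          rw [h6, sub_self]
        · rw [if_neg h5, if_neg h5, sub_self]
      · intro h5
        exact absurd (Finset.mem_univ A) h5
  have key : ∀ (n : ℕ) (x : L → ℝ), (Function.support x).ncard = n → (∀ y, 0 ≤ x y) →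
      IsChain (· ≤ ·) (Function.support x) → ∃ w : C → ℝ, (∀ s, 0 ≤ w s) ∧
        (∀ s t, w s ≠ 0 → w t ≠ 0 → s ≤ t ∨ t ≤ s) ∧
        (∀ s, w s ≠ 0 → f s ⊆ Function.support x) ∧ Φ w = x := by
    intro n
    induction n using Nat.strong_induction_on with
    | _ n ih =>
    intro x hn hx hch
    by_cases hS : (Function.support x).Nonempty
    · obtain ⟨s0, hs0⟩ := h4 _ hS hch
      obtain ⟨y0, hy0, hmin⟩ := Set.exists_min_image _ x (Set.toFinite _) hS
      let x' : L → ℝ := fun y => if x y = 0 then 0 else x y - x y0
      have hsub : Function.support x' ⊆ Function.support x := by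
        intro y hy h0
        exact hy (if_pos h0)
      have hlt : (Function.support x').ncard < n := by
        rw [← hn]
        refine Set.ncard_lt_ncard ⟨hsub, fun h => ?_⟩ (Set.toFinite _)
        have := h hy0
        apply this
        simp [x']
      obtain ⟨w, w1, w2, w3, w4⟩ := ih _ hlt x' rfl (fun y => by
        simp only [x']
        split_ifs with h
        · exact le_rfl
        · exact sub_nonneg.mpr (hmin y h)) (hch.mono hsub)
      have hle : ∀ s, w s ≠ 0 → s ≤ s0 := fun s hs =>
        (h1 _ _).mpr (hs0 ▸ (w3 s hs).trans hsub)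
      have hc0 : ∀ s, w s + (if s = s0 then x y0 * c s0 else 0) ≠ 0 → w s ≠ 0 ∨ s = s0 := by
        intro s hs
        by_contra h
        push Not at h
        exact hs (by rw [h.1, if_neg h.2, add_zero])
      refine ⟨fun s => w s + if s = s0 then x y0 * c s0 else 0, fun s => ?_, fun s t hs ht => ?_,
        fun s hs => ?_, ?_⟩
      · refine add_nonneg (w1 s) ?_
        split_ifs
        · exact mul_nonneg (hx _) (hc _).le
        · exact le_rfl
      · rcases hc0 s hs with a | rfl
        · rcases hc0 t ht with b | rfl
          · exact w2 s t a b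
          · exact Or.inl (hle s a)
        · rcases hc0 t ht with b | rfl
          · exact Or.inr (hle t b)
          · exact Or.inl le_rfl
      · rcases hc0 s hs with a | rfl
        · exact (w3 s a).trans hsub
        · exact hs0.subset
      · funext y
        have e1 : Φ w y = x' y := congrFun w4 y
        have e2 : Φ (fun s => w s + if s = s0 then x y0 * c s0 else 0) y =
            Φ w y + if y ∈ f s0 then x y0 else 0 := by
          simp only [Φ]
          have : (if y ∈ f s0 then x y0 else 0) =
              ∑ s, if s = s0 then (if y ∈ f s0 then x y0 else 0) else 0 := by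
            rw [Finset.sum_ite_eq' Finset.univ s0, if_pos (Finset.mem_univ _)]
          rw [this, ← Finset.sum_add_distrib]
          refine Finset.sum_congr rfl fun s _ => ?_
          by_cases h5 : s = s0
          · subst h5
            by_cases h6 : y ∈ f s
            · simp only [if_pos h6, if_true]
              field_simp [(hc s).ne']
            · simp [h6]
          · simp [h5]
        rw [e2, e1, hs0]
        by_cases h0 : x y = 0
        · simp [x', h0]
        · simp [x', h0]
    · refine ⟨0, fun _ => le_rfl, fun s t hs => absurd rfl hs, fun s hs => absurd rfl hs, ?_⟩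
      funext y
      have : x y = 0 := by
        by_contra h
        exact hS ⟨y, h⟩
      simp [Φ, this]
  have hsurj : Function.Surjective φ := by
    rintro ⟨x, hx⟩
    obtain ⟨w, w1, w2, -, w4⟩ := key _ x rfl hx.1 hx.2.2
    refine ⟨⟨w, (mem_realization w).mpr ⟨w1, ?_, w2⟩⟩, Subtype.ext w4⟩
    rw [← hsum, w4]
    exact ((mem_realization x).mp hx).2.1
  have : CompactSpace (realization C) := isCompact_iff_compactSpace.mp isCompact_realization
  exact ⟨Continuous.homeoOfEquivCompactToT2 (f := Equiv.ofBijective φ ⟨hinj, hsurj⟩) hφc⟩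

end Pool.Agent.Lib.MP_a63caf_co
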