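import Pool.Agent.Lib.MP_a63caf_co.Defs

set_option autoImplicit false

/-! General facts on finite graded posets: heights, flags, strong flag connectivity, rigidity. -/

namespace Pool.Agent.Lib.MP_a63caf_co

variable {P : Type} [PartialOrder P] [BoundedOrder P]

structure Graded (ρ : P → ℕ) (N : ℕ) : Prop where
  mono : ∀ F G : P, F < G → ρ F < ρ G
  gap : ∀ F G : P, F < G → ρ F + 1 < ρ G → ∃ H, F < H ∧ H < G
  bot : ρ ⊥ = 0
  top : ρ ⊤ = N

namespace Graded

variable {ρ : P → ℕ} {N : ℕ} (g : Graded ρ N)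
include g

lemma le_mono {F G : P} (h : F ≤ G) : ρ F ≤ ρ G := by
  rcases h.eq_or_lt with rfl | h
  · exact le_rfl
  · exact (g.mono _ _ h).le

lemma le_N (F : P) : ρ F ≤ N := g.top ▸ g.le_mono le_top

lemma exists_cover {F G : P} (h : F < G) : ∃ H, F < H ∧ H ≤ G ∧ ρ H = ρ F + 1 := by
  induction hk : ρ G using Nat.strong_induction_on generalizing G with
  | _ k ih =>
    by_cases h1 : ρ F + 1 < ρ G
    · obtain ⟨H, h2, h3⟩ := g.gap F G h h1
      obtain ⟨K, k1, k2, k3⟩ := ih (ρ H) (hk ▸ g.mono _ _ h3) h2 rfl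
      exact ⟨K, k1, k2.trans h3.le, k3⟩
    · have := g.mono _ _ h
      exact ⟨G, h, le_rfl, by omega⟩

lemma exists_between {F G : P} (h : F ≤ G) (j : ℕ) (h1 : ρ F ≤ j) (h2 : j ≤ ρ G) :
    ∃ H, F ≤ H ∧ H ≤ G ∧ ρ H = j := by
  induction j, h1 using Nat.le_induction with
  | base => exact ⟨F, le_rfl, h, rfl⟩
  | succ j hj ih =>
    obtain ⟨H, a1, a2, a3⟩ := ih (by omega)
    have : H < G := lt_of_le_of_ne a2 (by rintro rfl; omega)
    obtain ⟨K, k1, k2, k3⟩ := g.exists_cover this
    exact ⟨K, a1.trans k1.le, k2, by omega⟩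

lemma height_eq (F : P) : Order.height F = ρ F := by
  rw [← Order.height_nat (ρ F)]
  apply Order.height_eq_of_strictMono ρ (fun a b h => g.mono a b h)
  intro a b hb
  obtain ⟨H, _, h2, h3⟩ := g.exists_between (bot_le : ⊥ ≤ a) b (by rw [g.bot]; omega) hb.le
  exact ⟨H, lt_of_le_of_ne h2 (by rintro rfl; omega), h3⟩

lemma map_rank (f : P ≃o P) (F : P) : ρ (f F) = ρ F := by
  have := Order.height_orderIso f F
  rw [g.height_eq, g.height_eq] at this
  exact_mod_cast this

lemma flag_le (A : Flag P) {a b : P} (ha : a ∈ A) (hb : b ∈ A) (h : ρ a ≤ ρ b) : a ≤ b := by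
  rcases A.le_or_le ha hb with h1 | h1
  · exact h1
  · rcases h1.eq_or_lt with rfl | h2
    · exact le_rfl
    · have := g.mono _ _ h2
      omega

lemma flag_lt (A : Flag P) {a b : P} (ha : a ∈ A) (hb : b ∈ A) (h : ρ a < ρ b) : a < b :=
  lt_of_le_of_ne (g.flag_le A ha hb h.le) (by rintro rfl; omega)

lemma flag_eq (A : Flag P) {a b : P} (ha : a ∈ A) (hb : b ∈ A) (h : ρ a = ρ b) : a = b :=
  le_antisymm (g.flag_le A ha hb h.le) (g.flag_le A hb ha h.ge)

lemma flag_exists (A : Flag P) (j : ℕ) (hj : j ≤ N) : ∃ a ∈ A, ρ a = j := by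
  classical
  induction j with
  | zero => exact ⟨⊥, A.bot_mem, g.bot⟩
  | succ i ih =>
    obtain ⟨F, hF, hFi⟩ := ih (by omega)
    have hex : ∃ k, ∃ G ∈ A, ρ G = k ∧ i < k := ⟨N, ⊤, A.top_mem, g.top, by omega⟩
    obtain ⟨G, hG, hGk, hik⟩ := Nat.find_spec hex
    by_cases h : Nat.find hex = i + 1
    · exact ⟨G, hG, hGk.trans h⟩
    · exfalso
      have hFG : F < G := g.flag_lt A hF hG (by omega)
      obtain ⟨H, h1, h2⟩ := g.gap F G hFG (by omega)
      have hH : H ∈ A := by
        rw [Flag.mem_iff_forall_le_or_ge]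
        intro b hb
        by_cases hbi : ρ b ≤ i
        · exact Or.inr ((g.flag_le A hb hF (by omega)).trans h1.le)
        · have := Nat.find_min' hex ⟨b, hb, rfl, by omega⟩
          exact Or.inl (h2.le.trans (g.flag_le A hG hb (by omega)))
      have h3 := g.mono _ _ h1
      have h4 := g.mono _ _ h2
      have := Nat.find_min' hex ⟨H, hH, rfl, by omega⟩
      omega

lemma flag_card (A : Flag P) : (A : Set P).ncard = N + 1 := by
  have hinj : Set.InjOn ρ (A : Set P) := fun a ha b hb h => g.flag_eq A ha hb h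
  rw [← hinj.ncard_image]
  have : ρ '' (A : Set P) = (Finset.range (N + 1) : Set ℕ) := by
    ext j
    simp only [Set.mem_image, Finset.coe_range, Set.mem_Iio]
    constructor
    · rintro ⟨a, _, rfl⟩
      have := g.le_N a
      omega
    · intro hj
      obtain ⟨a, ha, h⟩ := g.flag_exists A j (by omega)
      exact ⟨a, ha, h⟩
  rw [this, Set.ncard_coe_finset, Finset.card_range]

lemma flag_conn_aux [Finite P]
    (hconn : ∀ F G : P, F < G → ρ F + 3 ≤ ρ G → ∀ x y, F < x → x < G → F < y → y < G →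
      Relation.ReflTransGen (fun a b => (a ≤ b ∨ b ≤ a) ∧ F < b ∧ b < G) x y)
    (k : ℕ) : ∀ (A B : Flag P) (S : Set P), S ⊆ A → S ⊆ B → ((A : Set P) \ B).ncard = k →
      Relation.ReflTransGen (fun C D : Flag P => Adj C D ∧ S ⊆ (D : Set P)) A B := by
  classical
  induction k using Nat.strong_induction_on with
  | _ k ih =>
  intro A B S hSA hSB hk
  by_cases hAB : (A : Set P) ⊆ B
  · have : A = B := Flag.ext (A.maxChain.2 B.chain_le hAB)
    rw [this]
  -- the lowest face `x` of `A` outside `B`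
  have hex : ∃ i, ∃ x ∈ A, x ∉ B ∧ ρ x = i := by
    obtain ⟨x, hx, hx'⟩ := Set.not_subset.mp hAB
    exact ⟨_, x, hx, hx', rfl⟩
  obtain ⟨x, hxA, hxB, hxi⟩ := Nat.find_spec hex
  set i := Nat.find hex with hi
  have hi0 : i ≠ 0 := by
    intro h0
    apply hxB
    rw [g.flag_eq A hxA A.bot_mem (by rw [g.bot]; omega)]
    exact B.bot_mem
  have hiN : i ≤ N := hxi ▸ g.le_N x
  obtain ⟨F, hFA, hFi⟩ := g.flag_exists A (i - 1) (by omega)
  have hFB : F ∈ B := by
    by_contra h
    have := Nat.find_min' hex ⟨F, hFA, h, hFi⟩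
    omega
  obtain ⟨y, hyB, hyi⟩ := g.flag_exists B i hiN
  have hyA : y ∉ A := by
    intro h
    apply hxB
    rw [g.flag_eq A hxA h (by omega)]
    exact hyB
  have hiN' : i < N := by
    by_contra h
    apply hxB
    rw [g.flag_eq A hxA A.top_mem (by rw [g.top]; omega)]
    exact B.top_mem
  have hex2 : ∃ j, ∃ G ∈ A, G ∈ B ∧ ρ G = j ∧ i < j := ⟨N, ⊤, A.top_mem, B.top_mem, g.top, hiN'⟩
  obtain ⟨G, hGA, hGB, hGj, hij⟩ := Nat.find_spec hex2
  set j := Nat.find hex2 with hj
  have hT : ∀ t, t ∈ A → t ∈ B → t ≤ F ∨ G ≤ t := by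
    intro t ha hb
    by_cases h1 : ρ t < i
    · exact Or.inl (g.flag_le A ha hFA (by omega))
    · have h2 : ρ t ≠ i := by
        intro h
        apply hxB
        rw [g.flag_eq A hxA ha (by omega)]
        exact hb
      have := Nat.find_min' hex2 ⟨t, ha, hb, rfl, by omega⟩
      exact Or.inr (g.flag_le A hGA ha (by omega))
  have hFx : F < x := g.flag_lt A hFA hxA (by omega)
  have hxG : x < G := g.flag_lt A hxA hGA (by omega)
  have hFy : F < y := g.flag_lt B hFB hyB (by omega)
  have hyG : y < G := g.flag_lt B hyB hGB (by omega)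
  have hfinA : (A : Set P).Finite := Set.toFinite _
  by_cases hj1 : j = i + 1
  · -- exchange `x` for `y`
    have hch : IsChain (· ≤ ·) (insert y ((A : Set P) \ {x})) := by
      apply IsChain.insert (A.chain_le.mono Set.sdiff_subset)
      rintro b ⟨hb, hbx⟩ _
      have hne : ρ b ≠ i := fun h => hbx (g.flag_eq A hb hxA (by omega))
      by_cases h1 : ρ b < i
      · exact Or.inr ((g.flag_le A hb hFA (by omega)).trans hFy.le)
      · exact Or.inl (hyG.le.trans (g.flag_le A hGA hb (by omega)))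
    obtain ⟨A', hA'⟩ := hch.exists_subset_flag
    have hyA' : y ∈ A' := hA' (Set.mem_insert _ _)
    have hsub : ∀ a ∈ A, a ≠ x → a ∈ A' := fun a ha hne => hA' (Set.mem_insert_of_mem _ ⟨ha, hne⟩)
    have hxA' : x ∉ A' := by
      intro h
      apply hyA
      rw [g.flag_eq A' hyA' h (by omega)]
      exact hxA
    have hback : ∀ z ∈ A', z ≠ y → z ∈ A ∧ z ≠ x := by
      intro z hz hzy
      obtain ⟨a, ha, haz⟩ := g.flag_exists A (ρ z) (g.le_N z)
      have hax : a ≠ x := by
        rintro rfl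
        exact hzy (g.flag_eq A' hz hyA' (by omega))
      have := g.flag_eq A' (hsub a ha hax) hz haz
      exact this ▸ ⟨ha, hax⟩
    have hadj : Adj A A' := by
      constructor
      · rw [Set.ncard_eq_one]
        refine ⟨x, Set.eq_singleton_iff_unique_mem.mpr ⟨⟨hxA, hxA'⟩, ?_⟩⟩
        rintro a ⟨ha, ha'⟩
        by_contra hne
        exact ha' (hsub a ha hne)
      · rw [Set.ncard_eq_one]
        refine ⟨y, Set.eq_singleton_iff_unique_mem.mpr ⟨⟨hyA', hyA⟩, ?_⟩⟩
        rintro a ⟨ha, ha'⟩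
        by_contra hne
        exact ha' (hback a ha hne).1
    have hSA' : S ⊆ A' := fun s hs => hsub s (hSA hs) (by rintro rfl; exact hxB (hSB hs))
    have hlt : ((A' : Set P) \ B).ncard < k := by
      rw [← hk]
      apply Set.ncard_lt_ncard _ (hfinA.subset Set.sdiff_subset)
      refine ⟨?_, fun h => hxA' (h ⟨hxA, hxB⟩).1⟩
      rintro z ⟨hz, hzB⟩
      exact ⟨(hback z hz (by rintro rfl; exact hzB hyB)).1, hzB⟩
    exact Relation.ReflTransGen.head ⟨hadj, hSA'⟩ (ih _ hlt A' B S hSA' hSB rfl)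
  · have hk1 : ((A : Set P) ∩ B).ncard + k = N + 1 := by
      rw [← hk, Set.ncard_inter_add_ncard_sdiff_eq_ncard _ _ hfinA, g.flag_card]
    have hS : ∀ C : Flag P, (A : Set P) ∩ B ⊆ C → S ⊆ C := fun C h s hs => h ⟨hSA hs, hSB hs⟩
    have small : ∀ (C C' : Flag P) (z : P), F < z → z < G → (A : Set P) ∩ B ⊆ C → z ∈ C →
        (A : Set P) ∩ B ⊆ C' → z ∈ C' →
        Relation.ReflTransGen (fun C D : Flag P => Adj C D ∧ S ⊆ (D : Set P)) C C' := by
      intro C C' z h1 h2 hC hzC hC' hzC'
      have hz : z ∉ (A : Set P) ∩ B := by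
        rintro ⟨ha, hb⟩
        rcases hT z ha hb with h | h
        · exact absurd h1 (not_lt_of_ge h)
        · exact absurd h2 (not_lt_of_ge h)
      have e1 : ((C : Set P) ∩ C').ncard + ((C : Set P) \ C').ncard = N + 1 := by
        rw [Set.ncard_inter_add_ncard_sdiff_eq_ncard _ _ (Set.toFinite _), g.flag_card]
      have e2 : (insert z ((A : Set P) ∩ B)).ncard ≤ ((C : Set P) ∩ C').ncard := by
        apply Set.ncard_le_ncard _ (Set.toFinite _)
        rintro t (rfl | ht)
        · exact ⟨hzC, hzC'⟩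
        · exact ⟨hC ht, hC' ht⟩
      rw [Set.ncard_insert_of_notMem hz] at e2
      exact ih _ (by omega) C C' S (hS C hC) (hS C' hC') rfl
    have key : ∀ z, Relation.ReflTransGen (fun a b => (a ≤ b ∨ b ≤ a) ∧ F < b ∧ b < G) x z →
        (F < z ∧ z < G) ∧ ∀ C : Flag P, (A : Set P) ∩ B ⊆ C → z ∈ C →
          Relation.ReflTransGen (fun C D : Flag P => Adj C D ∧ S ⊆ (D : Set P)) A C := by
      intro z hz
      induction hz with
      | refl =>
        exact ⟨⟨hFx, hxG⟩, fun C hC hxC =>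
          small A C x hFx hxG Set.inter_subset_left hxA hC hxC⟩
      | @tail z z' _ hstep ihz =>
        obtain ⟨⟨z1, z2⟩, ihz⟩ := ihz
        obtain ⟨hcomp, z1', z2'⟩ := hstep
        refine ⟨⟨z1', z2'⟩, fun C' hC' hz' => ?_⟩
        have hch : IsChain (· ≤ ·) (insert z (insert z' ((A : Set P) ∩ B))) := by
          apply IsChain.insert
          · apply IsChain.insert (A.chain_le.mono Set.inter_subset_left)
            rintro b ⟨ha, hb⟩ _
            rcases hT b ha hb with h | h
            · exact Or.inr (h.trans z1'.le)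
            · exact Or.inl (z2'.le.trans h)
          · rintro b (rfl | ⟨ha, hb⟩) _
            · exact hcomp
            · rcases hT b ha hb with h | h
              · exact Or.inr (h.trans z1.le)
              · exact Or.inl (z2.le.trans h)
        obtain ⟨C, hC⟩ := hch.exists_subset_flag
        have hTC : (A : Set P) ∩ B ⊆ C := fun t ht =>
          hC (Set.mem_insert_of_mem _ (Set.mem_insert_of_mem _ ht))
        exact (ihz C hTC (hC (Set.mem_insert _ _))).trans
          (small C C' z' z1' z2' hTC (hC (Set.mem_insert_of_mem _ (Set.mem_insert _ _))) hC' hz')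
    exact (key y (hconn F G (hFx.trans hxG) (by omega) x y hFx hxG hFy hyG)).2 B
      Set.inter_subset_right hyB

lemma isPolytope [Finite P] (n : ℕ) (hN : N = n + 1)
    (hconn : ∀ F G : P, F < G → ρ F + 3 ≤ ρ G → ∀ x y, F < x → x < G → F < y → y < G →
      Relation.ReflTransGen (fun a b => (a ≤ b ∨ b ≤ a) ∧ F < b ∧ b < G) x y)
    (hdia : ∀ F G : P, F < G → ρ G = ρ F + 2 → {H : P | F < H ∧ H < G}.ncard = 2) :
    IsPolytope n P where
  flag_card A := by rw [g.flag_card, hN]
  flag_conn A B := g.flag_conn_aux hconn _ A B _ Set.inter_subset_left Set.inter_subset_right rfl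
  diamond F G h h2 := by
    apply hdia F G h
    rw [g.height_eq, g.height_eq] at h2
    exact_mod_cast h2

lemma rigid {n : ℕ} (hP : IsPolytope n P) (f : P ≃o P) (A : Flag P) (hA : ∀ a ∈ A, f a = a)
    (x : P) : f x = x := by
  have step : ∀ C D : Flag P, Adj C D → (∀ a ∈ C, f a = a) → ∀ a ∈ D, f a = a := by
    intro C D hadj hC
    obtain ⟨a, ha⟩ := Set.ncard_eq_one.mp hadj.1
    obtain ⟨b, hb⟩ := Set.ncard_eq_one.mp hadj.2
    have ha1 : a ∈ (C : Set P) \ D := ha ▸ Set.mem_singleton a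
    have hb1 : b ∈ (D : Set P) \ C := hb ▸ Set.mem_singleton b
    have hCD : ∀ c ∈ C, c ≠ a → c ∈ D := by
      intro c hc hne
      by_contra h
      have : c ∈ (C : Set P) \ D := ⟨hc, h⟩
      rw [ha] at this
      exact hne this
    have hDC : ∀ c ∈ D, c ≠ b → c ∈ C := by
      intro c hc hne
      by_contra h
      have : c ∈ (D : Set P) \ C := ⟨hc, h⟩
      rw [hb] at this
      exact hne this
    have hab : ρ a = ρ b := by
      obtain ⟨d, hd, hda⟩ := g.flag_exists D (ρ a) (g.le_N a)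
      by_cases h : d = b
      · rw [← hda, h]
      · exact absurd (g.flag_eq C (hDC d hd h) ha1.1 hda ▸ hd) ha1.2
    have h0 : ρ a ≠ 0 := fun h =>
      ha1.2 (g.flag_eq C ha1.1 C.bot_mem (h.trans g.bot.symm) ▸ D.bot_mem)
    have hN : ρ a ≠ N := fun h =>
      ha1.2 (g.flag_eq C ha1.1 C.top_mem (h.trans g.top.symm) ▸ D.top_mem)
    have hle := g.le_N a
    obtain ⟨F, hF, hF1⟩ := g.flag_exists C (ρ a - 1) (by omega)
    obtain ⟨G, hG, hG1⟩ := g.flag_exists C (ρ a + 1) (by omega)
    have hFD : F ∈ D := hCD F hF (by rintro rfl; omega)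
    have hGD : G ∈ D := hCD G hG (by rintro rfl; omega)
    have a1 : F < a := g.flag_lt C hF ha1.1 (by omega)
    have a2 : a < G := g.flag_lt C ha1.1 hG (by omega)
    have b1 : F < b := g.flag_lt D hFD hb1.1 (by omega)
    have b2 : b < G := g.flag_lt D hb1.1 hGD (by omega)
    have hne : a ≠ b := by rintro rfl; exact ha1.2 hb1.1
    have hdia := hP.diamond F G (a1.trans a2) (by
      rw [g.height_eq, g.height_eq, hF1, hG1]
      norm_cast
      omega)
    have hfb : f b = b := by
      have c1 : F < f b := by rw [← hC F hF]; exact f.strictMono b1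
      have c2 : f b < G := by rw [← hC G hG]; exact f.strictMono b2
      have c3 : f b ≠ a := by rw [← hC a ha1.1]; exact fun h => hne (f.injective h).symm
      obtain ⟨u, v, _, huv⟩ := Set.ncard_eq_two.mp hdia
      have m1 : a ∈ ({u, v} : Set P) := huv ▸ ⟨a1, a2⟩
      have m2 : b ∈ ({u, v} : Set P) := huv ▸ ⟨b1, b2⟩
      have m3 : f b ∈ ({u, v} : Set P) := huv ▸ ⟨c1, c2⟩
      simp only [Set.mem_insert_iff, Set.mem_singleton_iff] at m1 m2 m3
      grind
    intro c hc
    by_cases h : c = b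
    · rw [h, hfb]
    · exact hC c (hDC c hc h)
  obtain ⟨B, hB⟩ := Flag.exists_mem x
  have key : ∀ a ∈ B, f a = a := by
    have h := hP.flag_conn A B
    generalize (A : Set P) ∩ (B : Set P) = S at h
    clear hB
    induction h with
    | refl => exact hA
    | tail _ h2 ih => exact step _ _ h2.1 ih
  exact key x hB

end Graded

end Pool.Agent.Lib.MP_a63caf_co
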