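import Pool.Agent.Lib.MP_a63caf_co.Base
import Pool.Agent.Lib.MP_a63caf_co.Graded

set_option autoImplicit false
set_option linter.unusedSectionVars false

/-! The voltage cover of the base poset over a set with two permutations and a marking. -/

namespace Pool.Agent.Lib.MP_a63caf_co

structure Volt (Ω : Type) where
  α : Equiv.Perm Ω
  β : Equiv.Perm Ω
  mark : Ω → Bool

variable {Ω : Type}

def Volt.g (V : Volt Ω) (k : ℕ) : Equiv.Perm Ω := if k = 1 then V.α else if k = 2 then V.β else 1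

lemma Volt.g_zero (V : Volt Ω) : V.g 0 = 1 := by simp [Volt.g]

inductive Cov (V : Volt Ω) : Type
  | bot : Cov V
  | top : Cov V
  | mid (σ : B) (x : Ω) (h : σ ≠ 0 ∧ σ ≠ 48 ∧ ok σ (V.mark x) = true) : Cov V

namespace Cov

variable {V : Volt Ω}

def pr : Cov V → B
  | bot => 0
  | top => 48
  | mid σ _ _ => σ

def compat : Cov V → Cov V → Prop
  | mid σ x _, mid τ y _ => x = V.g (lab σ τ) y
  | _, _ => True

lemma le_antisymm' (a b : B) (h1 : le a b = true) (h2 : le b a = true) : a = b := by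
  by_contra h
  have := rk_lt a b h1 h
  have := rk_lt b a h2 (Ne.symm h)
  omega

lemma g_cocycle (a b c : B) (h1 : le a b = true) (h2 : le b c = true) (ha : a ≠ 0) (hc : c ≠ 48) :
    V.g (lab a c) = V.g (lab a b) * V.g (lab b c) := by
  rcases (le_trans' a b h1 c h2).2 ha hc with ⟨e1, e2⟩ | ⟨e1, e2⟩
  · rw [e1, e2, V.g_zero, one_mul]
  · rw [e1, e2, V.g_zero, mul_one]

instance : PartialOrder (Cov V) where
  le p q := le p.pr q.pr = true ∧ compat p q
  le_refl p := by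
    refine ⟨le_refl' _, ?_⟩
    cases p <;> simp [compat, lab_self, V.g_zero]
  le_trans p q r h1 h2 := by
    refine ⟨(le_trans' _ _ h1.1 _ h2.1).1, ?_⟩
    cases p with
    | bot => trivial
    | top => trivial
    | mid σ x hx =>
      cases r with
      | bot => trivial
      | top => trivial
      | mid ρ z hz =>
        cases q with
        | bot => exact absurd (eq_zero_of_le _ h1.1) hx.1
        | top => exact absurd (eq_last_of_le _ h2.1) hz.2.1
        | mid τ y hy =>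
          have e1 : x = V.g (lab σ τ) y := h1.2
          have e2 : y = V.g (lab τ ρ) z := h2.2
          change x = V.g (lab σ ρ) z
          rw [g_cocycle σ τ ρ h1.1 h2.1 hx.1 hz.2.1, Equiv.Perm.mul_apply, ← e2, ← e1]
  le_antisymm p q h1 h2 := by
    have e := le_antisymm' _ _ h1.1 h2.1
    cases p with
    | bot =>
      cases q with
      | bot => rfl
      | top => exact absurd e (show (0 : B) ≠ 48 by decide)
      | mid τ y hy => exact absurd e.symm hy.1
    | top =>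
      cases q with
      | bot => exact absurd e (show (48 : B) ≠ 0 by decide)
      | top => rfl
      | mid τ y hy => exact absurd e.symm hy.2.1
    | mid σ x hx =>
      cases q with
      | bot => exact absurd e hx.1
      | top => exact absurd e hx.2.1
      | mid τ y hy =>
        obtain rfl : σ = τ := e
        have e1 : x = V.g (lab σ σ) y := h1.2
        rw [lab_self, V.g_zero] at e1
        obtain rfl : x = y := e1
        rfl

lemma le_def (p q : Cov V) : p ≤ q ↔ le p.pr q.pr = true ∧ compat p q := Iff.rfl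

instance : BoundedOrder (Cov V) where
  bot := bot
  top := top
  bot_le p := ⟨le_zero _, trivial⟩
  le_top p := ⟨le_last _, by cases p <;> trivial⟩

lemma pr_bot : (⊥ : Cov V).pr = 0 := rfl
lemma pr_top : (⊤ : Cov V).pr = 48 := rfl

lemma mid_le_mid {σ τ : B} {x y : Ω} {hx hy} :
    (mid σ x hx : Cov V) ≤ mid τ y hy ↔ le σ τ = true ∧ x = V.g (lab σ τ) y := Iff.rfl

lemma eq_of_le_of_pr {p q : Cov V} (h : p ≤ q) (e : p.pr = q.pr) : p = q := by
  apply le_antisymm h
  refine ⟨e ▸ le_refl' _, ?_⟩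
  cases p with
  | bot => cases q <;> trivial
  | top => cases q <;> trivial
  | mid σ x hx =>
    cases q with
    | bot => trivial
    | top => trivial
    | mid τ y hy =>
      obtain rfl : σ = τ := e
      have e1 : x = V.g (lab σ σ) y := h.2
      change y = V.g (lab σ σ) x
      rw [lab_self, V.g_zero] at e1 ⊢
      exact e1.symm

instance [Finite Ω] : Finite (Cov V) := by
  let f : Cov V → B × Option Ω := fun p => match p with
    | bot => (0, none)
    | top => (48, none)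
    | mid σ x _ => (σ, some x)
  apply Finite.of_injective f
  intro p q h
  cases p <;> cases q <;> simp_all [f]

structure Chart (F G : Cov V) (m : Bool) (lam : B → Cov V) : Prop where
  sec : ∀ τ, ok τ m = true → le F.pr τ = true → le τ G.pr = true →
    (lam τ).pr = τ ∧ F ≤ lam τ ∧ lam τ ≤ G
  inv : ∀ H, F ≤ H → H ≤ G → ok H.pr m = true ∧ lam H.pr = H
  mono : ∀ τ τ', ok τ m = true → ok τ' m = true → le F.pr τ = true → le τ τ' = true →
    le τ' G.pr = true → lam τ ≤ lam τ'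

lemma Chart.restrict {F G F' G' : Cov V} {m : Bool} {lam : B → Cov V} (C : Chart F G m lam)
    (h1 : F ≤ F') (h2 : F' ≤ G') (h3 : G' ≤ G) : Chart F' G' m lam where
  sec τ h a b := by
    have a' := (le_trans' _ _ h1.1 _ a).1
    have b' := (le_trans' _ _ b _ h3.1).1
    obtain ⟨f1, f2⟩ := C.inv F' h1 (h2.trans h3)
    obtain ⟨g1, g2⟩ := C.inv G' (h1.trans h2) h3
    refine ⟨(C.sec τ h a' b').1, ?_, ?_⟩
    · rw [← f2]; exact C.mono _ _ f1 h h1.1 a b'
    · rw [← g2]; exact C.mono _ _ h g1 a' b h3.1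
  inv H a b := C.inv H (h1.trans a) (b.trans h3)
  mono τ τ' a b c d e :=
    C.mono τ τ' a b (le_trans' _ _ h1.1 _ c).1 d (le_trans' _ _ e _ h3.1).1

open Classical in
/-- The face of type `τ` at position `y`, when it exists. -/
noncomputable def mk' (V : Volt Ω) (τ : B) (y : Ω) : Cov V :=
  if τ = 0 then bot else if τ = 48 then top else
    if h : τ ≠ 0 ∧ τ ≠ 48 ∧ ok τ (V.mark y) = true then mid τ y h else bot

lemma mk'_zero (y : Ω) : mk' V 0 y = ⊥ := by simp [mk']; rfl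
lemma mk'_last (y : Ω) : mk' V 48 y = ⊤ := by
  rw [mk', if_neg (by decide), if_pos rfl]; rfl
lemma mk'_mid (τ : B) (y : Ω) (h : τ ≠ 0 ∧ τ ≠ 48 ∧ ok τ (V.mark y) = true) :
    mk' V τ y = mid τ y h := by
  rw [mk', if_neg h.1, if_neg h.2.1, dif_pos h]

lemma chart_down (σ : B) (x : Ω) (hx) :
    Chart ⊥ (mid σ x hx : Cov V) (V.mark x) (fun τ => mk' V τ (V.g (lab τ σ) x)) := by
  have val : ∀ τ, τ ≠ 0 → ok τ (V.mark x) = true → le τ σ = true →
      τ ≠ 0 ∧ τ ≠ 48 ∧ ok τ (V.mark (V.g (lab τ σ) x)) = true := by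
    intro τ h0 h1 h2
    refine ⟨h0, fun h => hx.2.1 (eq_last_of_le _ (h ▸ h2)), ?_⟩
    rcases ok_down τ σ h2 hx.2.1 with h | h
    · exact h _
    · rw [h.1, V.g_zero]; exact h1
  constructor
  · intro τ h1 _ h2
    by_cases h0 : τ = 0
    · subst h0
      simp only [mk'_zero]
      exact ⟨rfl, le_rfl, bot_le⟩
    · simp only [mk'_mid _ _ (val τ h0 h1 h2)]
      exact ⟨rfl, bot_le, h2, rfl⟩
  · intro H _ h2
    cases H with
    | bot => exact ⟨ok_zero _, mk'_zero _⟩
    | top => exact absurd (eq_last_of_le _ h2.1) hx.2.1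
    | mid τ y hy =>
      obtain ⟨h3, rfl⟩ := mid_le_mid.mp h2
      refine ⟨?_, mk'_mid _ _ hy⟩
      rcases ok_down τ σ h3 hx.2.1 with h | h
      · exact h _
      · exact h.2 _ hx.2.2
  · intro τ τ' a b _ d e
    by_cases h0 : τ = 0
    · subst h0
      simp only [mk'_zero]
      exact bot_le
    have h0' : τ' ≠ 0 := fun h => h0 (eq_zero_of_le _ (h ▸ d))
    simp only [mk'_mid _ _ (val τ h0 a (le_trans' _ _ d _ e).1), mk'_mid _ _ (val τ' h0' b e)]
    refine mid_le_mid.mpr ⟨d, ?_⟩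
    rw [g_cocycle τ τ' σ d e h0 hx.2.1, Equiv.Perm.mul_apply]

lemma chart_up (σ : B) (x : Ω) (hx) :
    Chart (mid σ x hx : Cov V) ⊤ (V.mark x) (fun τ => mk' V τ ((V.g (lab σ τ))⁻¹ x)) := by
  have val : ∀ τ, τ ≠ 48 → ok τ (V.mark x) = true → le σ τ = true →
      τ ≠ 0 ∧ τ ≠ 48 ∧ ok τ (V.mark ((V.g (lab σ τ))⁻¹ x)) = true := by
    intro τ h0 h1 h2
    refine ⟨fun h => hx.1 (eq_zero_of_le _ (h ▸ h2)), h0, ?_⟩
    rcases ok_up σ τ h2 with h | h
    · exact h _
    · rw [h, V.g_zero]; exact h1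
  constructor
  · intro τ h1 h2 _
    by_cases h0 : τ = 48
    · subst h0
      simp only [mk'_last]
      exact ⟨rfl, le_top, le_rfl⟩
    · simp only [mk'_mid _ _ (val τ h0 h1 h2)]
      exact ⟨rfl, mid_le_mid.mpr ⟨h2, by simp⟩, le_top⟩
  · intro H h2 _
    cases H with
    | bot => exact absurd (eq_zero_of_le _ h2.1) hx.1
    | top => exact ⟨ok_last _, mk'_last _⟩
    | mid τ y hy =>
      obtain ⟨h3, rfl⟩ := mid_le_mid.mp h2
      constructor
      · rcases ok_up σ τ h3 with h | h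
        · exact h _
        · rw [h, V.g_zero]; exact hy.2.2
      · have e : (V.g (lab σ τ))⁻¹ (V.g (lab σ τ) y) = y := by simp
        simp only [pr, e]
        exact mk'_mid _ _ hy
  · intro τ τ' a b c d _
    by_cases h0 : τ' = 48
    · subst h0
      simp only [mk'_last]
      exact le_top
    have h0' : τ ≠ 48 := fun h => h0 (eq_last_of_le _ (h ▸ d))
    simp only [mk'_mid _ _ (val τ h0' a c), mk'_mid _ _ (val τ' h0 b (le_trans' _ _ c _ d).1)]
    refine mid_le_mid.mpr ⟨d, ?_⟩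
    rw [g_cocycle σ τ τ' c d hx.1 h0]
    simp

lemma exists_chart {F G : Cov V} (h : F < G) (hne : F ≠ ⊥ ∨ G ≠ ⊤) :
    ∃ m lam, Chart F G m lam := by
  cases F with
  | top => exact absurd h not_top_lt
  | mid σ x hx => exact ⟨_, _, (chart_up σ x hx).restrict le_rfl h.le le_top⟩
  | bot =>
    cases G with
    | bot => exact absurd h (lt_irrefl _)
    | top => rcases hne with h | h <;> exact absurd rfl h
    | mid σ x hx => exact ⟨_, _, chart_down σ x hx⟩

lemma lt_pr {p q : Cov V} (h : p < q) : lt p.pr q.pr = true := by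
  simp only [lt, Bool.and_eq_true, bne_iff_ne]
  exact ⟨h.le.1, fun e => h.ne (eq_of_le_of_pr h.le e)⟩

namespace Chart

variable {F G : Cov V} {m : Bool} {lam : B → Cov V} (C : Chart F G m lam)
include C

lemma inj {H K : Cov V} (a : F ≤ H) (b : H ≤ G) (c : F ≤ K) (d : K ≤ G) (e : H.pr = K.pr) :
    H = K := by
  rw [← (C.inv H a b).2, ← (C.inv K c d).2, e]

lemma le_of {H K : Cov V} (a : F ≤ H) (b : H ≤ G) (c : F ≤ K) (d : K ≤ G)
    (e : le H.pr K.pr = true) : H ≤ K := by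
  rw [← (C.inv H a b).2, ← (C.inv K c d).2]
  exact C.mono _ _ (C.inv H a b).1 (C.inv K c d).1 a.1 e d.1

lemma inI_pr {H : Cov V} (a : F < H) (b : H < G) : inI m F.pr G.pr H.pr = true := by
  simp only [inI, Bool.and_eq_true]
  exact ⟨⟨(C.inv H a.le b.le).1, lt_pr a⟩, lt_pr b⟩

lemma lam_inI {τ : B} (h : inI m F.pr G.pr τ = true) :
    (lam τ).pr = τ ∧ F < lam τ ∧ lam τ < G := by
  simp only [inI, lt, Bool.and_eq_true, bne_iff_ne] at h
  obtain ⟨⟨a, b, c⟩, d, e⟩ := h
  obtain ⟨h1, h2, h3⟩ := C.sec τ a b d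
  refine ⟨h1, lt_of_le_of_ne h2 ?_, lt_of_le_of_ne h3 ?_⟩
  · intro h; exact c (by rw [h, h1])
  · intro h; exact e (by rw [← h, h1])

lemma ncard_Icc : (Set.Icc F G).ncard = cnt m F.pr G.pr := by
  rw [cnt, ← Set.ncard_coe_finset]
  apply Set.ncard_congr (fun H _ => H.pr)
  · rintro H ⟨a, b⟩
    simp only [Finset.coe_filter, Finset.mem_univ, true_and, Set.mem_ofPred_eq]
    exact ⟨(C.inv H a b).1, a.1, b.1⟩
  · rintro H K ⟨a, b⟩ ⟨c, d⟩ e
    exact C.inj a b c d e
  · intro τ hτ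
    simp only [Finset.coe_filter, Finset.mem_univ, true_and, Set.mem_ofPred_eq] at hτ
    obtain ⟨h1, h2, h3⟩ := C.sec τ hτ.1 hτ.2.1 hτ.2.2
    exact ⟨lam τ, ⟨h2, h3⟩, h1⟩

end Chart

def rank (p : Cov V) : ℕ := rk p.pr

lemma one_valid (x : Ω) : (1 : B) ≠ 0 ∧ (1 : B) ≠ 48 ∧ ok 1 (V.mark x) = true := by
  cases V.mark x <;> decide +kernel

lemma bot_lt_mid (σ : B) (x : Ω) (hx) : (⊥ : Cov V) < mid σ x hx :=
  lt_of_le_of_ne bot_le (by intro h; cases h)

lemma mid_lt_top (σ : B) (x : Ω) (hx) : (mid σ x hx : Cov V) < ⊤ :=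
  lt_of_le_of_ne le_top (by intro h; cases h)

lemma graded [Nonempty Ω] : Graded (rank : Cov V → ℕ) 5 where
  mono F G h := rk_lt _ _ h.le.1 fun e => h.ne (eq_of_le_of_pr h.le e)
  gap F G h h2 := by
    by_cases hne : F ≠ ⊥ ∨ G ≠ ⊤
    · obtain ⟨m, lam, C⟩ := exists_chart h hne
      obtain ⟨τ, hτ⟩ := gap' m F.pr G.pr (C.inv F le_rfl h.le).1 (C.inv G h.le le_rfl).1 h.le.1 h2
      exact ⟨lam τ, (C.lam_inI hτ).2⟩
    · push Not at hne
      obtain ⟨rfl, rfl⟩ := hne
      obtain ⟨x⟩ := ‹Nonempty Ω›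
      exact ⟨mid 1 x (one_valid x), bot_lt_mid _ _ _, mid_lt_top _ _ _⟩
  bot := rk_zero
  top := rk_last

lemma diamond [Finite Ω] (F G : Cov V) (h : F < G) (h2 : rank G = rank F + 2) :
    {H : Cov V | F < H ∧ H < G}.ncard = 2 := by
  have hne : F ≠ ⊥ ∨ G ≠ ⊤ := by
    by_contra hne
    push Not at hne
    obtain ⟨rfl, rfl⟩ := hne
    simp only [rank, pr_bot, pr_top, rk_zero, rk_last] at h2
    omega
  obtain ⟨m, lam, C⟩ := exists_chart h hne
  have h3 := C.ncard_Icc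
  rw [dia' m F.pr G.pr (C.inv F le_rfl h.le).1 (C.inv G h.le le_rfl).1 h.le.1 h2,
    ← Set.Ico_insert_right h.le, ← Set.Ioo_insert_left h,
    Set.ncard_insert_of_notMem (by simp [h.ne']), Set.ncard_insert_of_notMem (by simp)] at h3
  have : (Set.Ioo F G).ncard = 2 := by omega
  exact this

lemma rtg_symm {α : Type} {r : α → α → Prop} {S : α → Prop} (hr : ∀ a b, r a b → r b a) {x y : α}
    (hx : S x) (h : Relation.ReflTransGen (fun a b => r a b ∧ S b) x y) :
    Relation.ReflTransGen (fun a b => r a b ∧ S b) y x := by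
  have : S y ∧ Relation.ReflTransGen (fun a b => r a b ∧ S b) y x := by
    induction h with
    | refl => exact ⟨hx, Relation.ReflTransGen.refl⟩
    | tail _ h2 ih => exact ⟨h2.2, Relation.ReflTransGen.head ⟨hr _ _ h2.1, ih.1⟩ ih.2⟩
  exact this.2

lemma conn_local (F G : Cov V) (h : F < G) (hne : F ≠ ⊥ ∨ G ≠ ⊤) (h2 : rank F + 3 ≤ rank G)
    (x y : Cov V) (x1 : F < x) (x2 : x < G) (y1 : F < y) (y2 : y < G) :
    Relation.ReflTransGen (fun a b => (a ≤ b ∨ b ≤ a) ∧ F < b ∧ b < G) x y := by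
  obtain ⟨m, lam, C⟩ := exists_chart h hne
  have hne' : F.pr ≠ 0 ∨ G.pr ≠ 48 := by
    rcases hne with h | h
    · exact Or.inl fun e => h (eq_of_le_of_pr bot_le e.symm).symm
    · exact Or.inr fun e => h (eq_of_le_of_pr le_top e)
  obtain ⟨r, hr⟩ := conn' m F.pr G.pr (C.inv F le_rfl h.le).1 (C.inv G h.le le_rfl).1 h.le.1 h2 hne'
  have key : ∀ (k : ℕ) (z : Cov V), F < z → z < G → dig (dep m F.pr G.pr) 4 z.pr.val = k →
      Relation.ReflTransGen (fun a b => (a ≤ b ∨ b ≤ a) ∧ F < b ∧ b < G) z (lam r) := by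
    intro k
    induction k using Nat.strong_induction_on with
    | _ k ih =>
      intro z z1 z2 hk
      rcases hr z.pr (C.inI_pr z1 z2) with e | ⟨τ, t1, t2, t3⟩
      · rw [← e, (C.inv z z1.le z2.le).2]
      · obtain ⟨l1, l2, l3⟩ := C.lam_inI t1
        refine Relation.ReflTransGen.head ⟨?_, l2, l3⟩ (ih _ (hk ▸ t3) (lam τ) l2 l3 (by rw [l1]))
        rcases t2 with t | t
        · exact Or.inl (C.le_of z1.le z2.le l2.le l3.le (by rw [l1]; exact t))
        · exact Or.inr (C.le_of l2.le l3.le z1.le z2.le (by rw [l1]; exact t))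
  exact (key _ x x1 x2 rfl).trans
    (rtg_symm (r := fun a b => a ≤ b ∨ b ≤ a) (S := fun b => F < b ∧ b < G)
      (fun _ _ h => h.symm) ⟨y1, y2⟩ (key _ y y1 y2 rfl))

lemma to_root (σ : B) (x : Ω) (hx) :
    Relation.ReflTransGen (fun a b : Cov V => (a ≤ b ∨ b ≤ a) ∧ ⊥ < b ∧ b < ⊤) (mid σ x hx)
      (mid 1 x (one_valid x)) := by
  induction hk : dig (gl (V.mark x)) 4 σ.val using Nat.strong_induction_on generalizing σ with
  | _ k ih =>
    have hI : inI (V.mark x) 0 48 σ = true := by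
      simp only [inI, lt, Bool.and_eq_true, bne_iff_ne]
      exact ⟨⟨hx.2.2, le_zero _, hx.1.symm⟩, le_last _, hx.2.1⟩
    rcases glob' _ σ hI with rfl | ⟨τ, t1, t2, t3⟩
    · exact Relation.ReflTransGen.refl
    · simp only [inI, lt, Bool.and_eq_true, bne_iff_ne] at t1
      have hτ : τ ≠ 0 ∧ τ ≠ 48 ∧ ok τ (V.mark x) = true := ⟨t1.1.2.2.symm, t1.2.2, t1.1.1⟩
      refine Relation.ReflTransGen.head ⟨?_, bot_lt_mid _ _ hτ, mid_lt_top _ _ hτ⟩
        (ih _ (hk ▸ t3) τ hτ rfl)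
      rcases t2 with ⟨t, e⟩ | ⟨t, e⟩
      · exact Or.inl (mid_le_mid.mpr ⟨t, by rw [e, V.g_zero]; rfl⟩)
      · exact Or.inr (mid_le_mid.mpr ⟨t, by rw [e, V.g_zero]; rfl⟩)

lemma root_step (σ : B) (k : ℕ) (h1 : σ ≠ 0 ∧ σ ≠ 48 ∧ ∀ m, ok σ m = true)
    (h2 : le σ 22 = true ∧ lab σ 22 = k) (x : Ω) :
    Relation.ReflTransGen (fun a b : Cov V => (a ≤ b ∨ b ≤ a) ∧ ⊥ < b ∧ b < ⊤)
      (mid 1 x (one_valid x)) (mid 1 (V.g k x) (one_valid _)) := by
  have v1 : (22 : B) ≠ 0 ∧ (22 : B) ≠ 48 ∧ ok 22 (V.mark x) = true := by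
    cases V.mark x <;> decide +kernel
  have v2 : σ ≠ 0 ∧ σ ≠ 48 ∧ ok σ (V.mark (V.g k x)) = true := ⟨h1.1, h1.2.1, h1.2.2 _⟩
  refine (rtg_symm (r := fun a b => a ≤ b ∨ b ≤ a) (S := fun b : Cov V => ⊥ < b ∧ b < ⊤)
      (fun _ _ h => h.symm) ⟨bot_lt_mid _ _ v1, mid_lt_top _ _ v1⟩ (to_root 22 x v1)).trans ?_
  refine Relation.ReflTransGen.head ⟨Or.inr ?_, bot_lt_mid _ _ v2, mid_lt_top _ _ v2⟩
    (to_root σ _ v2)
  exact mid_le_mid.mpr ⟨h2.1, by rw [h2.2]⟩

theorem isPolytope [Finite Ω] [Nonempty Ω]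
    (htr : ∀ x y : Ω, Relation.ReflTransGen (fun a b => b = V.α a ∨ b = V.β a) x y) :
    IsPolytope 4 (Cov V) := by
  apply graded.isPolytope 4 rfl _ diamond
  intro F G h h2 x y x1 x2 y1 y2
  by_cases hne : F ≠ ⊥ ∨ G ≠ ⊤
  · exact conn_local F G h hne h2 x y x1 x2 y1 y2
  push Not at hne
  obtain ⟨rfl, rfl⟩ := hne
  cases x with
  | bot => exact absurd x1 (lt_irrefl _)
  | top => exact absurd x2 (lt_irrefl _)
  | mid σ x hx =>
  cases y with
  | bot => exact absurd y1 (lt_irrefl _)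
  | top => exact absurd y2 (lt_irrefl _)
  | mid τ y hy =>
  refine (to_root σ x hx).trans (Relation.ReflTransGen.trans ?_
    (rtg_symm (r := fun a b => a ≤ b ∨ b ≤ a) (S := fun b : Cov V => ⊥ < b ∧ b < ⊤)
      (fun _ _ h => h.symm) ⟨y1, y2⟩ (to_root τ y hy)))
  clear y1 y2 hy
  induction htr x y with
  | refl => exact Relation.ReflTransGen.refl
  | tail _ h2 ih =>
    refine ih.trans ?_
    rcases h2 with rfl | rfl
    · exact root_step 3 1 (by decide +kernel) (by decide +kernel) _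
    · exact root_step 5 2 (by decide +kernel) (by decide +kernel) _

lemma pin (f : Cov V ≃o Cov V) (x : Ω) (hm : V.mark x = true) (σ τ : B) (hσ) (hτ)
    (hlab : ∀ ρ, lab ρ σ = 0) (hle : le τ σ = true)
    (hu : ∀ ρ : B, ok ρ true = true → le ρ σ = true → cnt true 0 ρ = cnt true 0 τ →
      cnt true ρ 48 = cnt true τ 48 → ρ = τ)
    (hf : f (mid σ x hσ) = mid σ x hσ) : f (mid τ x hτ) = mid τ x hτ := by
  have h1 : (mid τ x hτ : Cov V) ≤ mid σ x hσ :=
    mid_le_mid.mpr ⟨hle, by rw [hlab, V.g_zero]; rfl⟩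
  have h2 : f (mid τ x hτ) ≤ mid σ x hσ := by rw [← hf]; exact f.monotone h1
  have h3 : (Set.Icc ⊥ (f (mid τ x hτ))).ncard = (Set.Icc ⊥ (mid τ x hτ : Cov V)).ncard := by
    rw [← f.map_bot, ← f.image_Icc, Set.ncard_image_of_injective _ f.injective, f.map_bot]
  have h4 : (Set.Icc (f (mid τ x hτ)) ⊤).ncard = (Set.Icc (mid τ x hτ : Cov V) ⊤).ncard := by
    rw [← f.map_top, ← f.image_Icc, Set.ncard_image_of_injective _ f.injective, f.map_top]
  have h5 : ⊥ < f (mid τ x hτ) := by rw [← f.map_bot]; exact f.strictMono (bot_lt_mid _ _ _)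
  generalize f (mid τ x hτ) = q at h2 h3 h4 h5
  cases q with
  | bot => exact absurd h5 (lt_irrefl _)
  | top => exact absurd (eq_last_of_le _ h2.1) hσ.2.1
  | mid ρ y hy =>
    obtain ⟨a, b⟩ := mid_le_mid.mp h2
    rw [hlab, V.g_zero] at b
    obtain rfl : y = x := b
    rw [(chart_down ρ y hy).ncard_Icc, (chart_down τ y hτ).ncard_Icc, hm] at h3
    rw [(chart_up ρ y hy).ncard_Icc, (chart_up τ y hτ).ncard_Icc, hm] at h4
    obtain rfl := hu ρ (hm ▸ hy.2.2) a h3 h4
    rfl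

lemma valid_of (x : Ω) (hm : V.mark x = true) (σ : B) (h : σ ≠ 0 ∧ σ ≠ 48 ∧ ok σ true = true) :
    σ ≠ 0 ∧ σ ≠ 48 ∧ ok σ (V.mark x) = true := hm ▸ h

lemma map_c1 (f : Cov V ≃o Cov V) (x : Ω) (hm : V.mark x = true) (h45) :
    ∃ y hy, V.mark y = true ∧ f (mid 45 x h45) = mid 45 y hy := by
  have h3 : (Set.Icc ⊥ (f (mid 45 x h45))).ncard = (Set.Icc ⊥ (mid 45 x h45 : Cov V)).ncard := by
    rw [← f.map_bot, ← f.image_Icc, Set.ncard_image_of_injective _ f.injective, f.map_bot]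
  have h5 : ⊥ < f (mid 45 x h45) := by rw [← f.map_bot]; exact f.strictMono (bot_lt_mid _ _ _)
  have h6 : f (mid 45 x h45) < ⊤ := by rw [← f.map_top]; exact f.strictMono (mid_lt_top _ _ _)
  generalize f (mid 45 x h45) = q at h3 h5 h6
  cases q with
  | bot => exact absurd h5 (lt_irrefl _)
  | top => exact absurd h6 (lt_irrefl _)
  | mid ρ y hy =>
    rw [(chart_down ρ y hy).ncard_Icc, (chart_down 45 x h45).ncard_Icc, hm] at h3
    obtain ⟨rfl, e⟩ := pin45 _ ρ hy.2.2 h3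
    exact ⟨y, hy, e, rfl⟩

lemma eq_one_of_fix [Nonempty Ω] (hP : IsPolytope 4 (Cov V)) (f : Cov V ≃o Cov V) (x : Ω)
    (hm : V.mark x = true) (h45) (hf : f (mid 45 x h45) = mid 45 x h45) (p : Cov V) : f p = p := by
  have h42 := valid_of x hm 42 (by decide +kernel)
  have h7 := valid_of x hm 7 (by decide +kernel)
  have h1 := valid_of x hm 1 (by decide +kernel)
  have f42 := pin f x hm 45 42 h45 h42 (by decide +kernel) (by decide +kernel) pin42 hf
  have f7 := pin f x hm 42 7 h42 h7 (by decide +kernel) (by decide +kernel) pin7 f42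
  have f1 := pin f x hm 7 1 h7 h1 (by decide +kernel) (by decide +kernel) pin1 f7
  have l1 : (mid 1 x h1 : Cov V) ≤ mid 7 x h7 := mid_le_mid.mpr ⟨by decide +kernel, by
    rw [show lab 1 7 = 0 by decide +kernel, V.g_zero]; rfl⟩
  have l2 : (mid 7 x h7 : Cov V) ≤ mid 42 x h42 := mid_le_mid.mpr ⟨by decide +kernel, by
    rw [show lab 7 42 = 0 by decide +kernel, V.g_zero]; rfl⟩
  have l3 : (mid 42 x h42 : Cov V) ≤ mid 45 x h45 := mid_le_mid.mpr ⟨by decide +kernel, by
    rw [show lab 42 45 = 0 by decide +kernel, V.g_zero]; rfl⟩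
  have hch : IsChain (· ≤ ·)
      ({mid 1 x h1, mid 7 x h7, mid 42 x h42, mid 45 x h45} : Set (Cov V)) := by
    have l4 := l1.trans l2
    have l5 := l2.trans l3
    have l6 := l4.trans l3
    rintro a (rfl | rfl | rfl | rfl) b (rfl | rfl | rfl | rfl) _ <;>
      first | exact Or.inl le_rfl | exact Or.inl ‹_› | exact Or.inr ‹_›
  obtain ⟨A, hA⟩ := hch.exists_subset_flag
  apply graded.rigid hP f A
  intro a ha
  have hle := graded.le_N a
  have r1 : rank (mid 1 x h1 : Cov V) = 1 := by change rk 1 = 1; decide +kernel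
  have r2 : rank (mid 7 x h7 : Cov V) = 2 := by change rk 7 = 2; decide +kernel
  have r3 : rank (mid 42 x h42 : Cov V) = 3 := by change rk 42 = 3; decide +kernel
  have r4 : rank (mid 45 x h45 : Cov V) = 4 := by change rk 45 = 4; decide +kernel
  obtain h | h | h | h | h | h :
      rank a = 0 ∨ rank a = 1 ∨ rank a = 2 ∨ rank a = 3 ∨ rank a = 4 ∨ rank a = 5 := by omega
  · rw [graded.flag_eq A ha A.bot_mem (h.trans graded.bot.symm), f.map_bot]
  · rw [graded.flag_eq A ha (hA (by simp)) (h.trans r1.symm), f1]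
  · rw [graded.flag_eq A ha (hA (by simp)) (h.trans r2.symm), f7]
  · rw [graded.flag_eq A ha (hA (by simp)) (h.trans r3.symm), f42]
  · rw [graded.flag_eq A ha (hA (by simp)) (h.trans r4.symm), hf]
  · rw [graded.flag_eq A ha A.top_mem (h.trans graded.top.symm), f.map_top]

end Cov

end Pool.Agent.Lib.MP_a63caf_co
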