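import Mathlib

set_option autoImplicit false

namespace Pool.Agent.Lib.MP_a63caf_co

/-- Two flags (maximal chains) are adjacent if they differ in exactly one face. -/
def Adj {P : Type} [PartialOrder P] (A B : Flag P) : Prop :=
  ((A : Set P) \ (B : Set P)).ncard = 1 ∧ ((B : Set P) \ (A : Set P)).ncard = 1

/-- Abstract `n`-polytope.  The rank of a face `F` is `Order.height F - 1`. -/
structure IsPolytope (n : ℕ) (P : Type) [PartialOrder P] [BoundedOrder P] : Prop where
  flag_card : ∀ A : Flag P, (A : Set P).ncard = n + 2
  flag_conn : ∀ A B : Flag P, Relation.ReflTransGen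
    (fun C D : Flag P => Adj C D ∧ (A : Set P) ∩ (B : Set P) ⊆ (D : Set P)) A B
  diamond : ∀ F G : P, F < G → Order.height G = Order.height F + 2 →
    {H : P | F < H ∧ H < G}.ncard = 2

/-- Geometric realisation of the order complex of a finite poset `Q`: the convex combinations
of elements of `Q` whose support is a chain. -/
def realization (Q : Type) [PartialOrder Q] : Set (Q → ℝ) :=
  {x | (∀ a, 0 ≤ x a) ∧ ∑ᶠ a, x a = 1 ∧ IsChain (· ≤ ·) (Function.support x)}

/-- The section `G/F` is spherical: the order complex of its proper faces is a 2-sphere. -/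
def Spherical {P : Type} [PartialOrder P] (F G : P) : Prop :=
  Nonempty (realization (Set.Ioo F G) ≃ₜ Metric.sphere (0 : EuclideanSpace ℝ (Fin 3)) 1)

/-- The section `G/F` is toroidal: the order complex of its proper faces is a torus. -/
def Toroidal {P : Type} [PartialOrder P] (F G : P) : Prop :=
  Nonempty (realization (Set.Ioo F G) ≃ₜ Circle × Circle)

end Pool.Agent.Lib.MP_a63caf_co
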