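import Pool.Agent.Lib.MP_a63caf_co.Sections

set_option autoImplicit false
set_option linter.unusedSectionVars false

/-! The cover attached to a finite group and its automorphism group. -/

namespace Pool.Agent.Lib.MP_a63caf_co

variable (Γ : Type) [Group Γ] {n : ℕ} (s : ZMod n → Γ)

open Classical in
noncomputable def volt : Volt (Γ × ZMod n) where
  α := Equiv.prodCongr (Equiv.refl Γ) (Equiv.addRight 1)
  β :=
    { toFun := fun p => (p.1 * s p.2, p.2)
      invFun := fun p => (p.1 * (s p.2)⁻¹, p.2)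
      left_inv := fun p => by simp
      right_inv := fun p => by simp }
  mark := fun p => decide (p.2 = 0)

variable {Γ}

lemma volt_g (γ : Γ) (k : ℕ) (p : Γ × ZMod n) :
    (volt Γ s).g k (γ * p.1, p.2) = (γ * ((volt Γ s).g k p).1, ((volt Γ s).g k p).2) := by
  unfold Volt.g
  split_ifs
  · rfl
  · exact Prod.ext (mul_assoc _ _ _) rfl
  · rfl

lemma volt_trans [NeZero n] (hs : Function.Surjective s) (x y : Γ × ZMod n) :
    Relation.ReflTransGen (fun a b => b = (volt Γ s).α a ∨ b = (volt Γ s).β a) x y := by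
  have h1 : ∀ (g : Γ) (i : ZMod n) (k : ℕ),
      Relation.ReflTransGen (fun a b => b = (volt Γ s).α a ∨ b = (volt Γ s).β a) (g, i)
        (g, i + k) := by
    intro g i k
    induction k with
    | zero => simpa using Relation.ReflTransGen.refl
    | succ k ih =>
      refine ih.tail (Or.inl ?_)
      refine Prod.ext rfl ?_
      change i + ((k + 1 : ℕ) : ZMod n) = i + k + 1
      push_cast
      ring
  have h2 : ∀ (g : Γ) (i j : ZMod n),
      Relation.ReflTransGen (fun a b => b = (volt Γ s).α a ∨ b = (volt Γ s).β a) (g, i) (g, j) := by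
    intro g i j
    have := h1 g i (j - i).val
    rwa [ZMod.natCast_zmod_val, add_sub_cancel] at this
  obtain ⟨g, i⟩ := x
  obtain ⟨h, j⟩ := y
  obtain ⟨k, hk⟩ := hs (g⁻¹ * h)
  refine ((h2 g i k).tail (Or.inr ?_)).trans (h2 h k j)
  refine Prod.ext ?_ rfl
  change h = g * s k
  rw [hk]
  simp

def act (γ : Γ) : Cov (volt Γ s) → Cov (volt Γ s)
  | Cov.bot => Cov.bot
  | Cov.top => Cov.top
  | Cov.mid σ x h => Cov.mid σ (γ * x.1, x.2) h

lemma act_mul (γ δ : Γ) (p : Cov (volt Γ s)) : act s (γ * δ) p = act s γ (act s δ p) := by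
  cases p <;> simp [act, mul_assoc]

lemma act_one (p : Cov (volt Γ s)) : act s 1 p = p := by
  cases p <;> simp [act]

lemma act_mono (γ : Γ) : Monotone (act s γ) := by
  intro p q h
  cases p with
  | bot => exact bot_le (a := act s γ q)
  | top =>
    obtain rfl : q = Cov.top := top_le_iff.mp h
    exact le_rfl
  | mid σ x hx =>
    cases q with
    | bot => exact absurd (eq_zero_of_le _ h.1) hx.1
    | top => exact le_top (a := act s γ (Cov.mid σ x hx))
    | mid τ y hy =>
      obtain ⟨h1, h2⟩ := Cov.mid_le_mid.mp h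
      refine Cov.mid_le_mid.mpr ⟨h1, ?_⟩
      rw [volt_g, ← h2]

def actIso (γ : Γ) : Cov (volt Γ s) ≃o Cov (volt Γ s) where
  toFun := act s γ
  invFun := act s γ⁻¹
  left_inv p := by rw [← act_mul, inv_mul_cancel, act_one]
  right_inv p := by rw [← act_mul, mul_inv_cancel, act_one]
  map_rel_iff' {p q} := by
    refine ⟨fun h => ?_, fun h => act_mono s γ h⟩
    have := act_mono s γ⁻¹ h
    simp only [Equiv.coe_fn_mk] at this
    rwa [← act_mul, ← act_mul, inv_mul_cancel, act_one, act_one] at this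

def actHom : Γ →* (Cov (volt Γ s) ≃o Cov (volt Γ s)) where
  toFun := actIso s
  map_one' := RelIso.ext fun p => act_one s p
  map_mul' γ δ := RelIso.ext fun p => act_mul s γ δ p

theorem main (Γ : Type) [Group Γ] [Finite Γ] :
    ∃ (P : Type) (_ : Finite P) (_ : PartialOrder P) (_ : BoundedOrder P),
      IsPolytope 4 P ∧
      (∀ F : P, Order.height F = 4 → Spherical ⊥ F ∨ Toroidal ⊥ F) ∧
      (∀ v : P, Order.height v = 1 → Spherical v ⊤) ∧
      (∃ F : P, Order.height F = 4 ∧ Toroidal ⊥ F) ∧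
      Nonempty (Γ ≃* (P ≃o P)) := by
  have : NeZero (Nat.card Γ) := ⟨Nat.card_pos.ne'⟩
  obtain ⟨e⟩ : Nonempty (ZMod (Nat.card Γ) ≃ Γ) := by
    rw [← Finite.card_eq, Nat.card_zmod]
  have hP : IsPolytope 4 (Cov (volt Γ e)) := Cov.isPolytope (volt_trans e e.surjective)
  have hm : ∀ γ : Γ, (volt Γ e).mark (γ, 0) = true := fun γ => by simp [volt]
  have h45 := fun γ => Cov.valid_of (V := volt Γ e) (γ, 0) (hm γ) 45 (by decide +kernel)
  refine ⟨Cov (volt Γ e), inferInstance, inferInstance, inferInstance, hP, ?_, ?_, ?_, ?_⟩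
  · intro F hF
    rw [Cov.graded.height_eq] at hF
    exact Cov.facet F (by exact_mod_cast hF)
  · intro v hv
    rw [Cov.graded.height_eq] at hv
    exact Cov.vertex v (by exact_mod_cast hv)
  · obtain ⟨h1, h2⟩ := Cov.facet45 (V := volt Γ e) (1, 0) (hm 1) (h45 1)
    exact ⟨_, by rw [Cov.graded.height_eq, h1]; rfl, h2⟩
  · refine ⟨MulEquiv.ofBijective (actHom e) ⟨?_, ?_⟩⟩
    · rw [injective_iff_map_eq_one]
      intro γ h
      have h1 : act e γ (Cov.mid 45 (1, 0) (h45 1)) = Cov.mid 45 (1, 0) (h45 1) :=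
        congrArg (fun f : Cov (volt Γ e) ≃o Cov (volt Γ e) => f (Cov.mid 45 (1, 0) (h45 1))) h
      simpa [act] using h1
    · intro f
      obtain ⟨⟨γ, i⟩, hy, h1, h2⟩ := Cov.map_c1 f (1, 0) (hm 1) (h45 1)
      obtain rfl : i = 0 := by simpa [volt] using h1
      refine ⟨γ, ?_⟩
      have h3 := Cov.eq_one_of_fix hP ((actHom e γ⁻¹) * f) (1, 0) (hm 1) (h45 1) (by
        change act e γ⁻¹ (f _) = _
        rw [h2]
        simp [act])
      have h4 : actHom e γ⁻¹ * f = 1 := RelIso.ext h3
      rw [map_inv, inv_mul_eq_one] at h4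
      exact h4

end Pool.Agent.Lib.MP_a63caf_co
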