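import Pool.Agent.Lib.MP_a63caf_co.Graded

set_option autoImplicit false
set_option linter.unusedSectionVars false

/-! The barycentric subdivision of a finite abstract 4-polytope. -/

namespace Pool.Agent.Lib.MP_a63caf_co

variable {P : Type} [PartialOrder P] [BoundedOrder P]

/-- A chain of proper faces. -/
def IsCh (s : Set P) : Prop := IsChain (· ≤ ·) s ∧ ∀ x ∈ s, ⊥ < x ∧ x < ⊤

lemma IsCh.mono {s t : Set P} (h : IsCh t) (hst : s ⊆ t) : IsCh s :=
  ⟨h.1.mono hst, fun x hx => h.2 x (hst hx)⟩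

lemma not_isCh_univ : ¬ IsCh (Set.univ : Set P) := fun h => lt_irrefl _ (h.2 ⊥ trivial).1

lemma isCh_singleton {x : P} (h : ⊥ < x ∧ x < ⊤) : IsCh ({x} : Set P) :=
  ⟨IsChain.singleton, by rintro y rfl; exact h⟩

/-- The chains of proper faces, ordered by inclusion, with a greatest element adjoined. -/
def Sd (P : Type) [PartialOrder P] [BoundedOrder P] : Type :=
  {s : Set P // IsCh s ∨ s = Set.univ}

namespace Sd

instance : PartialOrder (Sd P) := Subtype.partialOrder _

instance : BoundedOrder (Sd P) where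
  bot := ⟨∅, Or.inl ⟨IsChain.empty, fun _ h => h.elim⟩⟩
  top := ⟨Set.univ, Or.inr rfl⟩
  bot_le a := Set.empty_subset a.1
  le_top a := Set.subset_univ a.1

instance [Finite P] : Finite (Sd P) := Subtype.finite

def mk (s : Set P) (h : IsCh s) : Sd P := ⟨s, Or.inl h⟩

lemma le_iff {a b : Sd P} : a ≤ b ↔ a.1 ⊆ b.1 := Iff.rfl

lemma lt_iff {a b : Sd P} : a < b ↔ a.1 ⊂ b.1 := Iff.rfl

lemma ext {a b : Sd P} (h : a.1 = b.1) : a = b := Subtype.ext h

lemma lt_top_iff {a : Sd P} : a < ⊤ ↔ IsCh a.1 := by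
  rw [lt_top_iff_ne_top]
  constructor
  · intro h
    exact a.2.resolve_right fun e => h (ext e)
  · rintro h rfl
    exact not_isCh_univ h

lemma mk_lt_top (s : Set P) (h : IsCh s) : mk s h < ⊤ := lt_top_iff.mpr h

open Classical in
@[reducible] noncomputable def lattice : Lattice (Sd P) :=
  { (inferInstance : PartialOrder (Sd P)) with
    sup := fun a b => if h : IsCh (a.1 ∪ b.1) then mk _ h else ⊤
    inf := fun a b => ⟨a.1 ∩ b.1, by
      rcases a.2 with h | h
      · exact Or.inl (h.mono Set.inter_subset_left)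
      · rw [h, Set.univ_inter]; exact b.2⟩
    le_sup_left := fun a b => by
      split_ifs
      · exact Set.subset_union_left
      · exact le_top
    le_sup_right := fun a b => by
      split_ifs
      · exact Set.subset_union_right
      · exact le_top
    sup_le := fun a b c h1 h2 => by
      have h3 : a.1 ∪ b.1 ⊆ c.1 := Set.union_subset h1 h2
      split_ifs with h
      · exact h3
      · rcases c.2 with h4 | h4
        · exact absurd (h4.mono h3) h
        · exact h4.ge
    inf_le_left := fun _ _ => Set.inter_subset_left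
    inf_le_right := fun _ _ => Set.inter_subset_right
    le_inf := fun _ _ _ h1 h2 => Set.subset_inter h1 h2 }

open Classical in
noncomputable def rank (a : Sd P) : ℕ := if a = ⊤ then 5 else a.1.ncard

lemma rank_top : rank (⊤ : Sd P) = 5 := if_pos rfl

lemma rank_of_lt {a : Sd P} (h : a < ⊤) : rank a = a.1.ncard := if_neg h.ne

/-- The proper faces in a flag. -/
def fl (A : Flag P) : Sd P :=
  mk {x | x ∈ A ∧ ⊥ < x ∧ x < ⊤} ⟨A.chain_le.mono fun _ h => h.1, fun _ h => h.2⟩

lemma fl_lt_top (A : Flag P) : fl A < ⊤ := mk_lt_top _ _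

lemma mem_fl {A : Flag P} {x : P} : x ∈ (fl A).1 ↔ x ∈ A ∧ ⊥ < x ∧ x < ⊤ := Iff.rfl

lemma exists_fl {a : Sd P} (h : a < ⊤) : ∃ A : Flag P, a ≤ fl A := by
  have h1 := lt_top_iff.mp h
  obtain ⟨A, hA⟩ := h1.1.exists_subset_flag
  exact ⟨A, fun x hx => ⟨hA hx, h1.2 x hx⟩⟩

variable [Finite P] {ρ : P → ℕ} (g : Graded ρ 5)
include g

lemma ncard_fl (A : Flag P) : (fl A).1.ncard = 4 := by
  have h := g.flag_card A
  have hne : (⊥ : P) ≠ ⊤ := fun e => by
    have h1 := g.bot
    rw [e, g.top] at h1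
    omega
  have e : (A : Set P) = insert ⊥ (insert ⊤ (fl A).1) := by
    ext x
    constructor
    · intro hx
      by_cases h1 : x = ⊥
      · exact Or.inl h1
      by_cases h2 : x = ⊤
      · exact Or.inr (Or.inl h2)
      exact Or.inr (Or.inr ⟨hx, bot_lt_iff_ne_bot.mpr h1, lt_top_iff_ne_top.mpr h2⟩)
    · rintro (rfl | rfl | h)
      · exact A.bot_mem
      · exact A.top_mem
      · exact h.1
  rw [e, Set.ncard_insert_of_notMem, Set.ncard_insert_of_notMem] at h
  · omega
  · exact fun h => lt_irrefl _ h.2.2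
  · rintro (h | h)
    · exact hne h
    · exact lt_irrefl _ h.2.1

lemma ncard_le {a : Sd P} (h : a < ⊤) : a.1.ncard ≤ 4 := by
  obtain ⟨A, hA⟩ := exists_fl h
  rw [← ncard_fl g A]
  exact Set.ncard_le_ncard hA

lemma graded : Graded (rank : Sd P → ℕ) 5 where
  mono F G h := by
    have hF : F < ⊤ := h.trans_le le_top
    rw [rank_of_lt hF]
    rcases eq_top_or_lt_top G with rfl | hG
    · rw [rank_top]
      have := ncard_le g hF
      omega
    · rw [rank_of_lt hG]
      exact Set.ncard_lt_ncard h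
  gap F G h h2 := by
    have hF : F < ⊤ := h.trans_le le_top
    rw [rank_of_lt hF] at h2
    rcases eq_top_or_lt_top G with rfl | hG
    · rw [rank_top] at h2
      obtain ⟨A, hA⟩ := exists_fl hF
      refine ⟨fl A, lt_of_le_of_ne hA fun e => ?_, fl_lt_top A⟩
      have := ncard_fl g A
      rw [← e] at this
      omega
    · rw [rank_of_lt hG] at h2
      obtain ⟨x, hx, hx'⟩ := Set.exists_of_ssubset h
      have h3 : insert x F.1 ⊆ G.1 := Set.insert_subset hx h.le
      refine ⟨mk _ ((lt_top_iff.mp hG).mono h3), Set.ssubset_insert hx', h3, fun h4 => ?_⟩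
      have h5 : G.1.ncard ≤ (insert x F.1).ncard := Set.ncard_le_ncard h4
      rw [Set.ncard_insert_of_notMem hx'] at h5
      omega
  bot := by
    have h : IsCh (∅ : Set P) := ⟨IsChain.empty, fun _ h => h.elim⟩
    have h2 : (⊥ : Sd P) < ⊤ := (lt_top_iff (a := ⊥)).mpr h
    rw [rank_of_lt h2]
    exact Set.ncard_empty _
  top := rank_top

lemma diamond (hP : IsPolytope 4 P) (F G : Sd P) (h : F < G) (h2 : rank G = rank F + 2) :
    {H : Sd P | F < H ∧ H < G}.ncard = 2 := by
  have hF : F < ⊤ := h.trans_le le_top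
  rw [rank_of_lt hF] at h2
  have cover : ∀ H : Sd P, F < H → H < G → ∃ y, y ∈ H.1 ∧ y ∉ F.1 ∧ H.1 = insert y F.1 := by
    intro H h3 h4
    have h5 := (graded g).mono _ _ h4
    rw [rank_of_lt (h4.trans_le le_top)] at h5
    obtain ⟨y, hy, hy'⟩ := Set.exists_of_ssubset h3
    refine ⟨y, hy, hy', (Set.eq_of_subset_of_ncard_le (Set.insert_subset hy h3.le) ?_).symm⟩
    rw [Set.ncard_insert_of_notMem hy']
    omega
  have fin : ∀ T : Set P, T.ncard = 2 → (∀ y ∈ T, y ∉ F.1 ∧ IsCh (insert y F.1) ∧ y ∈ G.1) →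
      (∀ y, y ∉ F.1 → IsCh (insert y F.1) → y ∈ G.1 → y ∈ T) →
      {H : Sd P | F < H ∧ H < G}.ncard = 2 := by
    intro T hT a1 a2
    rw [← hT]
    symm
    apply Set.ncard_congr (fun y hy => mk _ (a1 y hy).2.1)
    · intro y hy
      obtain ⟨b1, b2, b3⟩ := a1 y hy
      refine ⟨Set.ssubset_insert b1, lt_of_le_of_ne (Set.insert_subset b3 h.le) fun e => ?_⟩
      rw [← e, rank_of_lt (mk_lt_top _ _)] at h2
      change (insert y F.1).ncard = _ at h2
      rw [Set.ncard_insert_of_notMem b1] at h2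
      omega
    · intro y z hy hz e
      have e1 : insert y F.1 = insert z F.1 := congrArg Subtype.val e
      have : y ∈ insert z F.1 := e1 ▸ Set.mem_insert _ _
      exact this.resolve_right (a1 y hy).1
    · rintro H ⟨h3, h4⟩
      obtain ⟨y, b1, b2, b3⟩ := cover H h3 h4
      exact ⟨y, a2 y b2 (b3 ▸ lt_top_iff.mp (h4.trans_le le_top)) (h4.le b1), ext b3.symm⟩
  rcases eq_top_or_lt_top G with rfl | hG
  · rw [rank_top] at h2
    obtain ⟨A, hA⟩ := exists_fl hF
    have hc := ncard_fl g A
    obtain ⟨x, hx, hx'⟩ := Set.exists_mem_notMem_of_ncard_lt_ncard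
      (s := F.1) (t := (fl A).1) (by omega)
    have e : insert x F.1 = (fl A).1 :=
      Set.eq_of_subset_of_ncard_le (Set.insert_subset hx hA)
        (by rw [Set.ncard_insert_of_notMem hx']; omega)
    have r1 := g.mono _ _ hx.2.1
    have r2 := g.mono _ _ hx.2.2
    rw [g.bot] at r1
    rw [g.top] at r2
    obtain ⟨a, ha, ra⟩ := g.flag_exists A (ρ x - 1) (by omega)
    obtain ⟨b, hb, rb⟩ := g.flag_exists A (ρ x + 1) (by omega)
    have hab : a < b := g.flag_lt A ha hb (by omega)
    apply fin {H | a < H ∧ H < b}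
    · apply hP.diamond a b hab
      rw [g.height_eq, g.height_eq, ra, rb]
      norm_cast
      omega
    · rintro y ⟨y1, y2⟩
      have hz : ∀ z ∈ F.1, z < y ∨ y < z := by
        intro z hz
        have hzA : z ∈ A := (hA hz).1
        have hne : ρ z ≠ ρ x := fun e => hx' (g.flag_eq A hzA hx.1 e ▸ hz)
        by_cases h5 : ρ z < ρ x
        · exact Or.inl ((g.flag_le A hzA ha (by omega)).trans_lt y1)
        · exact Or.inr (y2.trans_le (g.flag_le A hb hzA (by omega)))
      refine ⟨fun hy => ?_, ⟨?_, ?_⟩, trivial⟩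
      · rcases hz y hy with h5 | h5 <;> exact lt_irrefl _ h5
      · apply (lt_top_iff.mp hF).1.insert
        intro z hz' _
        rcases hz z hz' with h5 | h5
        · exact Or.inr h5.le
        · exact Or.inl h5.le
      · rintro z (rfl | hz')
        · exact ⟨bot_le.trans_lt y1, y2.trans_le le_top⟩
        · exact (lt_top_iff.mp hF).2 z hz'
    · intro y b1 b2 _
      obtain ⟨B, hB⟩ := b2.1.exists_subset_flag
      have hyB : y ∈ B := hB (Set.mem_insert _ _)
      have hAB : ∀ z ∈ A, ρ z ≠ ρ x → z ∈ B := by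
        intro z hz hne
        rcases eq_bot_or_bot_lt z with rfl | z1
        · exact B.bot_mem
        rcases eq_top_or_lt_top z with rfl | z2
        · exact B.top_mem
        have : z ∈ insert x F.1 := e ▸ ⟨hz, z1, z2⟩
        rcases this with rfl | h5
        · exact absurd rfl hne
        · exact hB (Set.mem_insert_of_mem _ h5)
      have ry : ρ y = ρ x := by
        by_contra hne
        obtain ⟨z, hz, rz⟩ := g.flag_exists A (ρ y) (g.le_N y)
        obtain rfl : z = y := g.flag_eq B (hAB z hz (rz ▸ hne)) hyB rz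
        have : z ∈ insert x F.1 := e ▸ ⟨hz, b2.2 z (Set.mem_insert _ _)⟩
        rcases this with rfl | h5
        · exact hne rfl
        · exact b1 h5
      exact ⟨g.flag_lt B (hAB a ha (by omega)) hyB (by omega),
        g.flag_lt B hyB (hAB b hb (by omega)) (by omega)⟩
  · rw [rank_of_lt hG] at h2
    apply fin (G.1 \ F.1)
    · have := Set.ncard_sdiff_add_ncard_of_subset (s := F.1) (t := G.1) h.le
      omega
    · rintro y ⟨y1, y2⟩
      exact ⟨y2, (lt_top_iff.mp hG).mono (Set.insert_subset y1 h.le), y1⟩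
    · intro y b1 _ b3
      exact ⟨b3, b1⟩

lemma conn (hP : IsPolytope 4 P) (F G : Sd P) (h : F < G) (h3 : rank F + 3 ≤ rank G)
    (x y : Sd P) (x1 : F < x) (x2 : x < G) (y1 : F < y) (y2 : y < G) :
    Relation.ReflTransGen (fun a b => (a ≤ b ∨ b ≤ a) ∧ F < b ∧ b < G) x y := by
  have hF : F < ⊤ := h.trans_le le_top
  rw [rank_of_lt hF] at h3
  rcases eq_top_or_lt_top G with rfl | hG
  · rw [rank_top] at h3
    obtain ⟨A, hA⟩ := exists_fl x2
    obtain ⟨B, hB⟩ := exists_fl y2
    have hlt : ∀ C : Flag P, (A : Set P) ∩ B ⊆ C → F ≤ fl C := fun C hC z hz =>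
      ⟨hC ⟨(hA (x1.le hz)).1, (hB (y1.le hz)).1⟩, (hA (x1.le hz)).2⟩
    have key : ∀ C : Flag P, Relation.ReflTransGen
        (fun C D : Flag P => Adj C D ∧ (A : Set P) ∩ (B : Set P) ⊆ (D : Set P)) A C →
        F ≤ fl C ∧
          Relation.ReflTransGen (fun a b => (a ≤ b ∨ b ≤ a) ∧ F < b ∧ b < ⊤) x (fl C) := by
      intro C hC
      induction hC with
      | refl =>
        exact ⟨x1.le.trans hA,
          Relation.ReflTransGen.single ⟨Or.inl hA, x1.trans_le hA, fl_lt_top A⟩⟩
      | @tail C D _ hCD ih =>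
        obtain ⟨i1, i2⟩ := ih
        have hD := hlt D hCD.2
        have hm : IsCh ((fl C).1 ∩ (fl D).1) :=
          (lt_top_iff.mp (fl_lt_top C)).mono Set.inter_subset_left
        have hc : 3 ≤ ((fl C).1 ∩ (fl D).1).ncard := by
          have e1 := Set.ncard_inter_add_ncard_sdiff_eq_ncard (fl C).1 (fl D).1
          have e2 : ((fl C).1 \ (fl D).1).ncard ≤ ((C : Set P) \ D).ncard :=
            Set.ncard_le_ncard fun z hz => ⟨hz.1.1, fun h5 => hz.2 ⟨h5, hz.1.2⟩⟩
          have e3 := hCD.1.1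
          have e4 := ncard_fl g C
          omega
        have hFm : F < mk _ hm := by
          refine lt_of_le_of_ne (Set.subset_inter i1 hD) fun e => ?_
          have : F.1 = (fl C).1 ∩ (fl D).1 := congrArg Subtype.val e
          rw [this] at h3
          omega
        exact ⟨hD, (i2.tail ⟨Or.inr Set.inter_subset_left, hFm, mk_lt_top _ hm⟩).tail
          ⟨Or.inl Set.inter_subset_right, hFm.trans_le Set.inter_subset_right, fl_lt_top D⟩⟩
    exact (key B (hP.flag_conn A B)).2.tail ⟨Or.inr hB, y1, y2⟩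
  · rw [rank_of_lt hG] at h3
    have hc := lt_top_iff.mp hG
    obtain ⟨p, hp, hp'⟩ := Set.exists_of_ssubset x1
    obtain ⟨q, hq, hq'⟩ := Set.exists_of_ssubset y1
    have s1 : insert p F.1 ⊆ x.1 := Set.insert_subset hp x1.le
    have s2 : insert q F.1 ⊆ y.1 := Set.insert_subset hq y1.le
    have s3 : insert p (insert q F.1) ⊆ G.1 := Set.insert_subset (x2.le hp) (s2.trans y2.le)
    have s4 : insert p F.1 ⊆ insert p (insert q F.1) :=
      Set.insert_subset_insert (Set.subset_insert _ _)
    have l1 : F < mk _ (hc.mono (s1.trans x2.le)) := Set.ssubset_insert hp'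
    have l2 : F < mk _ (hc.mono (s2.trans y2.le)) := Set.ssubset_insert hq'
    have l3 : mk _ (hc.mono s3) < G := by
      refine lt_of_le_of_ne s3 fun e => ?_
      have e1 : insert p (insert q F.1) = G.1 := congrArg Subtype.val e
      have e2 := Set.ncard_insert_le p (insert q F.1)
      have e3 := Set.ncard_insert_le q F.1
      rw [e1] at e2
      omega
    refine (((Relation.ReflTransGen.single ⟨Or.inr s1, l1, lt_of_le_of_lt s1 x2⟩).tail
      ⟨Or.inl s4, l1.trans_le s4, l3⟩).tail
      ⟨Or.inr (Set.subset_insert _ _), l2, lt_of_le_of_lt s2 y2⟩).tail ⟨Or.inl s2, y1, y2⟩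

theorem isPolytope (hP : IsPolytope 4 P) : IsPolytope 4 (Sd P) :=
  (graded g).isPolytope 4 rfl (conn g hP) (diamond g hP)

end Sd

end Pool.Agent.Lib.MP_a63caf_co
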