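import Pool.Agent.Lib.MP_a63caf_co.SdSections

set_option autoImplicit false
set_option linter.unusedSectionVars false

/-! Automorphisms of the barycentric subdivision. -/

namespace Pool.Agent.Lib.MP_a63caf_co

variable {P : Type} [PartialOrder P] [BoundedOrder P]

/-- The number of faces comparable with `x`. -/
noncomputable def deg (x : P) : ℕ := {y | y ≤ x ∨ x ≤ y}.ncard

lemma deg_eq [Finite P] (x : P) : deg x + 1 = (Set.Icc ⊥ x).ncard + (Set.Icc x ⊤).ncard := by
  have e1 : {y | y ≤ x ∨ x ≤ y} = Set.Icc ⊥ x ∪ Set.Icc x ⊤ := by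
    ext y; simp
  have e2 : Set.Icc ⊥ x ∩ Set.Icc x ⊤ = {x} := by
    ext y; simp [le_antisymm_iff]
  rw [deg, e1, ← Set.ncard_union_add_ncard_inter, e2, Set.ncard_singleton]

namespace Sd

lemma isCh_image (f : P ≃o P) {s : Set P} (h : IsCh s) : IsCh (f '' s) := by
  constructor
  · rintro _ ⟨a, ha, rfl⟩ _ ⟨b, hb, rfl⟩ _
    exact (h.1.total ha hb).imp (fun h => f.monotone h) (fun h => f.monotone h)
  · rintro _ ⟨a, ha, rfl⟩
    constructor
    · rw [← f.map_bot]; exact f.strictMono (h.2 a ha).1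
    · rw [← f.map_top]; exact f.strictMono (h.2 a ha).2

def mapF (f : P ≃o P) (a : Sd P) : Sd P :=
  ⟨f '' a.1, a.2.imp (isCh_image f) fun h => by rw [h, Set.image_univ, f.range_eq]⟩

lemma mapF_mul (f h : P ≃o P) (a : Sd P) : mapF (f * h) a = mapF f (mapF h a) :=
  ext (Set.image_image f h a.1).symm

lemma mapF_one (a : Sd P) : mapF 1 a = a := ext (Set.image_id a.1)

def mapIso (f : P ≃o P) : Sd P ≃o Sd P where
  toFun := mapF f
  invFun := mapF f⁻¹
  left_inv a := by rw [← mapF_mul, inv_mul_cancel, mapF_one]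
  right_inv a := by rw [← mapF_mul, mul_inv_cancel, mapF_one]
  map_rel_iff' {_ _} := Set.image_subset_image_iff f.injective

def mapHom : (P ≃o P) →* (Sd P ≃o Sd P) where
  toFun := mapIso
  map_one' := RelIso.ext mapF_one
  map_mul' f h := RelIso.ext (mapF_mul f h)

lemma mapHom_injective : Function.Injective (mapHom : (P ≃o P) →* (Sd P ≃o Sd P)) := by
  rw [injective_iff_map_eq_one]
  intro f hf
  apply RelIso.ext
  intro x
  change f x = x
  rcases eq_bot_or_bot_lt x with rfl | h1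
  · exact f.map_bot
  rcases eq_top_or_lt_top x with rfl | h2
  · exact f.map_top
  have h3 : mapF f (sing x ⟨h1, h2⟩) = sing x ⟨h1, h2⟩ :=
    congrArg (fun φ : Sd P ≃o Sd P => φ (sing x ⟨h1, h2⟩)) hf
  have h4 : f '' {x} = {x} := congrArg Subtype.val h3
  rw [Set.image_singleton] at h4
  exact Set.singleton_injective h4

lemma sing_inj {x y : P} {hx hy} (h : sing x hx = sing y hy) : x = y :=
  Set.singleton_injective (congrArg Subtype.val h)

lemma cmp_iff {x y : P} (hx : ⊥ < x ∧ x < ⊤) (hy : ⊥ < y ∧ y < ⊤) :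
    (x ≤ y ∨ y ≤ x) ↔ ∃ c : Sd P, c < ⊤ ∧ sing x hx ≤ c ∧ sing y hy ≤ c := by
  constructor
  · intro h
    have hc : IsCh ({x, y} : Set P) := by
      constructor
      · apply IsChain.singleton.insert
        rintro _ rfl _
        exact h
      · rintro _ (rfl | rfl)
        · exact hx
        · exact hy
    exact ⟨mk _ hc, mk_lt_top _ _, sing_le.mpr (Or.inl rfl), sing_le.mpr (Or.inr rfl)⟩
  · rintro ⟨c, h1, h2, h3⟩
    exact (lt_top_iff.mp h1).1.total (sing_le.mp h2) (sing_le.mp h3)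

variable [Finite P] {ρ : P → ℕ} (g : Graded ρ 5)
include g

lemma exists_fun (φ : Sd P ≃o Sd P) : ∃ ψ : P → P,
    (∀ x hx, ∃ hy, φ (sing x hx) = sing (ψ x) hy) ∧ ψ ⊥ = ⊥ ∧ ψ ⊤ = ⊤ := by
  classical
  have h : ∀ x hx, ∃ y hy, φ (sing x hx) = sing y hy := fun x hx =>
    exists_sing (by rw [(graded g).map_rank, rank_sing])
  choose c hc1 hc2 using h
  refine ⟨fun x => if hx : ⊥ < x ∧ x < ⊤ then c x hx else x, fun x hx => ?_, ?_, ?_⟩
  · simp only [dif_pos hx]
    exact ⟨hc1 x hx, hc2 x hx⟩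
  · exact dif_neg fun h => lt_irrefl _ h.1
  · exact dif_neg fun h => lt_irrefl _ h.2

lemma exists_perm (φ : Sd P ≃o Sd P) : ∃ ψ : P ≃ P,
    (∀ x hx, ∃ hy, φ (sing x hx) = sing (ψ x) hy) ∧ ψ ⊥ = ⊥ ∧ ψ ⊤ = ⊤ := by
  obtain ⟨ψ, h1, h2, h3⟩ := exists_fun g φ
  refine ⟨Equiv.ofBijective ψ (Finite.injective_iff_bijective.mp ?_), h1, h2, h3⟩
  obtain ⟨χ, k1, k2, k3⟩ := exists_fun g φ.symm
  apply Function.LeftInverse.injective (g := χ)
  intro x
  rcases eq_bot_or_bot_lt x with rfl | x1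
  · rw [h2, k2]
  rcases eq_top_or_lt_top x with rfl | x2
  · rw [h3, k3]
  obtain ⟨hy, e1⟩ := h1 x ⟨x1, x2⟩
  obtain ⟨hz, e2⟩ := k1 _ hy
  rw [← e1, φ.symm_apply_apply] at e2
  exact (sing_inj e2).symm

theorem mapHom_surjective (hP : IsPolytope 4 P) (x1 x2 x4 : P) (l1 : x1 ≤ x2) (l2 : x2 ≤ x4)
    (r1 : ρ x1 = 1) (r2 : ρ x2 = 2) (r4 : ρ x4 = 4)
    (hd : ∀ y : P, ⊥ < y ∧ y < ⊤ → (deg y = deg x1 → ρ y = 1) ∧ (deg y = deg x2 → ρ y = 2) ∧
      (deg y = deg x4 → ρ y = 4)) :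
    Function.Surjective (mapHom : (P ≃o P) →* (Sd P ≃o Sd P)) := by
  intro φ
  obtain ⟨ψ, h1, h2, h3⟩ := exists_perm g φ
  have hb := g.bot
  have ht := g.top
  have prop : ∀ x : P, 0 < ρ x → ρ x < 5 → ⊥ < x ∧ x < ⊤ := fun x a b =>
    ⟨bot_lt_iff_ne_bot.mpr fun e => by rw [e] at a; omega,
      lt_top_iff_ne_top.mpr fun e => by rw [e] at b; omega⟩
  have cmp : ∀ x y, (ψ x ≤ ψ y ∨ ψ y ≤ ψ x) ↔ (x ≤ y ∨ y ≤ x) := by
    intro x y
    rcases eq_bot_or_bot_lt x with rfl | a1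
    · simp [h2]
    rcases eq_top_or_lt_top x with rfl | a2
    · simp [h3]
    rcases eq_bot_or_bot_lt y with rfl | b1
    · simp [h2]
    rcases eq_top_or_lt_top y with rfl | b2
    · simp [h3]
    obtain ⟨c1, e1⟩ := h1 x ⟨a1, a2⟩
    obtain ⟨c2, e2⟩ := h1 y ⟨b1, b2⟩
    rw [cmp_iff c1 c2, cmp_iff ⟨a1, a2⟩ ⟨b1, b2⟩, ← e1, ← e2]
    constructor
    · rintro ⟨c, d1, d2, d3⟩
      obtain ⟨c, rfl⟩ := φ.surjective c
      rw [← φ.map_top] at d1
      exact ⟨c, φ.lt_iff_lt.mp d1, φ.le_iff_le.mp d2, φ.le_iff_le.mp d3⟩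
    · rintro ⟨c, d1, d2, d3⟩
      refine ⟨φ c, ?_, φ.monotone d2, φ.monotone d3⟩
      rw [← φ.map_top]
      exact φ.strictMono d1
  have hdeg : ∀ x, deg (ψ x) = deg x := by
    intro x
    rw [deg, deg, ← Set.ncard_image_of_injective {y | y ≤ x ∨ x ≤ y} ψ.injective]
    congr 1
    ext y
    obtain ⟨y, rfl⟩ := ψ.surjective y
    rw [ψ.injective.mem_set_image]
    exact cmp y x
  have eqr : ∀ x y : P, (x ≤ y ∨ y ≤ x) → ρ x = ρ y → x = y := by
    intro x y h e
    by_contra hne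
    rcases h with h | h
    · have := g.mono _ _ (lt_of_le_of_ne h hne)
      omega
    · have := g.mono _ _ (lt_of_le_of_ne h (Ne.symm hne))
      omega
  have step : ∀ (A : Flag P) (x : P), x ∈ A → (∀ z ∈ A, z ≠ x → ρ (ψ z) = ρ z) →
      ρ (ψ x) = ρ x := by
    intro A x hx h
    obtain ⟨z, hz, rz⟩ := g.flag_exists A (ρ (ψ x)) (g.le_N _)
    by_cases e : z = x
    · rw [← rz, e]
    · exact absurd (ψ.injective (eqr _ _ ((cmp z x).mpr (A.le_or_le hz hx))
        ((h z hz e).trans rz))) e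
  have hch : IsChain (· ≤ ·) ({x1, x2, x4} : Set P) := by
    have l3 := l1.trans l2
    rintro a (rfl | rfl | rfl) b (rfl | rfl | rfl) _ <;>
      first | exact Or.inl le_rfl | exact Or.inl ‹_› | exact Or.inr ‹_›
  obtain ⟨A, hA⟩ := hch.exists_subset_flag
  have base0 : ∀ z ∈ A, ρ z ≠ 3 → ρ (ψ z) = ρ z := by
    intro z hz hne
    have hle := g.le_N z
    obtain h | h | h | h | h : ρ z = 0 ∨ ρ z = 1 ∨ ρ z = 2 ∨ ρ z = 4 ∨ ρ z = 5 := by omega
    · rw [g.flag_eq A hz A.bot_mem (h.trans hb.symm), h2]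
    · rw [g.flag_eq A hz (hA (by simp)) (h.trans r1.symm), r1]
      exact (hd _ (h1 x1 (prop x1 (by omega) (by omega))).1).1 (hdeg x1)
    · rw [g.flag_eq A hz (hA (by simp)) (h.trans r2.symm), r2]
      exact (hd _ (h1 x2 (prop x2 (by omega) (by omega))).1).2.1 (hdeg x2)
    · rw [g.flag_eq A hz (hA (by simp)) (h.trans r4.symm), r4]
      exact (hd _ (h1 x4 (prop x4 (by omega) (by omega))).1).2.2 (hdeg x4)
    · rw [g.flag_eq A hz A.top_mem (h.trans ht.symm), h3]
  have base : ∀ z ∈ A, ρ (ψ z) = ρ z := by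
    intro z hz
    by_cases h : ρ z = 3
    · exact step A z hz fun y hy hne => base0 y hy fun e =>
        hne (g.flag_eq A hy hz (e.trans h.symm))
    · exact base0 z hz h
  have all : ∀ x, ρ (ψ x) = ρ x := by
    intro x
    obtain ⟨C, hC⟩ := (IsChain.singleton (r := (· ≤ ·)) (a := x)).exists_subset_flag
    have key : ∀ D : Flag P, Relation.ReflTransGen
        (fun C' D : Flag P => Adj C' D ∧ (A : Set P) ∩ (C : Set P) ⊆ (D : Set P)) A D →
        ∀ z ∈ D, ρ (ψ z) = ρ z := by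
      intro D hD
      induction hD with
      | refl => exact base
      | @tail D E _ hDE ih =>
        obtain ⟨u, hu⟩ := Set.ncard_eq_one.mp hDE.1.2
        have hin : ∀ z ∈ E, z ≠ u → ρ (ψ z) = ρ z := by
          intro z hz hne
          apply ih
          by_contra hc
          have : z ∈ (E : Set P) \ D := ⟨hz, hc⟩
          rw [hu] at this
          exact hne this
        intro z hz
        by_cases e : z = u
        · exact step E z hz fun y hy hne => hin y hy (e ▸ hne)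
        · exact hin z hz e
    exact key C (hP.flag_conn A C) x (hC rfl)
  have hle : ∀ x y, ψ x ≤ ψ y ↔ x ≤ y := by
    intro x y
    constructor
    · intro h
      rcases (cmp x y).mp (Or.inl h) with h4 | h4
      · exact h4
      · have a1 := g.le_mono h
        have a2 := g.le_mono h4
        rw [all, all] at a1
        exact (eqr x y (Or.inr h4) (by omega)).le
    · intro h
      rcases (cmp x y).mpr (Or.inl h) with h4 | h4
      · exact h4
      · have a1 := g.le_mono h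
        have a2 := g.le_mono h4
        rw [all, all] at a2
        rw [eqr x y (Or.inl h) (by omega)]
  let f : P ≃o P := ⟨ψ, hle _ _⟩
  refine ⟨f, RelIso.ext fun a => ?_⟩
  change mapIso f a = φ a
  rcases eq_top_or_lt_top a with rfl | ha
  · rw [OrderIso.map_top, OrderIso.map_top]
  have hb' : φ a < ⊤ := by rw [← φ.map_top]; exact φ.strictMono ha
  apply ext
  ext y
  obtain ⟨x, rfl⟩ := ψ.surjective y
  change ψ x ∈ ψ '' a.1 ↔ _
  rw [ψ.injective.mem_set_image]
  constructor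
  · intro hx
    obtain ⟨hy, e⟩ := h1 x ((lt_top_iff.mp ha).2 x hx)
    rw [← sing_le (hx := hy), ← e]
    exact φ.monotone (sing_le.mpr hx)
  · intro hx
    have hy := (lt_top_iff.mp hb').2 _ hx
    have a1 := g.mono _ _ hy.1
    have a2 := g.mono _ _ hy.2
    rw [all] at a1 a2
    obtain ⟨hy', e⟩ := h1 x (prop x (by omega) (by omega))
    rw [← sing_le (hx := hy'), ← e] at hx
    exact sing_le.mp (φ.le_iff_le.mp hx)

end Sd

end Pool.Agent.Lib.MP_a63caf_co
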