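import Pool.Agent.Lib.MP_a63caf_co.SdAut
import Pool.Agent.Lib.MP_a63caf_co.Main

set_option autoImplicit false
set_option linter.unusedSectionVars false

/-! The barycentric subdivision of the cover attached to a finite group. -/

namespace Pool.Agent.Lib.MP_a63caf_co

namespace Cov

variable {Ω : Type} {V : Volt Ω} [Finite Ω] [Nonempty Ω]

lemma deg_mid (σ : B) (x : Ω) (hx) :
    deg (mid σ x hx : Cov V) + 1 = cnt (V.mark x) 0 σ + cnt (V.mark x) σ 48 := by
  rw [deg_eq, (chart_down σ x hx).ncard_Icc, (chart_up σ x hx).ncard_Icc]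
  rfl

lemma link (p : Cov V) (hr : rank p = 2 ∨ rank p = 3) :
    Nonempty (realization (Lk p) ≃ₜ Metric.sphere (0 : EuclideanSpace ℝ (Fin 3)) 1) := by
  cases p with
  | bot => exact absurd hr (by change ¬ (rk 0 = 2 ∨ rk 0 = 3); decide +kernel)
  | top => exact absurd hr (by change ¬ (rk 48 = 2 ∨ rk 48 = 3); decide +kernel)
  | mid σ x hx =>
    have hT := link_ok _ σ hx.2.2 hr
    have C1 := chart_down σ x hx
    have C2 := chart_up σ x hx
    have cmp : ∀ y : Lk (mid σ x hx : Cov V), y.1 < mid σ x hx ∨ mid σ x hx < y.1 := fun y =>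
      y.2.2.2.imp (fun h => lt_of_le_of_ne h y.2.2.1) (fun h => lt_of_le_of_ne h y.2.2.1.symm)
    have hL : ∀ y : Lk (mid σ x hx : Cov V), inL (V.mark x) σ y.1.pr = true := by
      intro y
      rw [inL, Bool.or_eq_true]
      exact (cmp y).imp (fun h => C1.inI_pr y.2.1.1 h) (fun h => C2.inI_pr h y.2.1.2)
    have ne : ∀ y z : Lk (mid σ x hx : Cov V), y ≠ z → y.1.pr ≠ z.1.pr := by
      intro y z hne e
      have er : rank y.1 = rank z.1 := congrArg rk e
      apply hne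
      apply Subtype.ext
      rcases cmp y with h1 | h1 <;> rcases cmp z with h2 | h2
      · exact C1.inj bot_le h1.le bot_le h2.le e
      · have := graded.mono _ _ (h1.trans h2)
        omega
      · have := graded.mono _ _ (h2.trans h1)
        omega
      · exact C2.inj h1.le le_top h2.le le_top e
    apply sphere_of_icert (surf_Lk graded diamond _ hr) (fun y => lv (lpos (V.mark x) σ) y.1.pr)
    intro a b c h1 h2
    obtain ⟨e1, e2⟩ := hT _ (hL a) _ (hL b) (lt_pr h1) _ (hL c) (lt_pr h2)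
    exact ⟨e1, fun d a1 a2 a3 => e2 _ (hL d) (ne _ _ a1) (ne _ _ a2) (ne _ _ a3)⟩

lemma sd_vertex (v : Sd (Cov V)) (hv : Sd.rank v = 1) : Spherical v ⊤ ∨ Toroidal v ⊤ := by
  obtain ⟨p, hp, rfl⟩ := Sd.exists_sing hv
  have r1 := graded.mono _ _ hp.1
  have r2 := graded.mono _ _ hp.2
  rw [graded.bot] at r1
  rw [graded.top] at r2
  obtain h | h | h : rank p = 1 ∨ (rank p = 2 ∨ rank p = 3) ∨ rank p = 4 := by omega
  · obtain ⟨e⟩ := Sd.vertex_homeo p hp _ (Lk_vertex graded p h)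
    obtain ⟨e'⟩ := vertex p h
    exact Or.inl ⟨e.trans e'⟩
  · obtain ⟨e⟩ := Sd.vertex_homeo p hp _ rfl
    obtain ⟨e'⟩ := link p h
    exact Or.inl ⟨e.trans e'⟩
  · obtain ⟨e⟩ := Sd.vertex_homeo p hp _ (Lk_facet graded p h)
    rcases facet p h with ⟨⟨e'⟩⟩ | ⟨⟨e'⟩⟩
    · exact Or.inl ⟨e.trans e'⟩
    · exact Or.inr ⟨e.trans e'⟩

lemma sd_torus (x : Ω) (hm : V.mark x = true) :
    ∃ v : Sd (Cov V), Sd.rank v = 1 ∧ Toroidal v ⊤ := by
  have h45 := valid_of (V := V) x hm 45 (by decide +kernel)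
  obtain ⟨h1, ⟨e'⟩⟩ := facet45 x hm h45
  have hp : ⊥ < (mid 45 x h45 : Cov V) ∧ (mid 45 x h45 : Cov V) < ⊤ :=
    ⟨bot_lt_mid _ _ _, mid_lt_top _ _ _⟩
  obtain ⟨e⟩ := Sd.vertex_homeo _ hp _ (Lk_facet graded _ h1)
  exact ⟨_, Sd.rank_sing _ hp, ⟨e.trans e'⟩⟩

lemma sd_aut (hP : IsPolytope 4 (Cov V)) (x : Ω) (hm : V.mark x = true) :
    Function.Surjective (Sd.mapHom : (Cov V ≃o Cov V) →* (Sd (Cov V) ≃o Sd (Cov V))) := by
  have h5 := valid_of (V := V) x hm 5 (by decide +kernel)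
  have h11 := valid_of (V := V) x hm 11 (by decide +kernel)
  have h45 := valid_of (V := V) x hm 45 (by decide +kernel)
  have d5 := deg_mid 5 x h5
  have d11 := deg_mid 11 x h11
  have d45 := deg_mid 45 x h45
  rw [hm, deg5] at d5
  rw [hm, deg11] at d11
  rw [hm, deg45] at d45
  apply Sd.mapHom_surjective graded hP (mid 5 x h5) (mid 11 x h11) (mid 45 x h45)
  · exact mid_le_mid.mpr ⟨by decide +kernel, by
      rw [show lab 5 11 = 0 by decide +kernel, V.g_zero]; rfl⟩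
  · exact mid_le_mid.mpr ⟨by decide +kernel, by
      rw [show lab 11 45 = 0 by decide +kernel, V.g_zero]; rfl⟩
  · change rk 5 = 1; decide +kernel
  · change rk 11 = 2; decide +kernel
  · change rk 45 = 4; decide +kernel
  · intro p hp
    cases p with
    | bot => exact absurd hp.1 (lt_irrefl _)
    | top => exact absurd hp.2 (lt_irrefl _)
    | mid σ y hy =>
      have d := deg_mid σ y hy
      obtain ⟨k1, k2, k3⟩ := deg_rank _ σ hy.2.2 hy.1 hy.2.1
      exact ⟨fun h => k1 (by omega), fun h => k2 (by omega), fun h => k3 (by omega)⟩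

end Cov

lemma actHom_bijective {Γ : Type} [Group Γ] [Finite Γ] {n : ℕ} [NeZero n] (e : ZMod n → Γ)
    (hP : IsPolytope 4 (Cov (volt Γ e))) : Function.Bijective (actHom e) := by
  have hm : ∀ γ : Γ, (volt Γ e).mark (γ, 0) = true := fun γ => by simp [volt]
  have h45 := fun γ => Cov.valid_of (V := volt Γ e) (γ, 0) (hm γ) 45 (by decide +kernel)
  constructor
  · rw [injective_iff_map_eq_one]
    intro γ h
    have h1 : act e γ (Cov.mid 45 (1, 0) (h45 1)) = Cov.mid 45 (1, 0) (h45 1) :=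
      congrArg (fun f : Cov (volt Γ e) ≃o Cov (volt Γ e) => f (Cov.mid 45 (1, 0) (h45 1))) h
    simpa [act] using h1
  · intro f
    obtain ⟨⟨γ, i⟩, hy, h1, h2⟩ := Cov.map_c1 f (1, 0) (hm 1) (h45 1)
    obtain rfl : i = 0 := by simpa [volt] using h1
    refine ⟨γ, ?_⟩
    have h3 := Cov.eq_one_of_fix hP ((actHom e γ⁻¹) * f) (1, 0) (hm 1) (h45 1) (by
      change act e γ⁻¹ (f _) = _
      rw [h2]
      simp [act])
    have h4 : actHom e γ⁻¹ * f = 1 := RelIso.ext h3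
    rw [map_inv, inv_mul_eq_one] at h4
    exact h4

theorem main_simplicial (Γ : Type) [Group Γ] [Finite Γ] :
    ∃ (P : Type) (_ : Finite P) (_ : Lattice P) (_ : BoundedOrder P),
      IsPolytope 4 P ∧
      (∀ F : P, Order.height F = 4 → Nonempty (Set.Iic F ≃o Finset (Fin 4)) ∧ Spherical ⊥ F) ∧
      (∀ v : P, Order.height v = 1 → Spherical v ⊤ ∨ Toroidal v ⊤) ∧
      (∃ v : P, Order.height v = 1 ∧ Toroidal v ⊤) ∧
      Nonempty (Γ ≃* (P ≃o P)) := by
  have : NeZero (Nat.card Γ) := ⟨Nat.card_pos.ne'⟩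
  obtain ⟨e⟩ : Nonempty (ZMod (Nat.card Γ) ≃ Γ) := by
    rw [← Finite.card_eq, Nat.card_zmod]
  have hP : IsPolytope 4 (Cov (volt Γ e)) := Cov.isPolytope (volt_trans e e.surjective)
  have hm : (volt Γ e).mark (1, 0) = true := by simp [volt]
  have g := Sd.graded (Cov.graded (V := volt Γ e))
  have h1 : IsPolytope 4 (Sd (Cov (volt Γ e))) := Sd.isPolytope Cov.graded hP
  have h2 : ∀ F : Sd (Cov (volt Γ e)), Order.height F = 4 →
      Nonempty (Set.Iic F ≃o Finset (Fin 4)) ∧ Spherical ⊥ F := by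
    intro F hF
    rw [g.height_eq] at hF
    have hF' : Sd.rank F = 4 := by exact_mod_cast hF
    exact ⟨Sd.facet_iso F hF', Sd.facet_spherical Cov.graded hP F hF'⟩
  have h3 : ∀ v : Sd (Cov (volt Γ e)), Order.height v = 1 → Spherical v ⊤ ∨ Toroidal v ⊤ := by
    intro v hv
    rw [g.height_eq] at hv
    exact Cov.sd_vertex v (by exact_mod_cast hv)
  have h4 : ∃ v : Sd (Cov (volt Γ e)), Order.height v = 1 ∧ Toroidal v ⊤ := by
    obtain ⟨v, a, b⟩ := Cov.sd_torus (V := volt Γ e) (1, 0) hm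
    exact ⟨v, by rw [g.height_eq, a]; rfl, b⟩
  have h5 : Nonempty (Γ ≃* (Sd (Cov (volt Γ e)) ≃o Sd (Cov (volt Γ e)))) :=
    ⟨(MulEquiv.ofBijective (actHom e) (actHom_bijective e hP)).trans
      (MulEquiv.ofBijective Sd.mapHom ⟨Sd.mapHom_injective, Cov.sd_aut hP (1, 0) hm⟩)⟩
  exact ⟨Sd (Cov (volt Γ e)), inferInstance, Sd.lattice, inferInstance, h1, h2, h3, h4, h5⟩

end Pool.Agent.Lib.MP_a63caf_co
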