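import Pool.Agent.Lib.MP_a63caf_co.Sphere

set_option autoImplicit false
set_option linter.unusedSectionVars false

/-! A two-dimensional order complex realised as a periodic weighted Delaunay triangulation of the
plane is a torus. -/

namespace Pool.Agent.Lib.MP_a63caf_co

variable {Q : Type} [PartialOrder Q] [Fintype Q]

lemma addCircle_eq_iff (L : ℝ) (x y : ℝ) :
    (x : AddCircle L) = y ↔ ∃ n : ℤ, x = y + L * n := by
  rw [← sub_eq_zero, ← AddCircle.coe_sub, AddCircle.coe_eq_zero_iff]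
  constructor
  · rintro ⟨n, hn⟩
    exact ⟨n, by rw [zsmul_eq_mul] at hn; linarith⟩
  · rintro ⟨n, hn⟩
    exact ⟨n, by rw [zsmul_eq_mul]; linarith⟩

structure TorusData (Q : Type) [PartialOrder Q] where
  L : ℝ
  α : ℝ
  β : ℝ
  γ : ℝ
  κ : ℝ
  px : Q → ℝ
  py : Q → ℝ
  h : Q → ℝ
  s1 : Q → Q → ℤ
  s2 : Q → Q → ℤ
  l1 : Q → Q → Q → ℝ
  l2 : Q → Q → Q → ℝ
  l0 : Q → Q → Q → ℝ

def TorusData.pw (T : TorusData Q) (a b c : Q) (s t : ℝ) : ℝ :=
  T.α * s ^ 2 + T.β * s * t + T.γ * t ^ 2 - (T.l1 a b c * s + T.l2 a b c * t + T.l0 a b c)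

def TorusData.X (T : TorusData Q) (d : Q) (m : ℤ) : ℝ := T.px d + T.L * m
def TorusData.Y (T : TorusData Q) (d : Q) (n : ℤ) : ℝ := T.py d + T.L * n

structure TorusData.Good (T : TorusData Q) : Prop where
  Lpos : 0 < T.L
  κpos : 0 < T.κ
  hq : ∀ s t : ℝ, T.κ * (s ^ 2 + t ^ 2) ≤ T.α * s ^ 2 + T.β * s * t + T.γ * t ^ 2
  co1 : ∀ a b c, a ≤ b → b ≤ c → T.s1 a c = T.s1 a b + T.s1 b c
  co2 : ∀ a b c, a ≤ b → b ≤ c → T.s2 a c = T.s2 a b + T.s2 b c
  area : ∀ a b c, a < b → b < c →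
    (T.X b (T.s1 b c) - T.X a (T.s1 a c)) * (T.Y c 0 - T.Y a (T.s2 a c)) -
      (T.Y b (T.s2 b c) - T.Y a (T.s2 a c)) * (T.X c 0 - T.X a (T.s1 a c)) ≠ 0
  ea : ∀ a b c, a < b → b < c → T.pw a b c (T.X a (T.s1 a c)) (T.Y a (T.s2 a c)) + T.h a = 0
  eb : ∀ a b c, a < b → b < c → T.pw a b c (T.X b (T.s1 b c)) (T.Y b (T.s2 b c)) + T.h b = 0
  ec : ∀ a b c, a < b → b < c → T.pw a b c (T.X c 0) (T.Y c 0) + T.h c = 0
  pos : ∀ a b c d (m n : ℤ), a < b → b < c →
    (d = a ∨ d = b ∨ d = c → m ≠ T.s1 d c ∨ n ≠ T.s2 d c) →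
    0 < T.pw a b c (T.X d m) (T.Y d n) + T.h d

namespace TorusData.Good

variable {T : TorusData Q} (G : T.Good)
include G

lemma s1_self (a : Q) : T.s1 a a = 0 := by
  have := G.co1 a a a le_rfl le_rfl
  omega

lemma s2_self (a : Q) : T.s2 a a = 0 := by
  have := G.co2 a a a le_rfl le_rfl
  omega

lemma nonneg (a b c d : Q) (m n : ℤ) (h1 : a < b) (h2 : b < c) :
    0 ≤ T.pw a b c (T.X d m) (T.Y d n) + T.h d := by
  by_cases h : d = a ∨ d = b ∨ d = c → m ≠ T.s1 d c ∨ n ≠ T.s2 d c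
  · exact (G.pos a b c d m n h1 h2 h).le
  · push Not at h
    obtain ⟨hd, rfl, rfl⟩ := h
    rcases hd with rfl | rfl | rfl
    · exact (G.ea _ _ _ h1 h2).ge
    · exact (G.eb _ _ _ h1 h2).ge
    · rw [G.s1_self, G.s2_self]; exact (G.ec _ _ _ h1 h2).ge

lemma exists_min (hne : ∃ a b c : Q, a < b ∧ b < c) (y1 y2 : ℝ) :
    ∃ (a b c : Q) (m n : ℤ), a < b ∧ b < c ∧ ∀ (a' b' c' : Q) (m' n' : ℤ), a' < b' → b' < c' →
      T.pw a b c (y1 - T.L * m) (y2 - T.L * n) ≤
        T.pw a' b' c' (y1 - T.L * m') (y2 - T.L * n') := by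
  classical
  obtain ⟨a0, b0, c0, h1, h2⟩ := hne
  let f : {p : Q × Q × Q // p.1 < p.2.1 ∧ p.2.1 < p.2.2} × ℤ × ℤ → ℝ := fun z =>
    T.pw z.1.1.1 z.1.1.2.1 z.1.1.2.2 (y1 - T.L * z.2.1) (y2 - T.L * z.2.2)
  have hfin : ∀ R : ℝ, {z | f z ≤ R}.Finite := by
    intro R
    have hb : ∀ p : {p : Q × Q × Q // p.1 < p.2.1 ∧ p.2.1 < p.2.2}, ∃ M : ℤ, ∀ m n : ℤ,
        f (p, m, n) ≤ R → m ∈ Set.Icc (-M) M ∧ n ∈ Set.Icc (-M) M := by
      rintro ⟨⟨a, b, c⟩, hp⟩
      set u := T.l1 a b c / (2 * T.κ) with hu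
      set w := T.l2 a b c / (2 * T.κ) with hw
      set C := (R + T.l0 a b c) / T.κ + u ^ 2 + w ^ 2 with hC
      obtain ⟨M, hM⟩ := exists_int_gt ((|y1| + |y2| + |u| + |w| + 1 + C) / T.L)
      have hκ := G.κpos
      have hL := G.Lpos
      rw [div_lt_iff₀ hL] at hM
      refine ⟨M, fun m n hmn => ?_⟩
      simp only [f, TorusData.pw] at hmn
      have hq := G.hq (y1 - T.L * m) (y2 - T.L * n)
      set s := y1 - T.L * m with hs
      set t := y2 - T.L * n with ht
      have e1 : T.l1 a b c = 2 * T.κ * u := by rw [hu]; field_simp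
      have e2 : T.l2 a b c = 2 * T.κ * w := by rw [hw]; field_simp
      have e3 : R + T.l0 a b c = T.κ * (C - u ^ 2 - w ^ 2) := by rw [hC]; field_simp; ring
      have key : (s - u) ^ 2 + (t - w) ^ 2 ≤ C := by
        apply le_of_mul_le_mul_left _ hκ
        rw [e1, e2] at hmn
        nlinarith
      have k1 : |s - u| ≤ 1 + C := by
        rw [abs_le]
        constructor <;> nlinarith [sq_nonneg (t - w), sq_nonneg (s - u + 1), sq_nonneg (s - u - 1)]
      have k2 : |t - w| ≤ 1 + C := by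
        rw [abs_le]
        constructor <;> nlinarith [sq_nonneg (s - u), sq_nonneg (t - w + 1), sq_nonneg (t - w - 1)]
      rw [abs_le] at k1 k2
      have a1 := le_abs_self y1
      have a2 := neg_abs_le y1
      have a3 := le_abs_self y2
      have a4 := neg_abs_le y2
      have a5 := le_abs_self u
      have a6 := neg_abs_le u
      have a7 := le_abs_self w
      have a8 := neg_abs_le w
      have a9 := abs_nonneg y1
      have a10 := abs_nonneg y2
      have a11 := abs_nonneg u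
      have a12 := abs_nonneg w
      have conv : ∀ k : ℤ, -(M * T.L) ≤ T.L * k → T.L * k ≤ M * T.L → k ∈ Set.Icc (-M) M := by
        intro k i1 i2
        constructor
        · have : ((-M : ℤ) : ℝ) ≤ k := by
            apply le_of_mul_le_mul_left _ hL
            push_cast
            linarith
          exact_mod_cast this
        · have : (k : ℝ) ≤ M := by
            apply le_of_mul_le_mul_left _ hL
            linarith
          exact_mod_cast this
      exact ⟨conv m (by linarith) (by linarith), conv n (by linarith) (by linarith)⟩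
    choose M hM using hb
    apply Set.Finite.subset (Set.finite_iUnion fun p =>
      (Set.finite_singleton p).prod ((Set.finite_Icc (-M p) (M p)).prod
        (Set.finite_Icc (-M p) (M p))))
    rintro ⟨p, m, n⟩ hz
    exact Set.mem_iUnion.mpr ⟨p, rfl, hM p m n hz⟩
  have gen : ∀ z0 : {p : Q × Q × Q // p.1 < p.2.1 ∧ p.2.1 < p.2.2} × ℤ × ℤ,
      ∃ z, ∀ z', f z ≤ f z' := by
    intro z0
    clear_value f
    obtain ⟨z, hz, hmin⟩ := Set.exists_min_image _ f (hfin (f z0)) ⟨z0, le_refl (f z0)⟩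
    refine ⟨z, fun z' => ?_⟩
    by_cases h : f z' ≤ f z0
    · exact hmin z' h
    · exact le_trans hz (not_le.mp h).le
  obtain ⟨⟨⟨⟨a, b, c⟩, hp⟩, m, n⟩, hmin⟩ := gen (⟨(a0, b0, c0), h1, h2⟩, 0, 0)
  exact ⟨a, b, c, m, n, hp.1, hp.2, fun a' b' c' m' n' h1' h2' =>
    hmin (⟨(a', b', c'), h1', h2'⟩, m', n')⟩

theorem torus (hQ : Surf Q) : Nonempty (realization Q ≃ₜ Circle × Circle) := by
  classical
  have hL := G.Lpos
  have : Fact (0 < T.L) := ⟨hL⟩
  let P1 : (Q → ℝ) → Q → ℝ := fun x c => ∑ d, x d * T.X d (T.s1 d c)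
  let P2 : (Q → ℝ) → Q → ℝ := fun x c => ∑ d, x d * T.Y d (T.s2 d c)
  have htop : ∀ x : realization Q, ∃ t, x.1 t ≠ 0 ∧ ∀ d, x.1 d ≠ 0 → d ≤ t := by
    rintro ⟨x, hx⟩
    obtain ⟨a, b, c, h1, h2, h⟩ := hQ.rep x hx
    have hs := ((mem_realization x).mp hx).2.1
    rw [sum_three h1 h2 _ h] at hs
    have hd : ∀ d, x d ≠ 0 → d = a ∨ d = b ∨ d = c := by
      intro d hd
      by_contra hc
      push Not at hc
      exact hd (h d hc.1 hc.2.1 hc.2.2)
    by_cases hc : x c = 0
    · by_cases hb : x b = 0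
      · refine ⟨a, by simp only; intro ha; linarith, fun d h0 => ?_⟩
        rcases hd d h0 with rfl | rfl | rfl
        · exact le_rfl
        · exact absurd hb h0
        · exact absurd hc h0
      · refine ⟨b, hb, fun d h0 => ?_⟩
        rcases hd d h0 with rfl | rfl | rfl
        · exact h1.le
        · exact le_rfl
        · exact absurd hc h0
    · refine ⟨c, hc, fun d h0 => ?_⟩
      rcases hd d h0 with rfl | rfl | rfl
      · exact (h1.trans h2).le
      · exact h2.le
      · exact le_rfl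
  choose top htop1 htop2 using htop
  let φ : realization Q → AddCircle T.L × AddCircle T.L := fun x =>
    ((P1 x.1 (top x) : ℝ), (P2 x.1 (top x) : ℝ))
  have hφ : ∀ (x : realization Q) (c : Q), (∀ d, x.1 d ≠ 0 → d ≤ c) →
      φ x = (((P1 x.1 c : ℝ) : AddCircle T.L), ((P2 x.1 c : ℝ) : AddCircle T.L)) := by
    intro x c hc
    have hs := ((mem_realization x.1).mp x.2).2.1
    have htc := hc _ (htop1 x)
    apply Prod.ext
    · symm
      simp only [φ]
      rw [addCircle_eq_iff]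
      refine ⟨T.s1 (top x) c, ?_⟩
      rw [← one_mul (T.L * _), ← hs, Finset.sum_mul, ← Finset.sum_add_distrib]
      apply Finset.sum_congr rfl
      intro d _
      by_cases hd : x.1 d = 0
      · simp [hd]
      · rw [G.co1 d (top x) c (htop2 x d hd) htc]
        simp only [TorusData.X]
        push_cast
        ring
    · symm
      simp only [φ]
      rw [addCircle_eq_iff]
      refine ⟨T.s2 (top x) c, ?_⟩
      rw [← one_mul (T.L * _), ← hs, Finset.sum_mul, ← Finset.sum_add_distrib]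
      apply Finset.sum_congr rfl
      intro d _
      by_cases hd : x.1 d = 0
      · simp [hd]
      · rw [G.co2 d (top x) c (htop2 x d hd) htc]
        simp only [TorusData.Y]
        push_cast
        ring
  have hφc : Continuous φ := by
    apply (locallyFinite_of_finite
      (fun c : Q => {x : realization Q | ∀ d, ¬ d ≤ c → x.1 d = 0})).continuous
    · rw [Set.eq_univ_iff_forall]
      intro x
      refine Set.mem_iUnion.mpr ⟨top x, fun d hd => ?_⟩
      by_contra h
      exact hd (htop2 x d h)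
    · intro c
      simp only [Set.ofPred_forall]
      refine isClosed_iInter fun d => isClosed_iInter fun _ => ?_
      exact isClosed_eq ((continuous_apply d).comp continuous_subtype_val) continuous_const
    · intro c
      have hc : Continuous fun x : realization Q =>
          (((P1 x.1 c : ℝ) : AddCircle T.L), ((P2 x.1 c : ℝ) : AddCircle T.L)) := by
        apply Continuous.prodMk
        · exact (AddCircle.continuous_mk' T.L).comp (by fun_prop)
        · exact (AddCircle.continuous_mk' T.L).comp (by fun_prop)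
      apply hc.continuousOn.congr
      intro x hx
      apply hφ
      intro d hd
      by_contra h
      exact hd (hx d h)
  have hrep : ∀ (x : Q → ℝ) (a b c : Q), a < b → b < c → (∀ d, d ≠ a → d ≠ b → d ≠ c → x d = 0) →
      (∀ d, x d ≠ 0 → d ≤ c) ∧
      P1 x c = x a * T.X a (T.s1 a c) + x b * T.X b (T.s1 b c) + x c * T.X c 0 ∧
      P2 x c = x a * T.Y a (T.s2 a c) + x b * T.Y b (T.s2 b c) + x c * T.Y c 0 := by
    intro x a b c h1 h2 h
    refine ⟨fun d hd => ?_, ?_, ?_⟩
    · by_cases ha : d = a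
      · rw [ha]; exact (h1.trans h2).le
      by_cases hb : d = b
      · rw [hb]; exact h2.le
      by_cases hc : d = c
      · rw [hc]
      exact absurd (h d ha hb hc) hd
    · simp only [P1]
      rw [sum_three h1 h2 _ (fun d ha hb hc => by rw [h d ha hb hc, zero_mul]), G.s1_self]
    · simp only [P2]
      rw [sum_three h1 h2 _ (fun d ha hb hc => by rw [h d ha hb hc, zero_mul]), G.s2_self]
  have hX : ∀ d (m k : ℤ), T.X d (m + k) = T.X d m + T.L * k := by
    intro d m k; simp only [TorusData.X]; push_cast; ring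
  have hY : ∀ d (m k : ℤ), T.Y d (m + k) = T.Y d m + T.L * k := by
    intro d m k; simp only [TorusData.Y]; push_cast; ring
  have hinj : Function.Injective φ := by
    rintro ⟨x, hx⟩ ⟨y, hy⟩ hxy
    obtain ⟨a, b, c, h1, h2, h⟩ := hQ.rep x hx
    obtain ⟨a', b', c', h1', h2', h'⟩ := hQ.rep y hy
    obtain ⟨r1, r2, r3⟩ := hrep x a b c h1 h2 h
    obtain ⟨r1', r2', r3'⟩ := hrep y a' b' c' h1' h2' h'
    rw [hφ ⟨x, hx⟩ c r1, hφ ⟨y, hy⟩ c' r1', Prod.mk.injEq, addCircle_eq_iff, addCircle_eq_iff] at hxy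
    obtain ⟨⟨m, hm⟩, ⟨n, hn⟩⟩ := hxy
    simp only at hm hn
    obtain ⟨x0, xs, -⟩ := (mem_realization x).mp hx
    obtain ⟨y0, ys, -⟩ := (mem_realization y).mp hy
    rw [sum_three h1 h2 _ h] at xs
    rw [sum_three h1' h2' _ h'] at ys
    rw [r2, r2'] at hm
    rw [r3, r3'] at hn
    have i1 := G.nonneg a' b' c' a (T.s1 a c + -m) (T.s2 a c + -n) h1' h2'
    have i2 := G.nonneg a' b' c' b (T.s1 b c + -m) (T.s2 b c + -n) h1' h2'
    have i3 := G.nonneg a' b' c' c (0 + -m) (0 + -n) h1' h2'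
    have j1 := G.nonneg a b c a' (T.s1 a' c' + m) (T.s2 a' c' + n) h1 h2
    have j2 := G.nonneg a b c b' (T.s1 b' c' + m) (T.s2 b' c' + n) h1 h2
    have j3 := G.nonneg a b c c' (0 + m) (0 + n) h1 h2
    have e1 := G.ea a b c h1 h2
    have e2 := G.eb a b c h1 h2
    have e3 := G.ec a b c h1 h2
    have f1 := G.ea a' b' c' h1' h2'
    have f2 := G.eb a' b' c' h1' h2'
    have f3 := G.ec a' b' c' h1' h2'
    have total : x a * (T.pw a' b' c' (T.X a (T.s1 a c + -m)) (T.Y a (T.s2 a c + -n)) + T.h a) +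
        x b * (T.pw a' b' c' (T.X b (T.s1 b c + -m)) (T.Y b (T.s2 b c + -n)) + T.h b) +
        x c * (T.pw a' b' c' (T.X c (0 + -m)) (T.Y c (0 + -n)) + T.h c) +
        (y a' * (T.pw a b c (T.X a' (T.s1 a' c' + m)) (T.Y a' (T.s2 a' c' + n)) + T.h a') +
        y b' * (T.pw a b c (T.X b' (T.s1 b' c' + m)) (T.Y b' (T.s2 b' c' + n)) + T.h b') +
        y c' * (T.pw a b c (T.X c' (0 + m)) (T.Y c' (0 + n)) + T.h c')) = 0 := by
      simp only [hX, hY, TorusData.pw] at e1 e2 e3 f1 f2 f3 ⊢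
      push_cast
      linear_combination x a * e1 + x b * e2 + x c * e3 + y a' * f1 + y b' * f2 + y c' * f3 +
        (T.l1 a b c - T.l1 a' b' c' - 2 * T.α * (T.L * m) - T.β * (T.L * n)) * hm +
        (T.l2 a b c - T.l2 a' b' c' - T.β * (T.L * m) - 2 * T.γ * (T.L * n)) * hn +
        (T.l0 a b c - T.l0 a' b' c' + T.l1 a' b' c' * (T.L * m) + T.l2 a' b' c' * (T.L * n) +
          (T.α * (T.L * m) ^ 2 + T.β * (T.L * m) * (T.L * n) + T.γ * (T.L * n) ^ 2)) * xs +
        (-(T.l0 a b c) + T.l0 a' b' c' - T.l1 a b c * (T.L * m) - T.l2 a b c * (T.L * n) +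
          (T.α * (T.L * m) ^ 2 + T.β * (T.L * m) * (T.L * n) + T.γ * (T.L * n) ^ 2)) * ys
    have p1 := mul_nonneg (x0 a) i1
    have p2 := mul_nonneg (x0 b) i2
    have p3 := mul_nonneg (x0 c) i3
    have q1 := mul_nonneg (y0 a') j1
    have q2 := mul_nonneg (y0 b') j2
    have q3 := mul_nonneg (y0 c') j3
    have hkey : ∀ d, y d ≠ 0 → (d = a ∨ d = b ∨ d = c) ∧ T.s1 d c' + m = T.s1 d c ∧
        T.s2 d c' + n = T.s2 d c := by
      intro d hd
      by_contra hc
      have hp := G.pos a b c d (T.s1 d c' + m) (T.s2 d c' + n) h1 h2 (by tauto)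
      have hd0 : 0 < y d := lt_of_le_of_ne (y0 d) hd.symm
      have hp2 := mul_pos hd0 hp
      by_cases ha : d = a'
      · subst ha; linarith
      by_cases hb : d = b'
      · subst hb; linarith
      by_cases hc : d = c'
      · subst hc
        rw [G.s1_self, G.s2_self] at hp2
        linarith
      exact hd (h' d ha hb hc)
    have hsupp : ∀ d, d ≠ a → d ≠ b → d ≠ c → y d = 0 := by
      intro d ha hb hc
      by_contra h0
      rcases (hkey d h0).1 with h | h | h
      · exact ha h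
      · exact hb h
      · exact hc h
    obtain ⟨-, t2, t3⟩ := hrep y a b c h1 h2 hsupp
    have ys2 := ((mem_realization y).mp hy).2.1
    have u1 : P1 y c = P1 y c' + T.L * m := by
      rw [← one_mul (T.L * _), ← ys2, Finset.sum_mul, ← Finset.sum_add_distrib]
      apply Finset.sum_congr rfl
      intro d _
      by_cases hd : y d = 0
      · simp [hd]
      · rw [← (hkey d hd).2.1, hX]; ring
    have u2 : P2 y c = P2 y c' + T.L * n := by
      rw [← one_mul (T.L * _), ← ys2, Finset.sum_mul, ← Finset.sum_add_distrib]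
      apply Finset.sum_congr rfl
      intro d _
      by_cases hd : y d = 0
      · simp [hd]
      · rw [← (hkey d hd).2.2, hY]; ring
    rw [t2, r2', ← hm] at u1
    rw [t3, r3', ← hn] at u2
    rw [sum_three h1 h2 _ hsupp] at ys2
    have hD := G.area a b c h1 h2
    have fb : x b = y b := by
      apply mul_left_cancel₀ hD
      linear_combination (-(T.Y c 0 - T.Y a (T.s2 a c))) * u1 + (T.X c 0 - T.X a (T.s1 a c)) * u2 +
        (T.Y a (T.s2 a c) * (T.X c 0 - T.X a (T.s1 a c)) -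
          T.X a (T.s1 a c) * (T.Y c 0 - T.Y a (T.s2 a c))) * (xs - ys2)
    have fc : x c = y c := by
      apply mul_left_cancel₀ hD
      linear_combination (T.Y b (T.s2 b c) - T.Y a (T.s2 a c)) * u1 -
        (T.X b (T.s1 b c) - T.X a (T.s1 a c)) * u2 +
        (T.X a (T.s1 a c) * (T.Y b (T.s2 b c) - T.Y a (T.s2 a c)) -
          T.Y a (T.s2 a c) * (T.X b (T.s1 b c) - T.X a (T.s1 a c))) * (xs - ys2)
    have fa : x a = y a := by linarith
    apply Subtype.ext
    funext d
    by_cases ha : d = a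
    · rw [ha]; exact fa
    by_cases hb : d = b
    · rw [hb]; exact fb
    by_cases hc : d = c
    · rw [hc]; exact fc
    exact (h d ha hb hc).trans (hsupp d ha hb hc).symm
  have hsurj : Function.Surjective φ := by
    rintro ⟨z1, z2⟩
    obtain ⟨y1, rfl⟩ := QuotientAddGroup.mk_surjective z1
    obtain ⟨y2, rfl⟩ := QuotientAddGroup.mk_surjective z2
    obtain ⟨a0, b0, c0, h10, h20, _⟩ := hQ.ext ∅ IsChain.empty
    obtain ⟨a, b, c, m, n, h1, h2, hmin⟩ := G.exists_min ⟨a0, b0, c0, h10, h20⟩ y1 y2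
    have hD := G.area a b c h1 h2
    set A1 := T.X a (T.s1 a c) with hA1
    set A2 := T.Y a (T.s2 a c) with hA2
    set B1 := T.X b (T.s1 b c) with hB1
    set B2 := T.Y b (T.s2 b c) with hB2
    set C1 := T.X c 0 with hC1
    set C2 := T.Y c 0 with hC2
    set u1 := y1 - T.L * m with hu1
    set u2 := y2 - T.L * n with hu2
    obtain ⟨t, r, ht1, ht2⟩ : ∃ t r : ℝ, u1 = (1 - t - r) * A1 + t * B1 + r * C1 ∧
        u2 = (1 - t - r) * A2 + t * B2 + r * C2 := by
      have hDi := mul_inv_cancel₀ hD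
      refine ⟨((u1 - A1) * (C2 - A2) - (u2 - A2) * (C1 - A1)) *
        ((B1 - A1) * (C2 - A2) - (B2 - A2) * (C1 - A1))⁻¹,
        ((B1 - A1) * (u2 - A2) - (B2 - A2) * (u1 - A1)) *
        ((B1 - A1) * (C2 - A2) - (B2 - A2) * (C1 - A1))⁻¹, ?_, ?_⟩
      · linear_combination (A1 - u1) * hDi
      · linear_combination (A2 - u2) * hDi
    have e1 := G.ea a b c h1 h2
    have e2 := G.eb a b c h1 h2
    have e3 := G.ec a b c h1 h2
    rw [← hA1, ← hA2] at e1
    rw [← hB1, ← hB2] at e2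
    rw [← hC1, ← hC2] at e3
    have aff : ∀ (a' b' c' : Q) (k l : ℝ), T.pw a' b' c' (u1 - k) (u2 - l) - T.pw a b c u1 u2 =
        (1 - t - r) * (T.pw a' b' c' (A1 - k) (A2 - l) + T.h a) +
          t * (T.pw a' b' c' (B1 - k) (B2 - l) + T.h b) +
          r * (T.pw a' b' c' (C1 - k) (C2 - l) + T.h c) := by
      intro a' b' c' k l
      simp only [TorusData.pw] at e1 e2 e3 ⊢
      rw [ht1, ht2]
      linear_combination (-(1 - t - r)) * e1 - t * e2 - r * e3
    have hs0 : 0 ≤ 1 - t - r := by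
      obtain ⟨a', ha', h1'⟩ := hQ.adj1 a b c h1 h2
      have i1 := hmin a' b c m n h1' h2
      have i2 := aff a' b c 0 0
      have i3 := G.pos a' b c a (T.s1 a c) (T.s2 a c) h1' h2 (by
        rintro (h | h | h)
        · exact absurd h ha'.symm
        · exact absurd h h1.ne
        · exact absurd h (h1.trans h2).ne)
      simp only [sub_zero] at i2
      rw [G.eb a' b c h1' h2, G.ec a' b c h1' h2] at i2
      by_contra hneg
      have := mul_pos (neg_pos.mpr (not_le.mp hneg)) i3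
      linarith
    have ht0 : 0 ≤ t := by
      obtain ⟨b', hb', h1', h2'⟩ := hQ.adj2 a b c h1 h2
      have i1 := hmin a b' c m n h1' h2'
      have i2 := aff a b' c 0 0
      have i3 := G.pos a b' c b (T.s1 b c) (T.s2 b c) h1' h2' (by
        rintro (h | h | h)
        · exact absurd h h1.ne'
        · exact absurd h hb'.symm
        · exact absurd h h2.ne)
      simp only [sub_zero] at i2
      rw [G.ea a b' c h1' h2', G.ec a b' c h1' h2'] at i2
      by_contra hneg
      have := mul_pos (neg_pos.mpr (not_le.mp hneg)) i3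
      linarith
    have hr0 : 0 ≤ r := by
      obtain ⟨c', hc', h2'⟩ := hQ.adj3 a b c h1 h2
      have i1 := hmin a b c' (m + (T.s1 b c - T.s1 b c')) (n + (T.s2 b c - T.s2 b c')) h1 h2'
      have i2 := aff a b c' (T.L * ((T.s1 b c - T.s1 b c' : ℤ) : ℝ))
        (T.L * ((T.s2 b c - T.s2 b c' : ℤ) : ℝ))
      have i3 := G.pos a b c' c (-(T.s1 b c - T.s1 b c')) (-(T.s2 b c - T.s2 b c')) h1 h2' (by
        rintro (h | h | h)
        · exact absurd h (h1.trans h2).ne'
        · exact absurd h h2.ne'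
        · exact absurd h hc'.symm)
      have g1 : A1 - T.L * ((T.s1 b c - T.s1 b c' : ℤ) : ℝ) = T.X a (T.s1 a c') := by
        rw [hA1, G.co1 a b c h1.le h2.le, G.co1 a b c' h1.le h2'.le]
        simp only [TorusData.X]; push_cast; ring
      have g2 : A2 - T.L * ((T.s2 b c - T.s2 b c' : ℤ) : ℝ) = T.Y a (T.s2 a c') := by
        rw [hA2, G.co2 a b c h1.le h2.le, G.co2 a b c' h1.le h2'.le]
        simp only [TorusData.Y]; push_cast; ring
      have g3 : B1 - T.L * ((T.s1 b c - T.s1 b c' : ℤ) : ℝ) = T.X b (T.s1 b c') := by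
        rw [hB1]
        simp only [TorusData.X]; push_cast; ring
      have g4 : B2 - T.L * ((T.s2 b c - T.s2 b c' : ℤ) : ℝ) = T.Y b (T.s2 b c') := by
        rw [hB2]
        simp only [TorusData.Y]; push_cast; ring
      have g5 : C1 - T.L * ((T.s1 b c - T.s1 b c' : ℤ) : ℝ) = T.X c (-(T.s1 b c - T.s1 b c')) := by
        rw [hC1]
        simp only [TorusData.X]; push_cast; ring
      have g6 : C2 - T.L * ((T.s2 b c - T.s2 b c' : ℤ) : ℝ) = T.Y c (-(T.s2 b c - T.s2 b c')) := by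
        rw [hC2]
        simp only [TorusData.Y]; push_cast; ring
      have g7 : y1 - T.L * ((m + (T.s1 b c - T.s1 b c') : ℤ) : ℝ) =
          u1 - T.L * ((T.s1 b c - T.s1 b c' : ℤ) : ℝ) := by
        rw [hu1]; push_cast; ring
      have g8 : y2 - T.L * ((n + (T.s2 b c - T.s2 b c') : ℤ) : ℝ) =
          u2 - T.L * ((T.s2 b c - T.s2 b c' : ℤ) : ℝ) := by
        rw [hu2]; push_cast; ring
      rw [g7, g8] at i1
      rw [g1, g2, g3, g4, g5, g6, G.ea a b c' h1 h2', G.eb a b c' h1 h2'] at i2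
      by_contra hneg
      have := mul_pos (neg_pos.mpr (not_le.mp hneg)) i3
      linarith
    refine ⟨⟨tri a b c (1 - t - r) t r, tri_mem h1 h2 _ _ _ hs0 ht0 hr0 (by ring)⟩, ?_⟩
    obtain ⟨r1, r2, r3⟩ := hrep (tri a b c (1 - t - r) t r) a b c h1 h2 (tri_other _ _ _)
    rw [hφ _ c r1]
    simp only
    rw [r2, r3, tri_a, tri_b h1, tri_c h1 h2, ← hA1, ← hA2, ← hB1, ← hB2, ← hC1, ← hC2, ← ht1, ← ht2,
      Prod.mk.injEq, addCircle_eq_iff, addCircle_eq_iff]
    exact ⟨⟨-m, by rw [hu1]; push_cast; ring⟩, ⟨-n, by rw [hu2]; push_cast; ring⟩⟩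
  have : CompactSpace (realization Q) := isCompact_iff_compactSpace.mp isCompact_realization
  exact ⟨(Continuous.homeoOfEquivCompactToT2 (f := Equiv.ofBijective φ ⟨hinj, hsurj⟩) hφc).trans
    ((AddCircle.homeomorphCircle hL.ne').prodCongr (AddCircle.homeomorphCircle hL.ne'))⟩

end TorusData.Good

end Pool.Agent.Lib.MP_a63caf_co
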