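import Pool.Agent.Lib.MP_a63caf_co.Cover
import Pool.Agent.Lib.MP_a63caf_co.Certs
import Pool.Agent.Lib.MP_a63caf_co.Torus

set_option autoImplicit false
set_option linter.unusedSectionVars false

/-! Facets and vertex-figures of the cover are spheres or tori. -/

namespace Pool.Agent.Lib.MP_a63caf_co

lemma Graded.surf {P : Type} [PartialOrder P] [BoundedOrder P] {ρ : P → ℕ} {N : ℕ}
    (g : Graded ρ N)
    (hdia : ∀ F G : P, F < G → ρ G = ρ F + 2 → {H : P | F < H ∧ H < G}.ncard = 2)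
    (F G : P) (h : F < G) (h4 : ρ G = ρ F + 4) : Surf (Set.Ioo F G) := by
  have other : ∀ A C x : P, A < x → x < C → ρ C = ρ A + 2 → ∃ y, y ≠ x ∧ A < y ∧ y < C := by
    intro A C x h1 h2 h3
    obtain ⟨u, v, huv, e⟩ := Set.ncard_eq_two.mp (hdia A C (h1.trans h2) h3)
    have hu : u ∈ {H : P | A < H ∧ H < C} := by rw [e]; simp
    have hv : v ∈ {H : P | A < H ∧ H < C} := by rw [e]; simp
    by_cases hx : u = x
    · exact ⟨v, fun h => huv (hx.trans h.symm), hv⟩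
    · exact ⟨u, hx, hu⟩
  have ranks : ∀ a b c : Set.Ioo F G, a < b → b < c →
      ρ a = ρ F + 1 ∧ ρ b = ρ F + 2 ∧ ρ c = ρ F + 3 := by
    intro a b c h1 h2
    have := g.mono _ _ a.2.1
    have := g.mono a.1 b.1 h1
    have := g.mono b.1 c.1 h2
    have := g.mono _ _ c.2.2
    omega
  constructor
  · intro S hS
    have hch : IsChain (· ≤ ·) (insert F (insert G (Subtype.val '' S))) := by
      apply IsChain.insert
      · apply IsChain.insert
        · rintro _ ⟨a, ha, rfl⟩ _ ⟨b, hb, rfl⟩ _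
          exact hS.total ha hb
        · rintro _ ⟨a, _, rfl⟩ _
          exact Or.inr a.2.2.le
      · rintro b (rfl | ⟨a, _, rfl⟩) _
        · exact Or.inl h.le
        · exact Or.inl a.2.1.le
    obtain ⟨A, hA⟩ := hch.exists_subset_flag
    have hF : F ∈ A := hA (Set.mem_insert _ _)
    have hG : G ∈ A := hA (Set.mem_insert_of_mem _ (Set.mem_insert _ _))
    have hN := g.le_N G
    obtain ⟨a, ha, ra⟩ := g.flag_exists A (ρ F + 1) (by omega)
    obtain ⟨b, hb, rb⟩ := g.flag_exists A (ρ F + 2) (by omega)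
    obtain ⟨c, hc, rc⟩ := g.flag_exists A (ρ F + 3) (by omega)
    refine ⟨⟨a, g.flag_lt A hF ha (by omega), g.flag_lt A ha hG (by omega)⟩,
      ⟨b, g.flag_lt A hF hb (by omega), g.flag_lt A hb hG (by omega)⟩,
      ⟨c, g.flag_lt A hF hc (by omega), g.flag_lt A hc hG (by omega)⟩,
      (g.flag_lt A ha hb (by omega) : a < b), (g.flag_lt A hb hc (by omega) : b < c), ?_⟩
    intro s hs
    have hsA : s.1 ∈ A := hA (Set.mem_insert_of_mem _ (Set.mem_insert_of_mem _ ⟨s, hs, rfl⟩))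
    have r1 := g.mono _ _ s.2.1
    have r2 := g.mono _ _ s.2.2
    obtain e | e | e : ρ s = ρ F + 1 ∨ ρ s = ρ F + 2 ∨ ρ s = ρ F + 3 := by omega
    · exact Or.inl (Subtype.ext (g.flag_eq A hsA ha (e.trans ra.symm)))
    · exact Or.inr (Or.inl (Subtype.ext (g.flag_eq A hsA hb (e.trans rb.symm))))
    · exact Or.inr (Or.inr (Subtype.ext (g.flag_eq A hsA hc (e.trans rc.symm))))
  · intro a b c h1 h2
    obtain ⟨_, r, _⟩ := ranks a b c h1 h2
    obtain ⟨y, y1, y2, y3⟩ := other F b.1 a.1 a.2.1 h1 r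
    exact ⟨⟨y, y2, y3.trans b.2.2⟩, fun e => y1 (congrArg Subtype.val e), y3⟩
  · intro a b c h1 h2
    obtain ⟨r1, _, r2⟩ := ranks a b c h1 h2
    obtain ⟨y, y1, y2, y3⟩ := other a.1 c.1 b.1 h1 h2 (by omega)
    exact ⟨⟨y, a.2.1.trans y2, y3.trans c.2.2⟩, fun e => y1 (congrArg Subtype.val e), y2, y3⟩
  · intro a b c h1 h2
    obtain ⟨_, r, _⟩ := ranks a b c h1 h2
    obtain ⟨y, y1, y2, y3⟩ := other b.1 G c.1 h2 c.2.2 (by omega)
    exact ⟨⟨y, b.2.1.trans y2, y3⟩, fun e => y1 (congrArg Subtype.val e), y2⟩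

lemma far_pos (α β γ E B1 B2 C0 K m n : ℤ) (hγ : 0 < γ) (hE : 0 < E)
    (hU : 0 ≤ 4 * α * γ - β ^ 2)
    (h1 : |2 * E * (2 * γ * B1 - β * B2)| ≤ (4 * α * γ - β ^ 2) * E ^ 2 * K)
    (h2 : 0 < K * ((4 * α * γ - β ^ 2) * E ^ 2 * K - |2 * E * (2 * γ * B1 - β * B2)|) +
      (4 * E * γ * C0 - B2 ^ 2))
    (hm : K ≤ |m|) : 0 < E * (α * m ^ 2 + β * m * n + γ * n ^ 2) + B1 * m + B2 * n + C0 := by
  set U := (4 * α * γ - β ^ 2) * E ^ 2 with hUd
  set W := 2 * E * (2 * γ * B1 - β * B2) with hW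
  have hU0 : 0 ≤ U := by positivity
  have e : 4 * E * γ * (E * (α * m ^ 2 + β * m * n + γ * n ^ 2) + B1 * m + B2 * n + C0) =
      (2 * E * γ * n + E * β * m + B2) ^ 2 + (U * m ^ 2 + W * m + (4 * E * γ * C0 - B2 ^ 2)) := by
    rw [hUd, hW]; ring
  have e2 : K * (U * K - |W|) ≤ U * m ^ 2 + W * m := by
    have a1 : -(|W| * |m|) ≤ W * m := by rw [← abs_mul]; exact neg_abs_le _
    have a2 : m ^ 2 = |m| * |m| := by rw [← sq_abs, sq]
    have a3 : U * K ≤ U * |m| := mul_le_mul_of_nonneg_left hm hU0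
    have a4 : K * (U * K - |W|) ≤ |m| * (U * |m| - |W|) :=
      mul_le_mul hm (by linarith) (by linarith) (abs_nonneg _)
    rw [a2]
    linarith
  have e3 : 0 < 4 * E * γ * (E * (α * m ^ 2 + β * m * n + γ * n ^ 2) + B1 * m + B2 * n + C0) := by
    rw [e]
    have := sq_nonneg (2 * E * γ * n + E * β * m + B2)
    linarith
  exact pos_of_mul_pos_left (a := _) (b := 4 * E * γ) (by linarith) (by positivity)

lemma TorCert.poly_pos (T : TorCert) (h1 : T.OK1) (a b c d : B) (hD : T.D a b c ≠ 0)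
    (h4 : T.OK4 a b c d) (m n : ℤ)
    (hmn : d = a ∨ d = b ∨ d = c → m ≠ T.s1 d c ∨ n ≠ T.s2 d c) :
    0 < T.poly (T.E a b c) (T.B1 a b c d) (T.B2 a b c d) (T.C0 a b c d) m n := by
  obtain ⟨hL, hκ, ha, hg, hb⟩ := h1
  obtain ⟨⟨f1, f2, f3, f4⟩, h5⟩ := h4
  have hE : 0 < T.E a b c := by
    unfold TorCert.E
    have := mul_self_pos.mpr hD
    positivity
  have hU : 0 ≤ 4 * T.α * T.γ - T.β ^ 2 := by nlinarith
  by_cases hm : (T.K : ℤ) ≤ |m|
  · exact far_pos _ _ _ _ _ _ _ _ m n (by linarith) hE hU f1 f3 hm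
  by_cases hn : (T.K : ℤ) ≤ |n|
  · have := far_pos T.γ T.β T.α _ (T.B2 a b c d) (T.B1 a b c d) (T.C0 a b c d) T.K n m
      (by linarith) hE (by linarith)
      (by rw [show 4 * T.γ * T.α = 4 * T.α * T.γ by ring]; exact f2)
      (by rw [show 4 * T.γ * T.α = 4 * T.α * T.γ by ring]; exact f4) hn
    unfold TorCert.poly TorCert.q
    linarith
  rw [not_le, abs_lt] at hm hn
  have := h5 (m + T.K).toNat (by omega) (n + T.K).toNat (by omega)
  rw [show (((m + T.K).toNat : ℕ) : ℤ) - T.K = m by omega,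
    show (((n + T.K).toNat : ℕ) : ℤ) - T.K = n by omega] at this
  exact this hmn

namespace Cov

variable {Ω : Type} {V : Volt Ω} [Finite Ω] [Nonempty Ω]

lemma spherical_of {F G : Cov V} {m : Bool} {lam : B → Cov V} (C : Chart F G m lam) (h : F < G)
    (h4 : rank G = rank F + 4) (T : ℕ) (hT : SphOK m F.pr G.pr T) : Spherical F G := by
  have : Fintype (Set.Ioo F G) := Fintype.ofFinite _
  have hd : ∀ x y z : B, det3 (fun i => (cv T x i.val : ℝ)) (fun i => (cv T y i.val : ℝ))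
      (fun i => (cv T z i.val : ℝ)) = (idet T x y z : ℝ) := by
    intro x y z
    simp only [det3, idet]
    push_cast
    rfl
  apply sphere_of_cert (graded.surf diamond F G h h4) (fun a i => (cv T a.1.pr i.val : ℝ))
  · intro a b c h1 h2
    rw [hd]
    exact_mod_cast (hT _ (C.inI_pr a.2.1 a.2.2) _ (C.inI_pr b.2.1 b.2.2) (lt_pr h1)
      _ (C.inI_pr c.2.1 c.2.2) (lt_pr h2)).1
  · intro a b c d h1 h2 ha hb hc
    obtain ⟨e1, e2⟩ := hT _ (C.inI_pr a.2.1 a.2.2) _ (C.inI_pr b.2.1 b.2.2) (lt_pr h1)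
      _ (C.inI_pr c.2.1 c.2.2) (lt_pr h2)
    have ne : ∀ u : Set.Ioo F G, d ≠ u → d.1.pr ≠ u.1.pr := fun u hu e =>
      hu (Subtype.ext (C.inj d.2.1.le d.2.2.le u.2.1.le u.2.2.le e))
    have e3 := e2 _ (C.inI_pr d.2.1 d.2.2) (ne a ha) (ne b hb) (ne c hc)
    rw [ell, hd, hd, hd, hd]
    have e4 : (idet T a.1.pr b.1.pr c.1.pr : ℝ) ≠ 0 := by exact_mod_cast e1
    have e5 : (idet T a.1.pr b.1.pr c.1.pr : ℝ) * ((idet T d.1.pr b.1.pr c.1.pr : ℝ) +
        idet T a.1.pr d.1.pr c.1.pr + idet T a.1.pr b.1.pr d.1.pr) <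
        (idet T a.1.pr b.1.pr c.1.pr : ℝ) * idet T a.1.pr b.1.pr c.1.pr := by exact_mod_cast e3
    rw [← mul_div_mul_left _ _ e4, div_lt_one (mul_self_pos.mpr e4)]
    exact e5

lemma toroidal_of {G : Cov V} {lam : B → Cov V} (C : Chart ⊥ G true lam) (h : ⊥ < G)
    (h4 : rank G = rank (⊥ : Cov V) + 4) (T : TorCert) (hT : T.OK G.pr) : Toroidal ⊥ G := by
  have : Fintype (Set.Ioo ⊥ G) := Fintype.ofFinite _
  obtain ⟨h1, h2, h3⟩ := hT
  let D : TorusData (Set.Ioo ⊥ G) :=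
    { L := T.L, α := T.α, β := T.β, γ := T.γ, κ := T.κ
      px := fun a => T.px a.1.pr
      py := fun a => T.py a.1.pr
      h := fun a => T.h a.1.pr
      s1 := fun a b => T.s1 a.1.pr b.1.pr
      s2 := fun a b => T.s2 a.1.pr b.1.pr
      l1 := fun a b c => T.n1 a.1.pr b.1.pr c.1.pr / T.D a.1.pr b.1.pr c.1.pr
      l2 := fun a b c => T.n2 a.1.pr b.1.pr c.1.pr / T.D a.1.pr b.1.pr c.1.pr
      l0 := fun a b c => T.n0 a.1.pr b.1.pr c.1.pr / T.D a.1.pr b.1.pr c.1.pr }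
  have hI : ∀ a : Set.Ioo ⊥ G, inI true 0 G.pr a.1.pr = true := fun a => C.inI_pr a.2.1 a.2.2
  have hD : ∀ a b c : Set.Ioo ⊥ G, a < b → b < c → (T.D a.1.pr b.1.pr c.1.pr : ℝ) ≠ 0 := by
    intro a b c h1 h2
    exact_mod_cast (h3 _ (hI a) _ (hI b) (lt_pr h1) _ (hI c) (lt_pr h2)).1
  have hpw : ∀ (a b c : Set.Ioo ⊥ G), a < b → b < c → ∀ s t h : ℝ,
      (T.D a.1.pr b.1.pr c.1.pr : ℝ) * (D.pw a b c s t + h) =
        T.D a.1.pr b.1.pr c.1.pr * (T.α * s ^ 2 + T.β * s * t + T.γ * t ^ 2 + h) -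
          (T.n1 a.1.pr b.1.pr c.1.pr * s + T.n2 a.1.pr b.1.pr c.1.pr * t +
            T.n0 a.1.pr b.1.pr c.1.pr) := by
    intro a b c h1 h2 s t h
    have := hD a b c h1 h2
    simp only [TorusData.pw, D]
    field_simp
    ring
  apply TorusData.Good.torus (T := D) _ (graded.surf diamond ⊥ G h h4)
  obtain ⟨hL, hκ, ha, hg, hb⟩ := id h1
  constructor
  · change (0 : ℝ) < T.L
    exact_mod_cast hL
  · change (0 : ℝ) < T.κ
    exact_mod_cast hκ
  · intro s t
    change (T.κ : ℝ) * _ ≤ T.α * s ^ 2 + T.β * s * t + T.γ * t ^ 2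
    have a1 : (0 : ℝ) ≤ T.α - T.κ := by exact_mod_cast sub_nonneg.mpr ha
    have a2 : (0 : ℝ) ≤ T.γ - T.κ := by exact_mod_cast sub_nonneg.mpr hg
    have a3 : (T.β : ℝ) ^ 2 ≤ 4 * (T.α - T.κ) * (T.γ - T.κ) := by exact_mod_cast hb
    have a4 : |(T.β : ℝ) * s * t| ≤ (T.α - T.κ) * s ^ 2 + (T.γ - T.κ) * t ^ 2 := by
      apply abs_le_of_sq_le_sq' _ (by positivity) |> fun h => abs_le.mpr h
      nlinarith [sq_nonneg ((T.α - T.κ) * s ^ 2 - (T.γ - T.κ) * t ^ 2),
        mul_le_mul_of_nonneg_right a3 (sq_nonneg (s * t))]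
    have := neg_abs_le ((T.β : ℝ) * s * t)
    linarith
  · intro a b c h1 h2'
    exact (h2 _ (hI a) _ (hI b) (le_def _ _ |>.mp h1).1 _ (hI c) (le_def _ _ |>.mp h2').1).1
  · intro a b c h1 h2'
    exact (h2 _ (hI a) _ (hI b) (le_def _ _ |>.mp h1).1 _ (hI c) (le_def _ _ |>.mp h2').1).2
  · intro a b c h1 h2
    have := hD a b c h1 h2
    simp only [TorCert.D, TorCert.X, TorCert.Y] at this
    simp only [TorusData.X, TorusData.Y, D]
    push_cast at this ⊢
    simpa using this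
  · intro a b c h1 h2
    apply mul_left_cancel₀ (hD a b c h1 h2)
    rw [hpw a b c h1 h2]
    simp only [TorusData.X, TorusData.Y, D, TorCert.D, TorCert.X, TorCert.Y, TorCert.n1,
      TorCert.n2, TorCert.n0, TorCert.Ht, TorCert.Hc, TorCert.q]
    push_cast
    ring
  · intro a b c h1 h2
    apply mul_left_cancel₀ (hD a b c h1 h2)
    rw [hpw a b c h1 h2]
    simp only [TorusData.X, TorusData.Y, D, TorCert.D, TorCert.X, TorCert.Y, TorCert.n1,
      TorCert.n2, TorCert.n0, TorCert.Ht, TorCert.Hc, TorCert.q]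
    push_cast
    ring
  · intro a b c h1 h2
    apply mul_left_cancel₀ (hD a b c h1 h2)
    rw [hpw a b c h1 h2]
    simp only [TorusData.X, TorusData.Y, D, TorCert.D, TorCert.X, TorCert.Y, TorCert.n1,
      TorCert.n2, TorCert.n0, TorCert.Ht, TorCert.Hc, TorCert.q]
    push_cast
    ring
  · intro a b c d m n l1 l2 hmn
    obtain ⟨e1, e2⟩ := h3 _ (hI a) _ (hI b) (lt_pr l1) _ (hI c) (lt_pr l2)
    have eq : ∀ u : Set.Ioo ⊥ G, d.1.pr = u.1.pr → d = u := fun u e =>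
      Subtype.ext (C.inj d.2.1.le d.2.2.le u.2.1.le u.2.2.le e)
    have := T.poly_pos h1 _ _ _ _ e1 (e2 _ (hI d)) m n (by
      intro hh
      apply hmn
      rcases hh with e | e | e
      · exact Or.inl (eq a e)
      · exact Or.inr (Or.inl (eq b e))
      · exact Or.inr (Or.inr (eq c e)))
    have e3 : (0 : ℝ) < T.poly (T.E a.1.pr b.1.pr c.1.pr) (T.B1 a.1.pr b.1.pr c.1.pr d.1.pr)
      (T.B2 a.1.pr b.1.pr c.1.pr d.1.pr) (T.C0 a.1.pr b.1.pr c.1.pr d.1.pr) m n := by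
      exact_mod_cast this
    have e4 := hD a b c l1 l2
    apply pos_of_mul_pos_left (b := (T.D a.1.pr b.1.pr c.1.pr : ℝ) * T.D a.1.pr b.1.pr c.1.pr) _
      (mul_self_nonneg _)
    refine lt_of_lt_of_eq e3 ?_
    symm
    rw [mul_comm, mul_assoc, hpw a b c l1 l2]
    simp only [TorusData.X, TorusData.Y, D, TorCert.poly, TorCert.E, TorCert.B1, TorCert.B2,
      TorCert.C0, TorCert.Hc, TorCert.q]
    push_cast
    ring

lemma facet (F : Cov V) (hF : rank F = 4) : Spherical ⊥ F ∨ Toroidal ⊥ F := by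
  cases F with
  | bot => exact absurd (rk_zero.symm.trans hF) (by decide)
  | top => exact absurd (rk_last.symm.trans hF) (by decide)
  | mid σ x hx =>
    have h4 : rank (mid σ x hx : Cov V) = rank (⊥ : Cov V) + 4 := by rw [hF, graded.bot]
    have C := chart_down σ x hx
    by_cases h45 : σ = 45
    · subst h45
      have hm : V.mark x = true := by
        have := hx.2.2
        revert this
        cases V.mark x <;> decide +kernel
      rw [hm] at C
      exact Or.inr (toroidal_of C (bot_lt_mid _ _ _) h4 TOR1 tor1_ok)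
    by_cases h46 : σ = 46
    · subst h46
      have hm : V.mark x = true := by
        have := hx.2.2
        revert this
        cases V.mark x <;> decide +kernel
      rw [hm] at C
      exact Or.inr (toroidal_of C (bot_lt_mid _ _ _) h4 TOR2 tor2_ok)
    exact Or.inl (spherical_of C (bot_lt_mid _ _ _) h4 _ (sph_facet _ σ hx.2.2 hF h45 h46))

lemma facet45 (x : Ω) (hm : V.mark x = true) (hx) :
    rank (mid 45 x hx : Cov V) = 4 ∧ Toroidal ⊥ (mid 45 x hx : Cov V) := by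
  have hF : rank (mid 45 x hx : Cov V) = 4 := by change rk 45 = 4; decide +kernel
  have h4 : rank (mid 45 x hx : Cov V) = rank (⊥ : Cov V) + 4 := by rw [hF, graded.bot]
  have C := chart_down 45 x hx
  rw [hm] at C
  exact ⟨hF, toroidal_of C (bot_lt_mid _ _ _) h4 TOR1 tor1_ok⟩

lemma vertex (v : Cov V) (hv : rank v = 1) : Spherical v ⊤ := by
  cases v with
  | bot => exact absurd (rk_zero.symm.trans hv) (by decide)
  | top => exact absurd (rk_last.symm.trans hv) (by decide)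
  | mid σ x hx =>
    have h4 : rank (⊤ : Cov V) = rank (mid σ x hx : Cov V) + 4 := by rw [hv, graded.top]
    exact spherical_of (chart_up σ x hx) (mid_lt_top _ _ _) h4 _ (sph_vertex _ σ hx.2.2 hv)

end Cov

end Pool.Agent.Lib.MP_a63caf_co
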