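import Pool.Agent.Lib.MP_a63caf_co.Sd
import Pool.Agent.Lib.MP_a63caf_co.Chains
import Pool.Agent.Lib.MP_a63caf_co.Certs2
import Pool.Agent.Lib.MP_a63caf_co.Sections

set_option autoImplicit false
set_option linter.unusedSectionVars false

/-! Facets and vertex-figures of the barycentric subdivision. -/

namespace Pool.Agent.Lib.MP_a63caf_co

lemma sphere_of_icert {Q : Type} [PartialOrder Q] [Finite Q] (hQ : Surf Q) (w : Q → Fin 3 → ℤ)
    (h : ∀ a b c, a < b → b < c → idet3 (w a) (w b) (w c) ≠ 0 ∧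
      ∀ d, d ≠ a → d ≠ b → d ≠ c → Below (w a) (w b) (w c) (w d)) :
    Nonempty (realization Q ≃ₜ Metric.sphere (0 : EuclideanSpace ℝ (Fin 3)) 1) := by
  have : Fintype Q := Fintype.ofFinite _
  have hd : ∀ x y z : Fin 3 → ℤ, det3 (fun i => (x i : ℝ)) (fun i => (y i : ℝ))
      (fun i => (z i : ℝ)) = (idet3 x y z : ℝ) := by
    intro x y z
    simp only [det3, idet3]
    push_cast
    rfl
  apply sphere_of_cert hQ (fun a i => (w a i : ℝ))
  · intro a b c h1 h2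
    rw [hd]
    exact_mod_cast (h a b c h1 h2).1
  · intro a b c d h1 h2 ha hb hc
    obtain ⟨e1, e2⟩ := h a b c h1 h2
    have e3 := e2 d ha hb hc
    rw [ell, hd, hd, hd, hd]
    have e4 : (idet3 (w a) (w b) (w c) : ℝ) ≠ 0 := by exact_mod_cast e1
    have e5 : (idet3 (w a) (w b) (w c) : ℝ) * ((idet3 (w d) (w b) (w c) : ℝ) +
        idet3 (w a) (w d) (w c) + idet3 (w a) (w b) (w d)) <
        (idet3 (w a) (w b) (w c) : ℝ) * idet3 (w a) (w b) (w c) := by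
      unfold Below at e3
      exact_mod_cast e3
    rw [← mul_div_mul_left _ _ e4, div_lt_one (mul_self_pos.mpr e4)]
    exact e5

variable {P : Type} [PartialOrder P] [BoundedOrder P]

/-- The proper faces other than `x` that are comparable with `x`. -/
def Lk (x : P) : Set P := {y | (⊥ < y ∧ y < ⊤) ∧ y ≠ x ∧ (y ≤ x ∨ x ≤ y)}

namespace Sd

/-- The vertex of the subdivision attached to a proper face. -/
def sing (x : P) (hx : ⊥ < x ∧ x < ⊤) : Sd P := mk {x} (isCh_singleton hx)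

lemma sing_le {x : P} {hx : ⊥ < x ∧ x < ⊤} {a : Sd P} : sing x hx ≤ a ↔ x ∈ a.1 :=
  Set.singleton_subset_iff

lemma sing_lt_top (x : P) (hx : ⊥ < x ∧ x < ⊤) : sing x hx < ⊤ := mk_lt_top _ _

lemma rank_sing (x : P) (hx : ⊥ < x ∧ x < ⊤) : rank (sing x hx) = 1 := by
  rw [rank_of_lt (sing_lt_top x hx)]
  exact Set.ncard_singleton x

lemma lt_top_of_rank {a : Sd P} (h : rank a < 5) : a < ⊤ := by
  rcases eq_top_or_lt_top a with rfl | h1
  · rw [rank_top] at h; omega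
  · exact h1

lemma exists_sing {a : Sd P} (h : rank a = 1) : ∃ x hx, a = sing x hx := by
  have h1 : a < ⊤ := lt_top_of_rank (by omega)
  rw [rank_of_lt h1, Set.ncard_eq_one] at h
  obtain ⟨x, hx⟩ := h
  exact ⟨x, (lt_top_iff.mp h1).2 x (hx ▸ Set.mem_singleton x), ext hx⟩

lemma vertex_homeo [Finite P] (x : P) (hx : ⊥ < x ∧ x < ⊤) (L : Set P) (hL : L = Lk x) :
    Nonempty (realization (Set.Ioo (sing x hx) ⊤) ≃ₜ realization L) := by
  subst hL
  have mem : ∀ (a : Set.Ioo (sing x hx) (⊤ : Sd P)) (y : P), y ∈ a.1.1 → y ≠ x → y ∈ Lk x := by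
    intro a y hy hne
    have h1 := lt_top_iff.mp a.2.2
    exact ⟨h1.2 y hy, hne, h1.1.total hy (sing_le.mp a.2.1.le)⟩
  apply realization_chains (fun (a : Set.Ioo (sing x hx) (⊤ : Sd P)) => {y : Lk x | y.1 ∈ a.1.1})
  · intro s t
    refine ⟨fun h y hy => h hy, fun h y hy => ?_⟩
    by_cases e : y = x
    · rw [e]; exact sing_le.mp t.2.1.le
    · exact h (a := ⟨y, mem s y hy e⟩) hy
  · intro s
    obtain ⟨y, hy, hy'⟩ := Set.exists_of_ssubset s.2.1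
    exact ⟨⟨y, mem s y hy hy'⟩, hy⟩
  · intro s y hy z hz _
    exact (lt_top_iff.mp s.2.2).1.total hy hz
  · rintro S ⟨y0, hy0⟩ hS
    have hc : IsCh (insert x (Subtype.val '' S)) := by
      constructor
      · apply IsChain.insert
        · rintro _ ⟨a, ha, rfl⟩ _ ⟨b, hb, rfl⟩ _
          exact hS.total ha hb
        · rintro _ ⟨a, _, rfl⟩ _
          exact a.2.2.2.symm
      · rintro _ (rfl | ⟨a, _, rfl⟩)
        · exact hx
        · exact a.2.1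
    refine ⟨⟨mk _ hc, ⟨sing_le.mpr (Set.mem_insert _ _), fun h => ?_⟩, mk_lt_top _ _⟩, ?_⟩
    · exact y0.2.2.1 (h (Set.mem_insert_of_mem _ ⟨y0, hy0, rfl⟩))
    · ext y
      constructor
      · rintro (h | ⟨z, hz, h⟩)
        · exact absurd h y.2.2.1
        · exact Subtype.ext h ▸ hz
      · exact fun h => Set.mem_insert_of_mem _ ⟨y, h, rfl⟩

lemma facet_iso [Finite P] (a : Sd P) (h : rank a = 4) :
    Nonempty (Set.Iic a ≃o Finset (Fin 4)) := by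
  classical
  have h1 : a < ⊤ := lt_top_of_rank (by omega)
  have hc := lt_top_iff.mp h1
  rw [rank_of_lt h1, ← Nat.card_coe_set_eq] at h
  let e : a.1 ≃ Fin 4 := Finite.equivFinOfCardEq h
  let φ : Set.Iic a → Finset (Fin 4) := fun b => Finset.univ.filter fun j => (e.symm j).1 ∈ b.1.1
  have hφ : ∀ b j, j ∈ φ b ↔ (e.symm j).1 ∈ b.1.1 := fun b j => by simp [φ]
  have hle : ∀ b c, φ b ≤ φ c ↔ b ≤ c := by
    intro b c
    refine ⟨fun h2 y hy => ?_, fun h2 j hj => (hφ c j).mpr (h2 ((hφ b j).mp hj))⟩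
    have h3 : e ⟨y, b.2 hy⟩ ∈ φ b := by rw [hφ, e.symm_apply_apply]; exact hy
    have h4 := (hφ c _).mp (h2 h3)
    rwa [e.symm_apply_apply] at h4
  refine ⟨RelIso.ofSurjective (OrderEmbedding.ofMapLEIff φ hle) fun u => ?_⟩
  have hs : (fun j => (e.symm j).1) '' (u : Set (Fin 4)) ⊆ a.1 := by
    rintro _ ⟨j, _, rfl⟩
    exact (e.symm j).2
  refine ⟨⟨mk _ (hc.mono hs), hs⟩, ?_⟩
  ext j
  change j ∈ φ _ ↔ _
  rw [hφ]
  constructor
  · rintro ⟨k, hk, h2⟩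
    rw [← e.symm.injective (Subtype.ext h2)]
    exact hk
  · exact fun hj => ⟨j, hj, rfl⟩

variable [Finite P] {ρ : P → ℕ} (g : Graded ρ 5)
include g

lemma facet_spherical (hP : IsPolytope 4 P) (a : Sd P) (h : rank a = 4) : Spherical ⊥ a := by
  obtain ⟨ψ⟩ := facet_iso a h
  have h0 : rank (⊥ : Sd P) = 0 := (graded g).bot
  have hb : ⊥ < a := bot_lt_iff_ne_bot.mpr fun e => by rw [e] at h; omega
  let w : Set.Ioo ⊥ a → Finset (Fin 4) := fun y => ψ ⟨y.1, y.2.2.le⟩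
  have w1 : ∀ y, w y ≠ ∅ := by
    intro y e
    have h1 : ψ ⟨y.1, y.2.2.le⟩ ≤ ψ ⟨⊥, hb.le⟩ := by
      change w y ≤ _
      rw [e]
      exact Finset.empty_subset _
    exact y.2.1.not_ge (ψ.le_iff_le.mp h1)
  have w2 : ∀ y, w y ≠ Finset.univ := by
    intro y e
    have h1 : ψ ⟨a, le_refl a⟩ ≤ ψ ⟨y.1, y.2.2.le⟩ := by
      change _ ≤ w y
      rw [e]
      exact Finset.subset_univ _
    exact y.2.2.not_ge (ψ.le_iff_le.mp h1)
  have w3 : ∀ y z, y < z → w y ⊂ w z := fun y z h1 =>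
    ψ.strictMono (a := ⟨y.1, y.2.2.le⟩) (b := ⟨z.1, z.2.2.le⟩) h1
  have w4 : ∀ y z, y ≠ z → w y ≠ w z := fun y z h1 e =>
    h1 (Subtype.ext (congrArg Subtype.val (ψ.injective e) :))
  apply sphere_of_icert ((graded g).surf (diamond g hP) ⊥ a hb (by omega)) (fun y => tv (w y))
  intro x y z h1 h2
  obtain ⟨e1, e2⟩ := tet_ok _ (w1 x) _ (w3 x y h1) _ (w3 y z h2) (w2 z)
  exact ⟨e1, fun d a1 a2 a3 => e2 _ (w1 d) (w2 d) (w4 _ _ a1) (w4 _ _ a2) (w4 _ _ a3)⟩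

end Sd

variable {ρ : P → ℕ} (g : Graded ρ 5)
include g

lemma Lk_vertex (x : P) (h : ρ x = 1) : Set.Ioo x ⊤ = Lk x := by
  have hx : ⊥ < x := bot_lt_iff_ne_bot.mpr fun e => by rw [e, g.bot] at h; omega
  ext y
  refine ⟨fun hy => ⟨⟨hx.trans hy.1, hy.2⟩, hy.1.ne', Or.inr hy.1.le⟩, ?_⟩
  rintro ⟨⟨h1, h2⟩, h3, h4 | h4⟩
  · have := g.mono _ _ h1
    have := g.mono _ _ (lt_of_le_of_ne h4 h3)
    omega
  · exact ⟨lt_of_le_of_ne h4 h3.symm, h2⟩

lemma Lk_facet (x : P) (h : ρ x = 4) : Set.Ioo ⊥ x = Lk x := by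
  have hx : x < ⊤ := lt_top_iff_ne_top.mpr fun e => by rw [e, g.top] at h; omega
  ext y
  refine ⟨fun hy => ⟨⟨hy.1, hy.2.trans hx⟩, hy.2.ne, Or.inl hy.2.le⟩, ?_⟩
  rintro ⟨⟨h1, h2⟩, h3, h4 | h4⟩
  · exact ⟨h1, lt_of_le_of_ne h4 h3⟩
  · have := g.mono _ _ h2
    have := g.mono _ _ (lt_of_le_of_ne h4 h3.symm)
    have := g.top
    omega

lemma surf_Lk
    (hdia : ∀ F G : P, F < G → ρ G = ρ F + 2 → {H : P | F < H ∧ H < G}.ncard = 2)
    (x : P) (hr : ρ x = 2 ∨ ρ x = 3) : Surf (Lk x) := by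
  have hb := g.bot
  have ht := g.top
  have hx1 : ⊥ < x := bot_lt_iff_ne_bot.mpr fun e => by rw [e] at hr; omega
  have hx2 : x < ⊤ := lt_top_iff_ne_top.mpr fun e => by rw [e] at hr; omega
  have other : ∀ A C y : P, A < y → y < C → ρ C = ρ A + 2 → ∃ z, z ≠ y ∧ A < z ∧ z < C := by
    intro A C y h1 h2 h3
    obtain ⟨u, v, huv, e⟩ := Set.ncard_eq_two.mp (hdia A C (h1.trans h2) h3)
    have hu : u ∈ {H : P | A < H ∧ H < C} := by rw [e]; simp
    have hv : v ∈ {H : P | A < H ∧ H < C} := by rw [e]; simp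
    by_cases hx : u = y
    · exact ⟨v, fun h => huv (hx.trans h.symm), hv⟩
    · exact ⟨u, hx, hu⟩
  have lo : ∀ y, ⊥ < y → y < x → y ∈ Lk x := fun y h1 h2 =>
    ⟨⟨h1, h2.trans hx2⟩, h2.ne, Or.inl h2.le⟩
  have hi : ∀ y, x < y → y < ⊤ → y ∈ Lk x := fun y h1 h2 =>
    ⟨⟨hx1.trans h1, h2⟩, h1.ne', Or.inr h1.le⟩
  have cmp : ∀ y : Lk x, y.1 < x ∨ x < y.1 := fun y =>
    y.2.2.2.imp (fun h => lt_of_le_of_ne h y.2.2.1) (fun h => lt_of_le_of_ne h y.2.2.1.symm)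
  have shape : ∀ a b c : Lk x, a < b → b < c → a.1 < x ∧ x < c.1 ∧ ρ a = 1 ∧ ρ c = 4 ∧
      ((b.1 < x ∧ ρ b = 2 ∧ ρ x = 3) ∨ (x < b.1 ∧ ρ b = 3 ∧ ρ x = 2)) := by
    intro a b c h1 h2
    have r0 := g.mono _ _ a.2.1.1
    have r1 := g.mono a.1 b.1 h1
    have r2 := g.mono b.1 c.1 h2
    have r3 := g.mono _ _ c.2.1.2
    have ha : a.1 < x := (cmp a).resolve_right fun h => by
      have := g.mono _ _ h
      omega
    have hc : x < c.1 := (cmp c).resolve_left fun h => by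
      have := g.mono _ _ h
      omega
    have r4 := g.mono _ _ ha
    have r5 := g.mono _ _ hc
    rcases cmp b with h | h
    · have := g.mono _ _ h
      exact ⟨ha, hc, by omega, by omega, Or.inl ⟨h, by omega, by omega⟩⟩
    · have := g.mono _ _ h
      exact ⟨ha, hc, by omega, by omega, Or.inr ⟨h, by omega, by omega⟩⟩
  constructor
  · intro S hS
    have hch : IsChain (· ≤ ·) (insert x (Subtype.val '' S)) := by
      apply IsChain.insert
      · rintro _ ⟨a, ha, rfl⟩ _ ⟨b, hb, rfl⟩ _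
        exact hS.total ha hb
      · rintro _ ⟨a, _, rfl⟩ _
        exact a.2.2.2.symm
    obtain ⟨A, hA⟩ := hch.exists_subset_flag
    have hx : x ∈ A := hA (Set.mem_insert _ _)
    have inL : ∀ y ∈ A, 0 < ρ y → ρ y < 5 → ρ y ≠ ρ x → y ∈ Lk x := fun y hy h1 h2 h3 =>
      ⟨⟨g.flag_lt A A.bot_mem hy (by omega), g.flag_lt A hy A.top_mem (by omega)⟩,
        fun e => h3 (e ▸ rfl), A.le_or_le hy hx⟩
    obtain ⟨a, ha, ra⟩ := g.flag_exists A 1 (by omega)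
    obtain ⟨b, hb', rb⟩ := g.flag_exists A (5 - ρ x) (by omega)
    obtain ⟨c, hc, rc⟩ := g.flag_exists A 4 (by omega)
    have hab : a < b := g.flag_lt A ha hb' (by omega)
    have hbc : b < c := g.flag_lt A hb' hc (by omega)
    refine ⟨⟨a, inL a ha (by omega) (by omega) (by omega)⟩,
      ⟨b, inL b hb' (by omega) (by omega) (by omega)⟩,
      ⟨c, inL c hc (by omega) (by omega) (by omega)⟩,
      hab, hbc, fun y hy => ?_⟩
    have hyA : y.1 ∈ A := hA (Set.mem_insert_of_mem _ ⟨y, hy, rfl⟩)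
    have r0 := g.mono _ _ y.2.1.1
    have r1 := g.mono _ _ y.2.1.2
    have r2 : ρ y ≠ ρ x := fun e => y.2.2.1 (g.flag_eq A hyA hx e)
    obtain h | h | h : ρ y = ρ a ∨ ρ y = ρ b ∨ ρ y = ρ c := by omega
    · exact Or.inl (Subtype.ext (g.flag_eq A hyA ha h))
    · exact Or.inr (Or.inl (Subtype.ext (g.flag_eq A hyA hb' h)))
    · exact Or.inr (Or.inr (Subtype.ext (g.flag_eq A hyA hc h)))
  · intro a b c h1 h2
    obtain ⟨s1, s2, s3, s4, ⟨s5, s6, s7⟩ | ⟨s5, s6, s7⟩⟩ := shape a b c h1 h2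
    · obtain ⟨z, z1, z2, z3⟩ := other ⊥ b a a.2.1.1 h1 (by omega)
      exact ⟨⟨z, lo z z2 (z3.trans s5)⟩, fun e => z1 (congrArg Subtype.val e), z3⟩
    · obtain ⟨z, z1, z2, z3⟩ := other ⊥ x a a.2.1.1 s1 (by omega)
      exact ⟨⟨z, lo z z2 z3⟩, fun e => z1 (congrArg Subtype.val e), z3.trans s5⟩
  · intro a b c h1 h2
    obtain ⟨s1, s2, s3, s4, ⟨s5, s6, s7⟩ | ⟨s5, s6, s7⟩⟩ := shape a b c h1 h2
    · obtain ⟨z, z1, z2, z3⟩ := other a x b h1 s5 (by omega)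
      exact ⟨⟨z, lo z (a.2.1.1.trans z2) z3⟩, fun e => z1 (congrArg Subtype.val e), z2,
        z3.trans s2⟩
    · obtain ⟨z, z1, z2, z3⟩ := other x c b s5 h2 (by omega)
      exact ⟨⟨z, hi z z2 (z3.trans c.2.1.2)⟩, fun e => z1 (congrArg Subtype.val e),
        s1.trans z2, z3⟩
  · intro a b c h1 h2
    obtain ⟨s1, s2, s3, s4, ⟨s5, s6, s7⟩ | ⟨s5, s6, s7⟩⟩ := shape a b c h1 h2
    · obtain ⟨z, z1, z2, z3⟩ := other x ⊤ c s2 c.2.1.2 (by omega)
      exact ⟨⟨z, hi z z2 z3⟩, fun e => z1 (congrArg Subtype.val e), s5.trans z2⟩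
    · obtain ⟨z, z1, z2, z3⟩ := other b ⊤ c h2 c.2.1.2 (by omega)
      exact ⟨⟨z, hi z (s5.trans z2) z3⟩, fun e => z1 (congrArg Subtype.val e), z2⟩

end Pool.Agent.Lib.MP_a63caf_co
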