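import Pool.Agent.Lib.MP_a63caf_co.Defs

set_option autoImplicit false
set_option linter.unusedSectionVars false

/-! A two-dimensional order complex realised as the boundary of a convex polytope is a sphere. -/

namespace Pool.Agent.Lib.MP_a63caf_co

/-- The order complex of `Q` is a closed two-dimensional pseudomanifold. -/
structure Surf (Q : Type) [PartialOrder Q] : Prop where
  ext : ∀ S : Set Q, IsChain (· ≤ ·) S → ∃ a b c, a < b ∧ b < c ∧ S ⊆ {a, b, c}
  adj1 : ∀ a b c : Q, a < b → b < c → ∃ a', a' ≠ a ∧ a' < b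
  adj2 : ∀ a b c : Q, a < b → b < c → ∃ b', b' ≠ b ∧ a < b' ∧ b' < c
  adj3 : ∀ a b c : Q, a < b → b < c → ∃ c', c' ≠ c ∧ b < c'

variable {Q : Type} [PartialOrder Q] [Fintype Q]

lemma mem_realization (x : Q → ℝ) : x ∈ realization Q ↔
    (∀ a, 0 ≤ x a) ∧ ∑ a, x a = 1 ∧ ∀ a b, x a ≠ 0 → x b ≠ 0 → a ≤ b ∨ b ≤ a := by
  rw [realization, Set.mem_ofPred_eq, finsum_eq_sum_of_fintype]
  refine and_congr_right fun _ => and_congr_right fun _ => ⟨fun h a b ha hb => ?_, fun h => ?_⟩
  · exact h.total ha hb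
  · intro a ha b hb _
    exact h a b ha hb

lemma isCompact_realization : IsCompact (realization Q) := by
  have h1 : realization Q = stdSimplex ℝ Q ∩
      ⋂ a : Q, ⋂ b : Q, ⋂ _ : ¬ (a ≤ b ∨ b ≤ a), {x : Q → ℝ | x a * x b = 0} := by
    ext x
    rw [mem_realization]
    simp only [stdSimplex, Set.mem_inter_iff, Set.mem_ofPred_eq, Set.mem_iInter, mul_eq_zero]
    constructor
    · rintro ⟨h1, h2, h3⟩
      refine ⟨⟨h1, h2⟩, fun a b h => ?_⟩
      by_contra hc
      push Not at hc
      exact h (h3 a b hc.1 hc.2)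
    · rintro ⟨⟨h1, h2⟩, h3⟩
      refine ⟨h1, h2, fun a b ha hb => ?_⟩
      by_contra hc
      rcases h3 a b hc with h | h
      · exact ha h
      · exact hb h
  rw [h1]
  apply (isCompact_stdSimplex ℝ Q).inter_right
  refine isClosed_iInter fun a => isClosed_iInter fun b => isClosed_iInter fun _ => ?_
  exact isClosed_eq (by fun_prop) continuous_const

lemma Surf.rep (hQ : Surf Q) (x : Q → ℝ) (hx : x ∈ realization Q) :
    ∃ a b c, a < b ∧ b < c ∧ ∀ d, d ≠ a → d ≠ b → d ≠ c → x d = 0 := by
  obtain ⟨a, b, c, h1, h2, h3⟩ := hQ.ext _ hx.2.2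
  refine ⟨a, b, c, h1, h2, fun d ha hb hc => ?_⟩
  by_contra h
  rcases h3 h with h | h | h
  · exact ha h
  · exact hb h
  · exact hc h

lemma sum_three {a b c : Q} (h1 : a < b) (h2 : b < c) (f : Q → ℝ)
    (h : ∀ d, d ≠ a → d ≠ b → d ≠ c → f d = 0) : ∑ d, f d = f a + f b + f c := by
  classical
  have hab : a ≠ b := h1.ne
  have hbc : b ≠ c := h2.ne
  have hac : a ≠ c := (h1.trans h2).ne
  rw [← Finset.sum_subset (Finset.subset_univ {a, b, c})]
  · rw [Finset.sum_insert (by simp [hab, hac]), Finset.sum_pair hbc, add_assoc]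
  · intro d _ hd
    simp only [Finset.mem_insert, Finset.mem_singleton, not_or] at hd
    exact h d hd.1 hd.2.1 hd.2.2

open Classical in
/-- The point of the triangle `a < b < c` with barycentric coordinates `s, t, u`. -/
noncomputable def tri (a b c : Q) (s t u : ℝ) : Q → ℝ :=
  fun d => if d = a then s else if d = b then t else if d = c then u else 0

section
variable {a b c : Q} (h1 : a < b) (h2 : b < c) (s t u : ℝ)
include h1 h2

omit [Fintype Q] h1 h2 in
lemma tri_a : tri a b c s t u a = s := by simp [tri]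

omit [Fintype Q] h2 in
lemma tri_b : tri a b c s t u b = t := by simp [tri, h1.ne']

omit [Fintype Q] in
lemma tri_c : tri a b c s t u c = u := by simp [tri, h2.ne', (h1.trans h2).ne']

omit [Fintype Q] h1 h2 in
lemma tri_other (d : Q) (ha : d ≠ a) (hb : d ≠ b) (hc : d ≠ c) : tri a b c s t u d = 0 := by
  simp [tri, ha, hb, hc]

lemma tri_mem (hs : 0 ≤ s) (ht : 0 ≤ t) (hu : 0 ≤ u) (h : s + t + u = 1) :
    tri a b c s t u ∈ realization Q := by
  rw [mem_realization]
  refine ⟨fun d => ?_, ?_, fun d e hd he => ?_⟩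
  · unfold tri
    split_ifs <;> first | assumption | exact le_rfl
  · rw [sum_three h1 h2 _ (tri_other s t u), tri_a, tri_b h1, tri_c h1 h2, h]
  · have hd' : d = a ∨ d = b ∨ d = c := by
      by_contra hc
      push Not at hc
      exact hd (tri_other s t u d hc.1 hc.2.1 hc.2.2)
    have he' : e = a ∨ e = b ∨ e = c := by
      by_contra hc
      push Not at hc
      exact he (tri_other s t u e hc.1 hc.2.1 hc.2.2)
    have h3 := h1.trans h2
    rcases hd' with rfl | rfl | rfl <;> rcases he' with rfl | rfl | rfl <;>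
      first | exact Or.inl le_rfl | exact Or.inl (le_of_lt ‹_›) | exact Or.inr (le_of_lt ‹_›)

end

def det3 (x y z : Fin 3 → ℝ) : ℝ :=
  x 0 * (y 1 * z 2 - y 2 * z 1) - x 1 * (y 0 * z 2 - y 2 * z 0) + x 2 * (y 0 * z 1 - y 1 * z 0)

noncomputable def ell (x y z u : Fin 3 → ℝ) : ℝ :=
  (det3 u y z + det3 x u z + det3 x y u) / det3 x y z

lemma ell_sum (x y z : Fin 3 → ℝ) (w : Q → ℝ) (v : Q → Fin 3 → ℝ) :
    ell x y z (fun i => ∑ d, w d * v d i) = ∑ d, w d * ell x y z (v d) := by
  have : ∀ u : Fin 3 → ℝ, ell x y z u = ell x y z ![1, 0, 0] * u 0 + ell x y z ![0, 1, 0] * u 1 +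
      ell x y z ![0, 0, 1] * u 2 := by
    intro u
    simp only [ell, det3, Matrix.cons_val_zero, Matrix.cons_val_one, Matrix.cons_val]
    ring
  rw [this]
  simp only [Finset.mul_sum, ← Finset.sum_add_distrib]
  apply Finset.sum_congr rfl
  intro d _
  rw [this (v d)]
  ring

theorem sphere_of_cert (hQ : Surf Q) (v : Q → Fin 3 → ℝ)
    (hdet : ∀ a b c, a < b → b < c → det3 (v a) (v b) (v c) ≠ 0)
    (hcv : ∀ a b c d, a < b → b < c → d ≠ a → d ≠ b → d ≠ c → ell (v a) (v b) (v c) (v d) < 1) :
    Nonempty (realization Q ≃ₜ Metric.sphere (0 : EuclideanSpace ℝ (Fin 3)) 1) := by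
  classical
  have ea : ∀ a b c, a < b → b < c → ell (v a) (v b) (v c) (v a) = 1 := by
    intro a b c h1 h2
    rw [ell, div_eq_one_iff_eq (hdet a b c h1 h2)]
    simp only [det3]; ring
  have eb : ∀ a b c, a < b → b < c → ell (v a) (v b) (v c) (v b) = 1 := by
    intro a b c h1 h2
    rw [ell, div_eq_one_iff_eq (hdet a b c h1 h2)]
    simp only [det3]; ring
  have ec : ∀ a b c, a < b → b < c → ell (v a) (v b) (v c) (v c) = 1 := by
    intro a b c h1 h2
    rw [ell, div_eq_one_iff_eq (hdet a b c h1 h2)]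
    simp only [det3]; ring
  have ele : ∀ a b c d, a < b → b < c → ell (v a) (v b) (v c) (v d) ≤ 1 := by
    intro a b c d h1 h2
    by_cases ha : d = a
    · rw [ha, ea a b c h1 h2]
    by_cases hb : d = b
    · rw [hb, eb a b c h1 h2]
    by_cases hc : d = c
    · rw [hc, ec a b c h1 h2]
    exact (hcv a b c d h1 h2 ha hb hc).le
  let W : (Q → ℝ) → Fin 3 → ℝ := fun x i => ∑ d, x d * v d i
  let w : (Q → ℝ) → EuclideanSpace ℝ (Fin 3) := fun x => WithLp.toLp 2 (W x)
  have hWc : Continuous W := by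
    apply continuous_pi
    intro i
    fun_prop
  have hwc : Continuous w := (PiLp.continuous_toLp 2 _).comp hWc
  have hle : ∀ a b c, a < b → b < c → ∀ y ∈ realization Q, ell (v a) (v b) (v c) (W y) ≤ 1 := by
    intro a b c h1 h2 y hy
    rw [mem_realization] at hy
    rw [ell_sum, ← hy.2.1]
    apply Finset.sum_le_sum
    intro d _
    have := ele a b c d h1 h2
    have := hy.1 d
    nlinarith
  have hone : ∀ a b c, a < b → b < c → ∀ x ∈ realization Q,
      (∀ d, d ≠ a → d ≠ b → d ≠ c → x d = 0) → ell (v a) (v b) (v c) (W x) = 1 := by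
    intro a b c h1 h2 x hx h
    rw [mem_realization] at hx
    rw [ell_sum, sum_three h1 h2 _ (fun d ha hb hc => by rw [h d ha hb hc, zero_mul]),
      ea a b c h1 h2, eb a b c h1 h2, ec a b c h1 h2]
    have := hx.2.1
    rw [sum_three h1 h2 _ h] at this
    linarith
  have hsc : ∀ (x y z u : Fin 3 → ℝ) (t : ℝ), ell x y z (fun i => t * u i) = t * ell x y z u := by
    intro x y z u t
    simp only [ell, det3]
    ring
  have hw0 : ∀ x ∈ realization Q, ‖w x‖ ≠ 0 := by
    intro x hx h0
    obtain ⟨a, b, c, h1, h2, h⟩ := hQ.rep x hx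
    have h3 := hone a b c h1 h2 x hx h
    have h4 : W x = fun i => 0 * W x i := by
      funext i
      have := congrArg (fun z : EuclideanSpace ℝ (Fin 3) => z i) (norm_eq_zero.mp h0)
      simpa [w] using this
    rw [h4, hsc] at h3
    simp at h3
  let φ : realization Q → Metric.sphere (0 : EuclideanSpace ℝ (Fin 3)) 1 := fun x =>
    ⟨‖w x.1‖⁻¹ • w x.1, by
      rw [mem_sphere_zero_iff_norm, norm_smul, norm_inv, norm_norm, inv_mul_cancel₀ (hw0 _ x.2)]⟩
  have hφc : Continuous φ := by
    apply Continuous.subtype_mk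
    have h1 : Continuous fun x : realization Q => w x.1 := hwc.comp continuous_subtype_val
    exact (h1.norm.inv₀ fun x => hw0 _ x.2).smul h1
  have hinj : Function.Injective φ := by
    rintro ⟨x, hx⟩ ⟨y, hy⟩ hxy
    have h0 : ‖w x‖⁻¹ • w x = ‖w y‖⁻¹ • w y := congrArg Subtype.val hxy
    have hx0 : 0 < ‖w x‖ := lt_of_le_of_ne (norm_nonneg _) (hw0 x hx).symm
    have hy0 : 0 < ‖w y‖ := lt_of_le_of_ne (norm_nonneg _) (hw0 y hy).symm
    have hxy1 : (fun i => ‖w y‖ * W x i) = fun i => ‖w x‖ * W y i := by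
      funext i
      have := congrArg (fun z : EuclideanSpace ℝ (Fin 3) => z i) h0
      change ‖w x‖⁻¹ * W x i = ‖w y‖⁻¹ * W y i at this
      field_simp at this
      linarith
    obtain ⟨a, b, c, h1, h2, h⟩ := hQ.rep x hx
    obtain ⟨a', b', c', h1', h2', h'⟩ := hQ.rep y hy
    have e1 := congrArg (ell (v a) (v b) (v c)) hxy1
    have e2 := congrArg (ell (v a') (v b') (v c')) hxy1
    rw [hsc, hsc, hone a b c h1 h2 x hx h] at e1
    rw [hsc, hsc, hone a' b' c' h1' h2' y hy h'] at e2
    have l1 := hle a b c h1 h2 y hy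
    have l2 := hle a' b' c' h1' h2' x hx
    have hn : ‖w x‖ = ‖w y‖ := by nlinarith
    have e3 : ell (v a) (v b) (v c) (W y) = 1 := by
      rw [hn] at e1
      have := mul_left_cancel₀ hy0.ne' e1
      exact this.symm
    have hW : W x = W y := by
      funext i
      have := congrFun hxy1 i
      rw [hn] at this
      exact mul_left_cancel₀ hy0.ne' this
    have hy' := (mem_realization y).mp hy
    have hsupp : ∀ d, d ≠ a → d ≠ b → d ≠ c → y d = 0 := by
      have hs : ∑ d, y d * (1 - ell (v a) (v b) (v c) (v d)) = 0 := by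
        rw [ell_sum] at e3
        simp only [mul_sub, mul_one, Finset.sum_sub_distrib, hy'.2.1, e3, sub_self]
      rw [Finset.sum_eq_zero_iff_of_nonneg fun d _ =>
        mul_nonneg (hy'.1 d) (sub_nonneg.mpr (ele a b c d h1 h2))] at hs
      intro d ha hb hc
      have h4 := hcv a b c d h1 h2 ha hb hc
      rcases mul_eq_zero.mp (hs d (Finset.mem_univ d)) with h5 | h5
      · exact h5
      · linarith
    have c0 := congrFun hW 0
    have c1 := congrFun hW 1
    have c2 := congrFun hW 2
    simp only [W] at c0 c1 c2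
    rw [sum_three h1 h2 _ (fun d ha hb hc => by rw [h d ha hb hc, zero_mul]),
      sum_three h1 h2 _ (fun d ha hb hc => by rw [hsupp d ha hb hc, zero_mul])] at c0 c1 c2
    have hD := hdet a b c h1 h2
    have fa : x a = y a := by
      apply mul_left_cancel₀ hD
      simp only [det3]
      linear_combination (v b 1 * v c 2 - v b 2 * v c 1) * c0 - (v b 0 * v c 2 - v b 2 * v c 0) * c1
        + (v b 0 * v c 1 - v b 1 * v c 0) * c2
    have fb : x b = y b := by
      apply mul_left_cancel₀ hD
      simp only [det3]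
      linear_combination (v c 1 * v a 2 - v c 2 * v a 1) * c0 - (v c 0 * v a 2 - v c 2 * v a 0) * c1
        + (v c 0 * v a 1 - v c 1 * v a 0) * c2
    have fc : x c = y c := by
      apply mul_left_cancel₀ hD
      simp only [det3]
      linear_combination (v a 1 * v b 2 - v a 2 * v b 1) * c0 - (v a 0 * v b 2 - v a 2 * v b 0) * c1
        + (v a 0 * v b 1 - v a 1 * v b 0) * c2
    apply Subtype.ext
    funext d
    by_cases ha : d = a
    · rw [ha]; exact fa
    by_cases hb : d = b
    · rw [hb]; exact fb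
    by_cases hc : d = c
    · rw [hc]; exact fc
    exact (h d ha hb hc).trans (hsupp d ha hb hc).symm
  have hsurj : Function.Surjective φ := by
    rintro ⟨u, hu⟩
    rw [mem_sphere_zero_iff_norm] at hu
    obtain ⟨a0, b0, c0, h10, h20, _⟩ := hQ.ext ∅ IsChain.empty
    obtain ⟨⟨a, b, c⟩, hmem, hmax⟩ := Finset.exists_max_image
      (Finset.univ.filter fun p : Q × Q × Q => p.1 < p.2.1 ∧ p.2.1 < p.2.2)
      (fun p => ell (v p.1) (v p.2.1) (v p.2.2) u.ofLp) ⟨(a0, b0, c0), by simp [h10, h20]⟩
    simp only [Finset.mem_filter, Finset.mem_univ, true_and] at hmem hmax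
    obtain ⟨h1, h2⟩ := hmem
    have hD := hdet a b c h1 h2
    set s := det3 u.ofLp (v b) (v c) / det3 (v a) (v b) (v c) with hs
    set t := det3 (v a) u.ofLp (v c) / det3 (v a) (v b) (v c) with ht
    set r := det3 (v a) (v b) u.ofLp / det3 (v a) (v b) (v c) with hr
    have hu1 : ∀ i, u.ofLp i = s * v a i + t * v b i + r * v c i := by
      intro i
      rw [hs, ht, hr]
      field_simp
      fin_cases i <;> simp only [det3, Fin.zero_eta, Fin.mk_one, Fin.reduceFinMk] <;> ring
    have hlin : ∀ x y z : Fin 3 → ℝ, ell x y z u.ofLp =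
        s * ell x y z (v a) + t * ell x y z (v b) + r * ell x y z (v c) := by
      intro x y z
      simp only [ell, det3, hu1]
      ring
    have hsum : ell (v a) (v b) (v c) u.ofLp = s + t + r := by
      rw [hlin, ea a b c h1 h2, eb a b c h1 h2, ec a b c h1 h2]; ring
    have hs0 : 0 ≤ s := by
      obtain ⟨a', ha', h1'⟩ := hQ.adj1 a b c h1 h2
      have m := hmax (a', b, c) ⟨h1', h2⟩
      rw [hsum, hlin, eb a' b c h1' h2, ec a' b c h1' h2] at m
      have := hcv a' b c a h1' h2 ha'.symm h1.ne (h1.trans h2).ne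
      nlinarith
    have ht0 : 0 ≤ t := by
      obtain ⟨b', hb', h1', h2'⟩ := hQ.adj2 a b c h1 h2
      have m := hmax (a, b', c) ⟨h1', h2'⟩
      rw [hsum, hlin, ea a b' c h1' h2', ec a b' c h1' h2'] at m
      have := hcv a b' c b h1' h2' h1.ne' hb'.symm h2.ne
      nlinarith
    have hr0 : 0 ≤ r := by
      obtain ⟨c', hc', h2'⟩ := hQ.adj3 a b c h1 h2
      have m := hmax (a, b, c') ⟨h1, h2'⟩
      rw [hsum, hlin, ea a b c' h1 h2', eb a b c' h1 h2'] at m
      have := hcv a b c' c h1 h2' (h1.trans h2).ne' h2.ne' hc'.symm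
      nlinarith
    have hpos : 0 < s + t + r := by
      by_contra hc
      have z1 : s = 0 := by linarith
      have z2 : t = 0 := by linarith
      have z3 : r = 0 := by linarith
      have : u = 0 := by
        ext i
        rw [hu1 i, z1, z2, z3]
        simp
      rw [this, norm_zero] at hu
      exact zero_ne_one hu
    set T := s + t + r with hT
    refine ⟨⟨tri a b c (s / T) (t / T) (r / T), tri_mem h1 h2 _ _ _ (by positivity)
      (by positivity) (by positivity) (by field_simp; ring)⟩, ?_⟩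
    apply Subtype.ext
    have hwu : w (tri a b c (s / T) (t / T) (r / T)) = T⁻¹ • u := by
      ext i
      simp only [w, W, PiLp.smul_apply, smul_eq_mul]
      rw [sum_three h1 h2 _ (fun d ha hb hc => by rw [tri_other _ _ _ d ha hb hc, zero_mul]),
        tri_a, tri_b h1, tri_c h1 h2, hu1 i]
      field_simp
    simp only [φ, hwu, norm_smul, hu, mul_one, norm_inv, Real.norm_eq_abs, abs_of_pos hpos,
      inv_inv, smul_smul, mul_inv_cancel₀ hpos.ne', one_smul]
  have : CompactSpace (realization Q) := isCompact_iff_compactSpace.mp isCompact_realization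
  exact ⟨Continuous.homeoOfEquivCompactToT2 (f := Equiv.ofBijective φ ⟨hinj, hsurj⟩) hφc⟩

end Pool.Agent.Lib.MP_a63caf_co
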